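import Pool.Agent.V1182.Gau

/-!
The gauge `r log (1 / r)` (helper82).
-/

set_option autoImplicit false

open MeasureTheory Set Metric Filter Topology
open scoped ContDiff ENNReal NNReal

namespace Pool.Agent.V1182

lemma log_int : ∫⁻ r in Ioc (0 : ℝ) (1 / 2), ENNReal.ofReal (1 / (r * Real.log (1 / r))) = ⊤ := by
  by_contra hcon
  have hpos : ∀ r ∈ Ioc (0 : ℝ) (1 / 2), 0 < Real.log (1 / r) := by
    intro r hr
    apply Real.log_pos
    rw [lt_div_iff₀ hr.1]
    linarith [hr.2]
  have hint : IntegrableOn (fun r : ℝ => 1 / (r * Real.log (1 / r))) (Ioc 0 (1 / 2)) := by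
    refine ⟨?_, ?_⟩
    · have : Measurable fun r : ℝ => 1 / (r * Real.log (1 / r)) := by fun_prop
      exact this.aestronglyMeasurable
    · rw [hasFiniteIntegral_iff_norm]
      refine lt_of_le_of_lt ?_ (lt_top_iff_ne_top.2 hcon)
      refine setLIntegral_mono' measurableSet_Ioc fun r hr => ?_
      rw [Real.norm_eq_abs, abs_of_nonneg]
      have := hpos r hr
      have := hr.1
      positivity
  have hev : ∀ᶠ r : ℝ in 𝓝[>] 0, r ∈ Ioc (0 : ℝ) (1 / 2) := Ioc_mem_nhdsGT (by norm_num)
  have hd : ∀ r ∈ Ioc (0 : ℝ) (1 / 2), HasDerivAt (fun r : ℝ => -Real.log (-Real.log r))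
      (1 / (r * Real.log (1 / r))) r := by
    intro r hr
    have h0 := hr.1
    have h1 := hpos r hr
    rw [one_div, Real.log_inv] at h1
    have h2 := (((Real.hasDerivAt_log h0.ne').neg).log h1.ne').neg
    refine h2.congr_deriv ?_
    have e : (-Real.log) r = -Real.log r := rfl
    have h3 : Real.log r ≠ 0 := by linarith
    rw [one_div r, Real.log_inv, e]
    field_simp
  refine not_integrableOn_of_tendsto_norm_atTop_of_deriv_isBigO_filter
    (f := fun r : ℝ => -Real.log (-Real.log r)) (𝓝[>] (0 : ℝ))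
    (Ioc_mem_nhdsGT (show (0 : ℝ) < 1 / 2 by norm_num)) ?_ ?_ ?_ hint
  · filter_upwards [hev] with r hr
    exact (hd r hr).differentiableAt
  · have h1 : Tendsto (fun r : ℝ => Real.log (-Real.log r)) (𝓝[>] 0) atTop :=
      Real.tendsto_log_atTop.comp (tendsto_neg_atBot_atTop.comp Real.tendsto_log_nhdsGT_zero)
    simp only [norm_neg]
    exact tendsto_norm_atTop_atTop.comp h1
  · refine Filter.EventuallyEq.isBigO ?_
    filter_upwards [hev] with r hr
    exact (hd r hr).deriv

/-- The gauge `r log (1 / r)` satisfies the hypotheses. -/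
lemma log_gauge : (∀ r : ℝ, 0 < r → r ≤ 1 / 2 → 0 < r * Real.log (1 / r)) ∧
    ∀ r s : ℝ, 0 < r → r ≤ s → s ≤ 1 / 2 →
      s * Real.log (1 / s) / s ≤ r * Real.log (1 / r) / r := by
  constructor
  · intro r hr hr'
    have : 0 < Real.log (1 / r) := by
      apply Real.log_pos
      rw [lt_div_iff₀ hr]
      linarith
    positivity
  · intro r s hr hrs _
    have hs := hr.trans_le hrs
    rw [mul_div_assoc, mul_div_assoc, mul_comm s, mul_comm r, div_mul_cancel₀ _ hs.ne',
      div_mul_cancel₀ _ hr.ne']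
    apply Real.log_le_log (by positivity)
    exact one_div_le_one_div_of_le hr hrs

end Pool.Agent.V1182
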