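import Pool.Agent.V1182.Hb
import Pool.Agent.Y458.NS.AL

/-!
The functional of the gradient as a function of time, and the evolution of the local mean
velocity (helper82).
-/

set_option autoImplicit false

open MeasureTheory Set Metric Filter Topology
open scoped ContDiff ENNReal NNReal

namespace Pool.Agent.V1182

open H459R3.NS W221.NS Pool.Agent.Y8 Pool.Agent.Y153.NS Pool.Agent.Y458.NS

section

variable {T E D : ℝ} {G : Set ℝ} {u : ℝ → V → V} {p : ℝ → V → ℝ}

lemma Pf_cont (h : Turb 1 T E D G u p) (r : ℝ) (x : V) :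
    ContinuousOn (fun t => Pf r (u t) x) G := by
  unfold Pf
  refine ContinuousOn.rpow_const ?_ fun t _ => Or.inr (by norm_num)
  refine continuousOn_const.mul ?_
  refine pint_cont (F := fun t y => gsq (u t) y ^ (6 / 7 : ℝ)) h.openG ?_ x (16 * r)
  exact (gsq_joint h.openG h.smooth_u).continuousOn.rpow_const fun z _ => Or.inr (by norm_num)

lemma B2_int (h : Turb 1 T E D G u p) (x : V) (ρ : ℝ) :
    IntegrableOn (fun t => B2 x ρ (u t)) G :=
  B2_mov_int h (X := fun _ => x) continuousOn_const ρ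

lemma Pf_int (h : Turb 1 T E D G u p) {r : ℝ} (hr : 0 < r) (x : V) :
    IntegrableOn (fun t => Pf r (u t) x) G := by
  have hi : IntegrableOn (fun t => 6 * (r ^ 3)⁻¹ * B2 x (16 * r) (u t)) G :=
    (B2_int h x (16 * r)).const_mul _
  refine Integrable.mono' hi ((Pf_cont h r x).aestronglyMeasurable h.openG.measurableSet) ?_
  filter_upwards [ae_restrict_mem h.openG.measurableSet] with t ht
  rw [Real.norm_eq_abs, abs_of_nonneg (Pf_nn hr.le _ _)]
  exact Pf_B2 (h.spv ht).1 hr x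

lemma sg_cont (h : Turb 1 T E D G u p) (n : ℕ) (x : V) :
    ContinuousOn (fun t => sg n (u t) x) G := by
  unfold sg
  exact continuousOn_finsetSum _ fun k _ => continuousOn_const.mul (Pf_cont h _ x)

lemma lm_cont (h : Turb 1 T E D G u p) (n : ℕ) (x : V) :
    ContinuousOn (fun t => lm n (u t) x) G := by
  unfold lm
  exact continuousOn_finsetSum _ fun k _ => continuousOn_const.mul (Pf_cont h _ x)

lemma sg_int (h : Turb 1 T E D G u p) (n : ℕ) (x : V) :
    IntegrableOn (fun t => sg n (u t) x) G := by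
  unfold sg
  exact integrable_finsetSum _ fun k _ => (Pf_int h (by have := rr_pos n; positivity) x).const_mul _

lemma lm_int (h : Turb 1 T E D G u p) (n : ℕ) (x : V) :
    IntegrableOn (fun t => lm n (u t) x) G := by
  unfold lm
  exact integrable_finsetSum _ fun k _ => (Pf_int h (by have := rr_pos n; positivity) x).const_mul _

lemma sq_cont (h : Turb 1 T E D G u p) (n : ℕ) (x : V) :
    ContinuousOn (fun t => √(sg n (u t) x)) G :=
  Real.continuous_sqrt.comp_continuousOn (sg_cont h n x)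

lemma sqrt_le1 {a : ℝ} (ha : 0 ≤ a) : √a ≤ 1 + a := by
  have h1 := Real.sq_sqrt ha
  have h2 := Real.sqrt_nonneg a
  nlinarith [sq_nonneg (√a - 1)]

lemma sq_int (h : Turb 1 T E D G u p) (n : ℕ) (x : V) :
    IntegrableOn (fun t => √(sg n (u t) x)) G := by
  have hi : IntegrableOn (fun t => 1 + sg n (u t) x) G :=
    Integrable.add (integrableOn_const h.volG) (sg_int h n x)
  refine Integrable.mono' hi ((sq_cont h n x).aestronglyMeasurable h.openG.measurableSet) ?_
  filter_upwards with t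
  rw [Real.norm_eq_abs, abs_of_nonneg (Real.sqrt_nonneg _)]
  exact sqrt_le1 (sg_nn n (u t) x)

/-! ### The functional on the parabolic cylinders -/

/-- The functional of the gradient on the parabolic cylinder of the generation `n`. -/
noncomputable def Th (G : Set ℝ) (u : ℝ → V → V) (n : ℕ) (z : ℝ × V) : ℝ :=
  rr n ^ 2 * ∫ t in II n z.1 ∩ G, Pf (rr n) (u t) z.2

/-- The weighted sum over the larger cylinders. -/
noncomputable def ta (G : Set ℝ) (u : ℝ → V → V) (n : ℕ) (z : ℝ × V) : ℝ :=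
  ∑ k ∈ Finset.range n, (2 ^ k)⁻¹ * Th G u (n - k) z

lemma Th_nn (G : Set ℝ) (u : ℝ → V → V) (n : ℕ) (z : ℝ × V) : 0 ≤ Th G u n z :=
  mul_nonneg (by positivity) (integral_nonneg fun t => Pf_nn (rr_pos n).le _ _)

lemma ta_nn (G : Set ℝ) (u : ℝ → V → V) (n : ℕ) (z : ℝ × V) : 0 ≤ ta G u n z :=
  Finset.sum_nonneg fun k _ => mul_nonneg (by positivity) (Th_nn G u _ z)

lemma rr_sub {n k : ℕ} (hk : k ≤ n) : 2 ^ k * rr n = rr (n - k) := by
  rw [two_rr hk]
  rfl

lemma II_mono {m n : ℕ} (hmn : m ≤ n) (t : ℝ) : II n t ⊆ II m t := by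
  have h1 : rr n ≤ rr m := pow_le_pow_of_le_one (by norm_num) (by norm_num) hmn
  have h2 : rr n ^ 2 ≤ rr m ^ 2 := pow_le_pow_left₀ (rr_pos n).le h1 2
  unfold II
  exact Ioo_subset_Ioo (by linarith) (by linarith)

lemma lm_le (h : Turb 1 T E D G u p) (n : ℕ) (z : ℝ × V) :
    rr n ^ 2 * ∫ t in II n z.1 ∩ G, lm n (u t) z.2 ≤ ta G u n z := by
  have hr := rr_pos n
  have hint : ∀ k, IntegrableOn (fun t => Pf (2 ^ k * rr n) (u t) z.2) (II n z.1 ∩ G) := fun k =>
    (Pf_int h (by positivity) z.2).mono_set inter_subset_right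
  unfold lm
  rw [integral_finsetSum _ fun k _ => (hint k).const_mul _, Finset.mul_sum]
  unfold ta
  refine Finset.sum_le_sum fun k hk => ?_
  have hkn : k ≤ n := (Finset.mem_range.1 hk).le
  rw [integral_const_mul]
  have h1 : ∫ t in II n z.1 ∩ G, Pf (2 ^ k * rr n) (u t) z.2 ≤
      ∫ t in II (n - k) z.1 ∩ G, Pf (rr (n - k)) (u t) z.2 := by
    rw [rr_sub hkn]
    refine setIntegral_mono_set ((Pf_int h (rr_pos _) z.2).mono_set inter_subset_right)
      (Eventually.of_forall fun t => Pf_nn (rr_pos _).le _ _) ?_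
    exact (inter_subset_inter_left _ (II_mono (Nat.sub_le n k) z.1)).eventuallyLE
  unfold Th
  have h3 : 0 ≤ ∫ t in II (n - k) z.1 ∩ G, Pf (rr (n - k)) (u t) z.2 :=
    integral_nonneg fun t => Pf_nn (rr_pos _).le _ _
  have h2 : (2 ^ k)⁻¹ * rr (n - k) ^ 2 = rr n ^ 2 * 2 ^ k := by
    rw [← rr_sub hkn]
    field_simp
  rw [← mul_assoc, ← mul_assoc, h2]
  exact mul_le_mul_of_nonneg_left h1 (by positivity)

lemma sg_le (h : Turb 1 T E D G u p) (n : ℕ) (z : ℝ × V) :
    rr n ^ 2 * ∫ t in II n z.1 ∩ G, sg n (u t) z.2 ≤ ta G u n z := by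
  refine le_trans ?_ (lm_le h n z)
  apply mul_le_mul_of_nonneg_left _ (by positivity)
  exact integral_mono ((sg_int h n z.2).mono_set inter_subset_right)
    ((lm_int h n z.2).mono_set inter_subset_right) fun t => sg_le_lm n (u t) z.2

lemma vol_II (n : ℕ) (t : ℝ) : volume (II n t) = ENNReal.ofReal (2 * rr n ^ 2) := by
  unfold II
  rw [Real.volume_Ioo]
  congr 1
  ring

lemma sqI_le (h : Turb 1 T E D G u p) (n : ℕ) (z : ℝ × V) :
    ∫ t in II n z.1 ∩ G, √(sg n (u t) z.2) ≤ 2 * √(ta G u n z) := by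
  have hr := rr_pos n
  have i1 : IntegrableOn (fun t => √(sg n (u t) z.2)) (II n z.1 ∩ G) :=
    (sq_int h n z.2).mono_set inter_subset_right
  have i2 : IntegrableOn (fun t => sg n (u t) z.2) (II n z.1 ∩ G) :=
    (sg_int h n z.2).mono_set inter_subset_right
  have hfin : volume (II n z.1 ∩ G) ≠ ⊤ :=
    ((measure_mono inter_subset_left).trans_lt (by rw [vol_II]; exact ENNReal.ofReal_lt_top)).ne
  have hvol : volume.real (II n z.1 ∩ G) ≤ 2 * rr n ^ 2 := by
    have h1 : volume.real (II n z.1) = 2 * rr n ^ 2 := by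
      unfold Measure.real
      rw [vol_II, ENNReal.toReal_ofReal (by positivity)]
    rw [← h1]
    exact measureReal_mono inter_subset_left (by rw [vol_II]; exact ENNReal.ofReal_ne_top)
  have h3 := sg_le h n z
  have h4 : 0 ≤ ∫ t in II n z.1 ∩ G, sg n (u t) z.2 := integral_nonneg fun t => sg_nn _ _ _
  have ht := ta_nn G u n z
  obtain ⟨s, hs⟩ : ∃ s, s = √(ta G u n z) := ⟨_, rfl⟩
  have hs0 : 0 ≤ s := by rw [hs]; exact Real.sqrt_nonneg _
  have hss : s ^ 2 = ta G u n z := by rw [hs]; exact Real.sq_sqrt ht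
  rw [← hs]
  refine le_of_forall_pos_le_add fun ε hε => ?_
  obtain ⟨l, hl⟩ : ∃ l, l = (s + ε / 2) / rr n ^ 2 := ⟨_, rfl⟩
  have hse : 0 < s + ε / 2 := by positivity
  have hl0 : 0 < l := by rw [hl]; positivity
  have hpt : ∀ t, √(sg n (u t) z.2) ≤ l / 2 + (2 * l)⁻¹ * sg n (u t) z.2 := by
    intro t
    have h5 := Real.sq_sqrt (sg_nn n (u t) z.2)
    have h6 := Real.sqrt_nonneg (sg n (u t) z.2)
    rw [← sub_nonneg]
    have e : l / 2 + (2 * l)⁻¹ * sg n (u t) z.2 - √(sg n (u t) z.2)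
        = (2 * l)⁻¹ * (l - √(sg n (u t) z.2)) ^ 2 := by
      field_simp
      rw [← h5]
      ring_nf
      rw [Real.sq_sqrt (sq_nonneg _), Real.sqrt_sq h6]
    rw [e]
    positivity
  have i3 : IntegrableOn (fun _ : ℝ => l / 2) (II n z.1 ∩ G) := integrableOn_const hfin
  have h7 : ∫ t in II n z.1 ∩ G, √(sg n (u t) z.2)
      ≤ l / 2 * (2 * rr n ^ 2) + (2 * l)⁻¹ * ∫ t in II n z.1 ∩ G, sg n (u t) z.2 := by
    refine (integral_mono i1 (i3.add (i2.const_mul _)) hpt).trans ?_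
    simp only [Pi.add_apply]
    rw [integral_add i3 (i2.const_mul _), setIntegral_const, integral_const_mul, smul_eq_mul,
      mul_comm (volume.real _)]
    gcongr
  have h8 : (2 * l)⁻¹ * ∫ t in II n z.1 ∩ G, sg n (u t) z.2 ≤ (s + ε / 2) / 2 := by
    have h9 : ∫ t in II n z.1 ∩ G, sg n (u t) z.2 ≤ (s + ε / 2) ^ 2 / rr n ^ 2 := by
      rw [le_div_iff₀ (by positivity), mul_comm]
      refine h3.trans ?_
      rw [← hss]
      apply pow_le_pow_left₀ hs0
      linarith
    calc (2 * l)⁻¹ * ∫ t in II n z.1 ∩ G, sg n (u t) z.2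
        ≤ (2 * l)⁻¹ * ((s + ε / 2) ^ 2 / rr n ^ 2) := by gcongr
      _ = (s + ε / 2) / 2 := by
          rw [hl]
          field_simp
  have h10 : l / 2 * (2 * rr n ^ 2) = s + ε / 2 := by
    rw [hl]
    field_simp
  rw [h10] at h7
  linarith

lemma Th_le (n : ℕ) : ∃ C : ℝ, 0 < C ∧ ∀ (T E D : ℝ) (G : Set ℝ) (u : ℝ → V → V)
    (p : ℝ → V → ℝ), Turb 1 T E D G u p → ∀ z : ℝ × V, Th G u n z ≤ C * D := by
  obtain ⟨C, hC, hb⟩ := ball_le (16 * rr n)
  have hr := rr_pos n
  refine ⟨rr n ^ 2 * (6 * (rr n ^ 3)⁻¹ * C), by positivity, fun T E D G u p h z => ?_⟩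
  unfold Th
  rw [mul_assoc (rr n ^ 2)]
  apply mul_le_mul_of_nonneg_left _ (by positivity)
  have hpt : ∀ t ∈ G, Pf (rr n) (u t) z.2 ≤ 6 * (rr n ^ 3)⁻¹ * C * enstrophy (u t) := by
    intro t ht
    have hu := h.spv ht
    refine (Pf_B2 hu.1 hr z.2).trans ?_
    rw [mul_assoc (6 * (rr n ^ 3)⁻¹)]
    apply mul_le_mul_of_nonneg_left _ (by positivity)
    rw [enst_eq hu.1]
    exact hb _ (gsq_sm hu.1).continuous (gsq_per hu.2) (gsq_nn (u t)) z.2
  calc ∫ t in II n z.1 ∩ G, Pf (rr n) (u t) z.2 ≤ ∫ t in G, Pf (rr n) (u t) z.2 :=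
        setIntegral_mono_set (Pf_int h hr z.2)
          (Eventually.of_forall fun t => Pf_nn hr.le _ _) inter_subset_right.eventuallyLE
    _ ≤ ∫ t in G, 6 * (rr n ^ 3)⁻¹ * C * enstrophy (u t) :=
        setIntegral_mono_on (Pf_int h hr z.2) (h.enst_int.const_mul _) h.openG.measurableSet hpt
    _ = 6 * (rr n ^ 3)⁻¹ * C * ∫ t in G, enstrophy (u t) := integral_const_mul _ _
    _ ≤ 6 * (rr n ^ 3)⁻¹ * C * D := mul_le_mul_of_nonneg_left h.enst_le (by positivity)

end

end Pool.Agent.V1182
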