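import Pool.Agent.V1182.Emb
import Pool.Agent.V1182.Tim
import Pool.Agent.Y8.WCore

/-!
The sum of the functionals of the gradient against a measure with a growth condition (helper82).
-/

set_option autoImplicit false

open MeasureTheory Set Metric Filter Topology
open scoped ContDiff ENNReal NNReal

namespace Pool.Agent.V1182

open H459R3.NS W221.NS Pool.Agent.Y8

/-- The functional of the gradient and the maximal function. -/
lemma Pf_Fx : ∃ K : ℝ, 0 < K ∧ ∀ n : ℕ, 5 ≤ n → ∀ u : V → V, ContDiff ℝ ∞ u → ∀ x y : V,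
    ‖y - x‖ ≤ rr n → ENNReal.ofReal (Pf (rr n) u x) ≤ ENNReal.ofReal K * Pool.Agent.Y7.Fx 1 u y := by
  refine ⟨((32 : ℝ) ^ 3) ^ (7 / 6 : ℝ), by positivity, fun n hn u hu x y hxy => ?_⟩
  have hr := rr_pos' n
  rw [ofReal_Pf hu hr]
  have hR : Pool.Agent.Y7.Hl.Rr 1 (n - 5) = 32 * rr n := by
    unfold Pool.Agent.Y7.Hl.Rr rr
    obtain ⟨k, rfl⟩ : ∃ k, n = k + 5 := ⟨n - 5, by omega⟩
    rw [Nat.add_sub_cancel, pow_add, one_div, one_div, inv_pow]
    ring
  unfold Pool.Agent.Y7.Fx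
  rw [← ENNReal.ofReal_rpow_of_nonneg (by positivity) (by norm_num),
    ← ENNReal.mul_rpow_of_nonneg _ _ (by norm_num)]
  apply ENNReal.rpow_le_rpow _ (by norm_num)
  have h1 : (∫⁻ y in ball y (Pool.Agent.Y7.Hl.Rr 1 (n - 5)), Pool.Agent.Y7.Sp.gw u y)
      / ENNReal.ofReal (Pool.Agent.Y7.Hl.Rr 1 (n - 5) ^ 3)
      ≤ Pool.Agent.Y7.Hl.Mx 1 (Pool.Agent.Y7.Sp.gw u) y := by
    unfold Pool.Agent.Y7.Hl.Mx
    exact le_iSup (fun m => (∫⁻ y in ball y (Pool.Agent.Y7.Hl.Rr 1 m), Pool.Agent.Y7.Sp.gw u y)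
      / ENNReal.ofReal (Pool.Agent.Y7.Hl.Rr 1 m ^ 3)) (n - 5)
  refine le_trans ?_ (mul_le_mul_right h1 _)
  rw [hR]
  have h2 : ∫⁻ y in ball x (16 * rr n), Pool.Agent.Y7.Sp.gw u y
      ≤ ∫⁻ y in ball y (32 * rr n), Pool.Agent.Y7.Sp.gw u y := by
    apply lintegral_mono_set
    apply ball_subset_ball'
    rw [dist_eq_norm, norm_sub_rev]
    linarith
  refine (mul_le_mul_right h2 _).trans (le_of_eq ?_)
  have h3 : ENNReal.ofReal ((rr n ^ 3)⁻¹) = ENNReal.ofReal (32 ^ 3) *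
      (ENNReal.ofReal ((32 * rr n) ^ 3))⁻¹ := by
    rw [← ENNReal.ofReal_inv_of_pos (by positivity), ← ENNReal.ofReal_mul (by norm_num)]
    congr 1
    field_simp
  rw [h3, ENNReal.div_eq_inv_mul, mul_assoc]

/-- The integral of the maximal function. -/
theorem FxS : ∃ A : ℝ, 0 < A ∧ ∀ v : V → V, ContDiff ℝ ∞ v → Per v →
    ∫⁻ y in ball (0 : V) 2, Pool.Agent.Y7.Fx 1 v y
      ≤ ENNReal.ofReal (A * 216) * ENNReal.ofReal (enstrophy v) := by
  obtain ⟨A, hA, hHL⟩ := Pool.Agent.Y7.FxL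
  refine ⟨A, hA, ?_⟩
  intro v hv hp
  obtain ⟨M, hM⟩ := Pool.Agent.TH305.LG.per_bdd (T := 2) (u := fun _ => v) (a := 1) (b := 1)
    ((hv.comp contDiff_snd).contDiffOn) (fun t ht => hp) (by norm_num) (by norm_num)
  have hgm := Pool.Agent.Y7.gw_meas hv
  obtain ⟨g, hg⟩ : ∃ g : V → ℝ≥0∞, g = (ball (0 : V) 3).indicator (Pool.Agent.Y7.Sp.gw v) :=
    ⟨_, rfl⟩
  have h6 := hHL 1 one_pos g (by rw [hg]; exact hgm.indicator measurableSet_ball)
    (ENNReal.ofReal (9 * M ^ 2) ^ (6 / 7 : ℝ))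
    (ENNReal.rpow_ne_top_of_nonneg (by norm_num) ENNReal.ofReal_ne_top)
    (fun x => by
      rw [hg]
      exact (indicator_le_self _ _ x).trans
        (Pool.Agent.Y7.gw_bd (fun x => (hM 1 ⟨le_rfl, le_rfl⟩ x).2) x))
  have h7 : ∫⁻ x, g x ^ (7 / 6 : ℝ) ≤ ENNReal.ofReal (216 * enstrophy v) := by
    refine le_trans (le_of_eq ?_)
      (W221.NS.B.p_pere _ ⟨hv, hp⟩)
    rw [← lintegral_indicator measurableSet_ball]
    refine lintegral_congr fun x => ?_
    rw [hg]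
    by_cases hx : x ∈ ball (0 : V) 3
    · rw [indicator_of_mem hx, indicator_of_mem hx, Pool.Agent.Y7.gw_pow]
      congr 1
      unfold gsq
      refine Finset.sum_congr rfl fun i _ => Finset.sum_congr rfl fun j _ => ?_
      congr 1
      refine Pool.Agent.TH305.DR.pd_congr_open isOpen_ball (fun z hz => ?_) j hx
      show v z i = zt z • v z i
      rw [Pool.Agent.TH305.LG.zt_one hz, one_smul]
    · rw [indicator_of_notMem hx, indicator_of_notMem hx,
        ENNReal.zero_rpow_of_pos (by norm_num)]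
  have h8 : ∫⁻ y in ball (0 : V) 2, Pool.Agent.Y7.Fx 1 v y
      ≤ ∫⁻ x, Pool.Agent.Y7.Hl.Mx 1 g x ^ (7 / 6 : ℝ) := by
    rw [← lintegral_indicator measurableSet_ball]
    refine lintegral_mono fun x => ?_
    by_cases hx : x ∈ ball (0 : V) 2
    · rw [indicator_of_mem hx]
      unfold Pool.Agent.Y7.Fx Pool.Agent.Y7.Hl.Mx
      refine ENNReal.rpow_le_rpow (iSup_mono fun m => ?_) (by norm_num)
      refine ENNReal.div_le_div_right (le_of_eq ?_) _
      refine setLIntegral_congr_fun measurableSet_ball fun y hy => ?_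
      rw [hg, indicator_of_mem]
      have h9 := Pool.Agent.Y7.Hl.Rr_le (R₀ := 1) one_pos m
      rw [mem_ball] at hx hy ⊢
      have h11 := dist_triangle y x 0
      linarith
    · rw [indicator_of_notMem hx]
      exact zero_le
  refine h8.trans (h6.trans ((mul_le_mul_right h7 _).trans (le_of_eq ?_)))
  rw [ENNReal.ofReal_mul (by norm_num : (0 : ℝ) ≤ 216), ← mul_assoc,
    ← ENNReal.ofReal_mul hA.le]

/-- The sum at one time. -/
theorem fix_time : ∃ C : ℝ, 0 < C ∧ ∀ v : V → V, SPV v → ∀ (E : Finset (ℝ × V)) (μ : ℝ × V → ℝ)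
    (h : ℕ → ℝ) (j J : ℕ), 5 ≤ j → j ≤ J → (∀ z, 0 ≤ μ z) → (∀ n, 0 < h n) →
    (∀ n, j ≤ n → n ≤ J → ∀ q, cm E px μ n q ≤ h n) →
    (∀ m n, j ≤ m → m ≤ n → rr n / h n ≤ rr m / h m) →
    (∀ z ∈ E, ∀ i, 0 ≤ z.2 i ∧ z.2 i ≤ 1) → ∀ t : ℝ,
    ∑ z ∈ E, ∑ m ∈ Finset.Ico j (J + 1), wt μ h t m z * Pf (rr m) v z.2 ≤ C * enstrophy v := by
  obtain ⟨K, hK, hPF⟩ := Pf_Fx
  obtain ⟨A, hA, hFS⟩ := FxS
  refine ⟨4 * (K * (A * 216)), by positivity, ?_⟩
  intro v hv E μ h j J hj hjJ hμ hh hg ha hE t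
  have hen := enst_nn v
  have hw := wt_nn (μ := μ) (h := h) hμ hh t
  have hP : ∀ m z, 0 ≤ Pf (rr m) v z := fun m z => Pf_nn (rr_pos' m).le v z
  rw [← ENNReal.ofReal_le_ofReal_iff (by positivity)]
  have h1 := emb (E := E) (μ := μ) (h := h) (j := j) (J := J) hμ hh hjJ hg ha t
    (fun y => ENNReal.ofReal K * Pool.Agent.Y7.Fx 1 v y)
    ((Pool.Agent.Y7.Fx_meas 1 hv.1).const_mul _) (fun m z => ENNReal.ofReal (Pf (rr m) v z.2))
    (fun m hm1 hm2 z hz y hy => by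
      refine hPF m (hj.trans hm1) v hv.1 z.2 y ?_
      exact (dc_near hy).le)
    (ball 0 2) (fun z hz y hy => by
      rw [mem_ball_zero_iff, pi_norm_lt_iff (by norm_num)]
      intro i
      have hj2 : rr j ≤ 1 := Pool.Agent.Y153.NS.rr_le j
      have h2 := hE z hz i
      have h3 := congrFun hy i
      unfold sx at h3
      have hp2 : (0 : ℝ) < 2 ^ j := by positivity
      have h4 : ‖y - z.2‖ < rr j := dc_near hy
      have h5 : |y i - z.2 i| < rr j := (norm_le_pi_norm (y - z.2) i).trans_lt h4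
      rw [Real.norm_eq_abs, abs_lt]
      rw [abs_lt] at h5
      constructor <;> linarith)
  rw [ENNReal.ofReal_sum_of_nonneg fun z _ => Finset.sum_nonneg fun m _ =>
    mul_nonneg (hw m z) (hP m z.2)]
  have h2 : ∀ z ∈ E, ENNReal.ofReal (∑ m ∈ Finset.Ico j (J + 1), wt μ h t m z * Pf (rr m) v z.2)
      = ∑ m ∈ Finset.Ico j (J + 1), ENNReal.ofReal (wt μ h t m z) *
        ENNReal.ofReal (Pf (rr m) v z.2) := by
    intro z _
    rw [ENNReal.ofReal_sum_of_nonneg fun m _ => mul_nonneg (hw m z) (hP m z.2)]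
    exact Finset.sum_congr rfl fun m _ => ENNReal.ofReal_mul (hw m z)
  rw [Finset.sum_congr rfl h2]
  refine h1.trans ?_
  rw [lintegral_const_mul' _ _ ENNReal.ofReal_ne_top]
  refine (mul_le_mul_right (mul_le_mul_right (hFS v hv.1 hv.2) _) _).trans (le_of_eq ?_)
  have h4 : (4 : ℝ≥0∞) = ENNReal.ofReal 4 := by norm_num
  rw [h4, ← ENNReal.ofReal_mul (by positivity), ← ENNReal.ofReal_mul hK.le,
    ← ENNReal.ofReal_mul (by norm_num)]
  congr 1
  ring

/-- The sum over the space-time cylinders. -/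
theorem sum_Th : ∃ C : ℝ, 0 < C ∧ ∀ (T E₀ D : ℝ) (G : Set ℝ) (u : ℝ → V → V)
    (p : ℝ → V → ℝ), Turb 1 T E₀ D G u p → ∀ (E : Finset (ℝ × V)) (μ : ℝ × V → ℝ)
    (h : ℕ → ℝ) (j J : ℕ), 5 ≤ j → j ≤ J → (∀ z, 0 ≤ μ z) → (∀ n, 0 < h n) →
    (∀ n, j ≤ n → n ≤ J → ∀ q, cm E px μ n q ≤ h n) →
    (∀ m n, j ≤ m → m ≤ n → rr n / h n ≤ rr m / h m) →
    (∀ z ∈ E, ∀ i, 0 ≤ z.2 i ∧ z.2 i ≤ 1) →
    ∑ z ∈ E, μ z * ∑ m ∈ Finset.Ico j (J + 1), rr m / h m * Th G u m z ≤ C * D := by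
  obtain ⟨C, hC, hfix⟩ := fix_time
  refine ⟨C, hC, ?_⟩
  intro T E₀ D G u p hT E μ h j J hj hjJ hμ hh hg ha hE
  have hGm := hT.openG.measurableSet
  have hwi : ∀ m (z : ℝ × V), (fun t => wt μ h t m z * Pf (rr m) (u t) z.2)
      = (II m z.1).indicator fun t => μ z * (rr m / h m * rr m ^ 2) * Pf (rr m) (u t) z.2 := by
    intro m z
    funext t
    unfold wt
    by_cases ht : |t - z.1| < rr m ^ 2
    · have ht2 : t ∈ II m z.1 := by
        rw [abs_lt] at ht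
        exact ⟨by linarith [ht.1], by linarith [ht.2]⟩
      rw [if_pos ht, indicator_of_mem ht2]
    · have ht2 : t ∉ II m z.1 := fun h2 => ht (by
        unfold II at h2
        rw [abs_lt]
        constructor <;> linarith [h2.1, h2.2])
      rw [if_neg ht, indicator_of_notMem ht2, zero_mul]
  have hIm : ∀ m (s : ℝ), MeasurableSet (II m s) := fun m s => measurableSet_Ioo
  have hPi : ∀ m (z : ℝ × V), IntegrableOn (fun t => wt μ h t m z * Pf (rr m) (u t) z.2) G := by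
    intro m z
    rw [hwi]
    exact Integrable.indicator ((Pf_int hT (rr_pos' m) z.2).const_mul _) (hIm m z.1)
  have hval : ∀ m (z : ℝ × V), μ z * (rr m / h m * Th G u m z)
      = ∫ t in G, wt μ h t m z * Pf (rr m) (u t) z.2 := by
    intro m z
    rw [hwi, integral_indicator (hIm m z.1), Measure.restrict_restrict (hIm m z.1),
      integral_const_mul]
    unfold Th
    ring
  have h1 : ∑ z ∈ E, μ z * ∑ m ∈ Finset.Ico j (J + 1), rr m / h m * Th G u m z
      = ∫ t in G, ∑ z ∈ E, ∑ m ∈ Finset.Ico j (J + 1), wt μ h t m z * Pf (rr m) (u t) z.2 := by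
    rw [integral_finsetSum _ fun z _ => integrable_finsetSum _ fun m _ => hPi m z]
    refine Finset.sum_congr rfl fun z _ => ?_
    rw [integral_finsetSum _ fun m _ => hPi m z, Finset.mul_sum]
    exact Finset.sum_congr rfl fun m _ => hval m z
  rw [h1]
  calc ∫ t in G, ∑ z ∈ E, ∑ m ∈ Finset.Ico j (J + 1), wt μ h t m z * Pf (rr m) (u t) z.2
      ≤ ∫ t in G, C * enstrophy (u t) := by
        refine setIntegral_mono_on (integrable_finsetSum _ fun z _ =>
          integrable_finsetSum _ fun m _ => hPi m z) (hT.enst_int.const_mul _) hGm fun t ht => ?_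
        exact hfix (u t) (hT.spv ht) E μ h j J hj hjJ hμ hh hg ha hE t
    _ = C * ∫ t in G, enstrophy (u t) := integral_const_mul _ _
    _ ≤ C * D := mul_le_mul_of_nonneg_left hT.enst_le hC.le

end Pool.Agent.V1182
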