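import Pool.Agent.V1182.Ser
import Pool.Agent.V1182.Sum

/-!
Coverings of the singular set on compact pieces of space-time (helper82).
-/

set_option autoImplicit false

open MeasureTheory Set Metric Filter Topology
open scoped ContDiff ENNReal NNReal

namespace Pool.Agent.V1182

open H459R3.NS W221.NS Pool.Agent.Y8

/-- Finitely many representatives of the cells of one generation. -/
lemma reps (J : ℕ) (a b : ℝ) (S : Set (ℝ × V))
    (hS : ∀ z ∈ S, z.1 ∈ Icc a b ∧ ∀ i, 0 ≤ z.2 i ∧ z.2 i ≤ 1) :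
    ∃ R : Finset (ℝ × V), (∀ z ∈ R, z ∈ S) ∧ ∀ w ∈ S, ∃ z ∈ R, px J w = px J z := by
  have h4 : (0 : ℝ) < 4 ^ J := by positivity
  have h2 : (0 : ℝ) < 2 ^ J := by positivity
  have hfin : (px J '' S).Finite := by
    have hf : (Icc ⌊(4 : ℝ) ^ J * a⌋ ⌊(4 : ℝ) ^ J * b⌋ ×ˢ
        Icc (fun _ : Fin 3 => (0 : ℤ)) (fun _ => ⌊(2 : ℝ) ^ J * 1⌋)).Finite :=
      (finite_Icc _ _).prod (finite_Icc _ _)
    refine hf.subset ?_
    rintro _ ⟨z, hz, rfl⟩
    obtain ⟨h3, h5⟩ := hS z hz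
    refine ⟨⟨Int.floor_le_floor ?_, Int.floor_le_floor ?_⟩, ⟨fun i => ?_, fun i => ?_⟩⟩
    · exact mul_le_mul_of_nonneg_left h3.1 h4.le
    · exact mul_le_mul_of_nonneg_left h3.2 h4.le
    · exact Int.floor_nonneg.2 (mul_nonneg h2.le (h5 i).1)
    · exact Int.floor_le_floor (mul_le_mul_of_nonneg_left (h5 i).2 h2.le)
  obtain ⟨t, htS, htf, hte⟩ := (exists_subset_image_finite_and (f := px J) (s := S)
    (p := fun t => t = px J '' S)).1 ⟨px J '' S, subset_rfl, hfin, rfl⟩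
  refine ⟨htf.toFinset, fun z hz => htS (htf.mem_toFinset.1 hz), fun w hw => ?_⟩
  have h5 : px J w ∈ px J '' t := by
    rw [hte]
    exact mem_image_of_mem _ hw
  obtain ⟨z, hz, hzw⟩ := h5
  exact ⟨z, htf.mem_toFinset.2 hz, hzw.symm⟩

/-- The covering on a compact piece. -/
theorem cov1 {T E D : ℝ} {G : Set ℝ} {u : ℝ → V → V} {p : ℝ → V → ℝ} (hT : Turb 1 T E D G u p)
    {a b : ℝ} (ha : 0 < a) (hb : b < T) {h : ℕ → ℝ} (hh : ∀ n, 0 < h n)
    (hmono : ∀ n, rr (n + 1) / h (n + 1) ≤ rr n / h n)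
    (hdiv : ¬ Summable fun n => rr n / h n) {ε δ : ℝ} (hε : 0 < ε) (hδ : 0 < δ) :
    ∃ Z : Finset ((ℝ × V) × ℕ), (∀ q ∈ Z, rr q.2 ≤ δ) ∧ ∑ q ∈ Z, h q.2 ≤ ε ∧
      ∀ z : ℝ × V, z.1 ∈ Icc a b → (∀ i, 0 ≤ z.2 i ∧ z.2 i ≤ 1) → SingPt G u z.1 z.2 →
        ∃ q ∈ Z, |z.1 - q.1.1| < rr q.2 ^ 2 ∧ ‖z.2 - q.1.2‖ < rr q.2 := by
  classical
  obtain ⟨C', hC', hser⟩ := ser
  obtain ⟨n₀, hn₀, hser⟩ := hser E
  obtain ⟨C, hC, hsum⟩ := sum_Th
  have hD0 : 0 ≤ D := le_trans (integral_nonneg fun t => enst_nn (u t)) hT.enst_le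
  obtain ⟨α, hα⟩ : ∃ α : ℕ → ℝ, α = fun n => rr n / h n := ⟨_, rfl⟩
  have hα0 : ∀ n, 0 < α n := fun n => by
    rw [hα]
    exact div_pos (rr_pos' n) (hh n)
  have hanti : Antitone α := antitone_nat_of_succ_le fun n => by
    rw [hα]
    exact hmono n
  -- the first generation
  obtain ⟨j, hj1, hj2, hj3, hj4⟩ : ∃ j, n₀ ≤ j ∧ 5 ≤ j ∧ rr j ≤ δ ∧
      (rr j ^ 2 ≤ a ∧ b + rr j ^ 2 ≤ T) := by
    obtain ⟨n₁, hn₁⟩ := Pool.Agent.Y458.NS.rr_small
      (show 0 < min (min δ a) (min (T - b) 1) by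
        have : 0 < T - b := by linarith
        positivity) (by norm_num : (0 : ℝ) ≤ 1)
    refine ⟨max (max n₀ 5) n₁, (le_max_left _ _).trans (le_max_left _ _),
      (le_max_right _ _).trans (le_max_left _ _), ?_⟩
    have h1 := hn₁ (max (max n₀ 5) n₁) (le_max_right _ _)
    rw [one_mul] at h1
    have hr := rr_pos' (max (max n₀ 5) n₁)
    have h2 := h1.trans ((min_le_left _ _).trans (min_le_left _ _))
    have h3 := h1.trans ((min_le_left _ _).trans (min_le_right _ _))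
    have h4 := h1.trans ((min_le_right _ _).trans (min_le_left _ _))
    have h5 := h1.trans ((min_le_right _ _).trans (min_le_right _ _))
    refine ⟨h2, ?_, ?_⟩ <;> nlinarith
  obtain ⟨B, hB, hser⟩ := hser j hj1
  -- the last generation
  obtain ⟨J, hJ1, hJ2⟩ : ∃ J, j ≤ J ∧
      C' * (C * D) / ε + α j * (B * (1 + D)) + 1 ≤ ∑ n ∈ Finset.Ioc j J, α n := by
    rw [not_summable_iff_tendsto_nat_atTop_of_nonneg (fun n => (div_pos (rr_pos' n) (hh n)).le)]
      at hdiv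
    have h1 := (tendsto_atTop.1 hdiv) (C' * (C * D) / ε + α j * (B * (1 + D)) + 1
      + ∑ n ∈ Finset.range (j + 1), α n)
    obtain ⟨N, hN⟩ := (h1.and (eventually_ge_atTop (j + 1))).exists
    refine ⟨N - 1, by omega, ?_⟩
    obtain ⟨k, rfl⟩ : ∃ k, N = k + 1 := ⟨N - 1, by omega⟩
    have h2 := hN.1
    have h3 := Finset.sum_range_add_sum_Ico α (show j + 1 ≤ k + 1 by omega)
    have h4 : Finset.Ioc j (k + 1 - 1) = Finset.Ico (j + 1) (k + 1) := by
      ext n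
      simp only [Finset.mem_Ioc, Finset.mem_Ico]
      omega
    rw [h4]
    have h5 : ∑ i ∈ Finset.range (k + 1), rr i / h i = ∑ i ∈ Finset.range (k + 1), α i := by
      rw [hα]
    rw [h5] at h2
    linarith
  -- the representatives
  obtain ⟨R, hR1, hR2⟩ := reps J a b
    {z | z.1 ∈ Icc a b ∧ (∀ i, 0 ≤ z.2 i ∧ z.2 i ≤ 1) ∧ SingPt G u z.1 z.2}
    (fun z hz => ⟨hz.1, hz.2.1⟩)
  obtain ⟨μ, N, hμ0, hN, hgr, hval⟩ := dual R px px_nest h hh j J hJ1
  obtain ⟨m, hm⟩ : ∃ m, m = ∑ z ∈ R, μ z := ⟨_, rfl⟩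
  have hm0 : 0 ≤ m := by
    rw [hm]
    exact Finset.sum_nonneg fun z _ => hμ0 z
  have hTh : ∀ z ∈ R, ∑ n ∈ Finset.Ioc j J, α n ≤ C' * (∑ n ∈ Finset.Ico j (J + 1),
      α n * Th G u n z) + α j * (B * (1 + D)) := by
    intro z hz
    obtain ⟨h1, h2, h3⟩ := hR1 z hz
    have h4 := hser T D G u p hT z (by linarith [h1.1, hj4.1]) (by linarith [h1.2, hj4.2]) h3 α
      (fun n => (hα0 n).le) (fun n _ => hanti (Nat.le_succ n)) J hJ1
    refine h4.trans ?_
    have h5 : ∑ n ∈ Finset.Ioc j J, α n * Th G u n z ≤ ∑ n ∈ Finset.Ico j (J + 1),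
        α n * Th G u n z := by
      refine Finset.sum_le_sum_of_subset_of_nonneg ?_ fun n _ _ =>
        mul_nonneg (hα0 n).le (Th_nn G u n z)
      intro n hn
      simp only [Finset.mem_Ioc, Finset.mem_Ico] at hn ⊢
      omega
    gcongr
  have hT7 := hsum T E D G u p hT R μ h j J hj2 hJ1 hμ0 hh hgr (fun m n _ h2 => by
    have := hanti h2
    rw [hα] at this
    exact this) (fun z hz => (hR1 z hz).2.1)
  have hfin : m * (C' * (C * D) / ε + 1) ≤ C' * (C * D) := by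
    have h1 : m * ∑ n ∈ Finset.Ioc j J, α n ≤ C' * (C * D) + m * (α j * (B * (1 + D))) := by
      rw [hm, Finset.sum_mul, Finset.sum_mul]
      calc ∑ z ∈ R, μ z * ∑ n ∈ Finset.Ioc j J, α n
          ≤ ∑ z ∈ R, (C' * (μ z * ∑ n ∈ Finset.Ico j (J + 1), α n * Th G u n z)
            + μ z * (α j * (B * (1 + D)))) := by
            refine Finset.sum_le_sum fun z hz => ?_
            have h2 := mul_le_mul_of_nonneg_left (hTh z hz) (hμ0 z)
            refine h2.trans (le_of_eq ?_)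
            ring
        _ = C' * (∑ z ∈ R, μ z * ∑ n ∈ Finset.Ico j (J + 1), α n * Th G u n z)
            + ∑ z ∈ R, μ z * (α j * (B * (1 + D))) := by
            rw [Finset.sum_add_distrib, Finset.mul_sum]
        _ ≤ _ := by
            gcongr
            rw [hα]
            exact hT7
    have h2 := mul_le_mul_of_nonneg_left hJ2 hm0
    linarith
  have hmε : m ≤ ε := by
    by_contra hcon
    rw [not_le] at hcon
    have h1 : ε * (C' * (C * D) / ε + 1) = C' * (C * D) + ε := by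
      field_simp
    have h2 : 0 ≤ C' * (C * D) / ε + 1 := by positivity
    have h3 := mul_le_mul_of_nonneg_right hcon.le h2
    linarith
  -- the covering
  obtain ⟨f, hf⟩ : ∃ f : ℝ × V → ℕ × (ℤ × (Fin 3 → ℤ)), f = fun z => (N z, px (N z) z) := ⟨_, rfl⟩
  have hch : ∀ q : ℕ × (ℤ × (Fin 3 → ℤ)), ∃ z : ℝ × V, q ∈ R.image f → z ∈ R ∧ f z = q := by
    intro q
    by_cases hq : q ∈ R.image f
    · obtain ⟨z, hz, hzq⟩ := Finset.mem_image.1 hq
      exact ⟨z, fun _ => ⟨hz, hzq⟩⟩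
    · exact ⟨0, fun h => absurd h hq⟩
  choose g hg using hch
  refine ⟨(R.image f).image fun q => (g q, q.1), ?_, ?_, ?_⟩
  · intro q hq
    obtain ⟨q', hq', rfl⟩ := Finset.mem_image.1 hq
    obtain ⟨z, hz, rfl⟩ := Finset.mem_image.1 hq'
    show rr (f z).1 ≤ δ
    refine le_trans ?_ hj3
    rw [hf]
    exact pow_le_pow_of_le_one (by norm_num) (by norm_num) (hN z hz).1
  · rw [Finset.sum_image]
    · rw [← hf] at hval
      show ∑ q ∈ R.image f, h q.1 ≤ ε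
      rw [hval, ← hm]
      exact hmε
    · intro q hq q' hq' hqq
      simp only [Prod.mk.injEq] at hqq
      have h1 := (hg q hq).2
      have h2 := (hg q' hq').2
      rw [← h1, ← h2, hqq.1]
  · intro w hw1 hw2 hw3
    obtain ⟨z, hz, hzw⟩ := hR2 w ⟨hw1, hw2, hw3⟩
    have hfz : f z ∈ R.image f := Finset.mem_image_of_mem f hz
    refine ⟨(g (f z), (f z).1), Finset.mem_image_of_mem (fun q => (g q, q.1)) hfz, ?_⟩
    obtain ⟨h1, h2⟩ := hg (f z) hfz
    have h3 : px (N z) w = px (N z) z := nest px_nest (hN z hz).2 hzw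
    have h4 : N (g (f z)) = N z ∧ px (N (g (f z))) (g (f z)) = px (N z) z := by
      rw [hf] at h2 ⊢
      exact Prod.mk.inj h2
    have h5 : px (N z) w = px (N z) (g (f z)) := by
      rw [h3, ← h4.2, h4.1]
    have h6 := px_near h5
    have h7 : (f z).1 = N z := by rw [hf]
    rw [h7]
    exact h6

end Pool.Agent.V1182
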