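import Pool.Agent.V1182.Rec
import Pool.Agent.Y8.WSmall
import Pool.Agent.Y458.NS.AL2
import Pool.Agent.Y7.WLoc

/-!
The criterion of regularity in terms of the local mean velocity and the functional of the gradient
(helper82).
-/

set_option autoImplicit false

open MeasureTheory Set Metric Filter Topology
open scoped ContDiff ENNReal NNReal

namespace Pool.Agent.V1182

open H459R3.NS W221.NS Pool.Agent.Y8 Pool.Agent.Y153.NS Pool.Agent.Y458.NS

section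

variable {T E D : ℝ} {G : Set ℝ} {u : ℝ → V → V} {p : ℝ → V → ℝ} {C : ℝ} {κ : ℕ → ℝ}

lemma Th_le_ta (G : Set ℝ) (u : ℝ → V → V) {n : ℕ} (hn : 1 ≤ n) (z : ℝ × V) :
    Th G u n z ≤ ta G u n z := by
  unfold ta
  have h1 := Finset.single_le_sum (f := fun k => ((2 : ℝ) ^ k)⁻¹ * Th G u (n - k) z)
    (s := Finset.range n) (fun k _ => mul_nonneg (by positivity) (Th_nn G u _ z))
    (Finset.mem_range.2 (by omega : 0 < n))
  beta_reduce at h1
  simpa using h1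

lemma Pf_le_sg0 {n : ℕ} (hn : 1 ≤ n) (w : V → V) (x : V) : Pf (rr n) w x ≤ sg n w x := by
  unfold sg
  have h1 := Finset.single_le_sum (f := fun k => ((2 : ℝ) ^ k)⁻¹ * Pf (2 ^ k * rr n) w x)
    (s := Finset.range n) (fun k _ => mul_nonneg (by positivity)
      (Pf_nn (by have := Pool.Agent.Y153.NS.rr_pos n; positivity) w x))
    (Finset.mem_range.2 (by omega : 0 < n))
  beta_reduce at h1
  simpa using h1

/-- The paths of the mollified velocity stay close to the point. -/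
lemma stay (hD : Dat C κ) (h : Turb 1 T E D G u p) {n : ℕ} (hn : 2 ≤ n) {z : ℝ × V}
    (hz0 : 0 ≤ z.1 - rr n ^ 2) (hzT : z.1 + rr n ^ 2 ≤ T) {c₀ ε₀ : ℝ} (hc₀ : 0 ≤ c₀)
    (hff : ∀ t ∈ II n z.1 ∩ G, ff κ n (u t) z.2 ≤ c₀) (hta : ta G u n z ≤ ε₀)
    (hE : (1 + E ^ 2) * rr n ≤ ε₀) (hsm : c₀ + 2 * C * ε₀ + 6 * C * √ε₀ < 1 / 8) {ρ : ℝ}
    (h1 : rr n / 16 ≤ ρ) (h2 : ρ ≤ rr n) {X Y : ℝ → V} {B C' : ℝ}
    (hX : FPath T ρ B C' G u p X Y) (hX0 : X z.1 = z.2) :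
    ∀ t ∈ II n z.1, ‖X t - z.2‖ ≤ rr n / 8 := by
  intro t ht
  by_contra hfar
  rw [not_le] at hfar
  have hr := Pool.Agent.Y153.NS.rr_pos n
  have hC := hD.one
  have hIT : II n z.1 ⊆ Ioo 0 T := by
    unfold II
    intro τ hτ
    exact ⟨hz0.trans_lt hτ.1, hzT.trans_lt' hτ.2⟩
  have hIae := sub_ae h hIT
  have hz1 : z.1 ∈ II n z.1 := by
    unfold II
    constructor <;> nlinarith
  have hsubc : uIcc z.1 t ⊆ II n z.1 := by
    unfold II at hz1 ht ⊢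
    intro τ hτ
    rw [mem_uIcc] at hτ
    rcases hτ with h3 | h3
    · exact ⟨hz1.1.trans_le h3.1, h3.2.trans_lt ht.2⟩
    · exact ⟨ht.1.trans_le h3.1, h3.2.trans_lt hz1.2⟩
  have hsubo : uIoc z.1 t ⊆ II n z.1 := uIoc_subset_uIcc.trans hsubc
  have hε₀ : 0 ≤ ε₀ := (ta_nn G u n z).trans hta
  have hft := first_time (X := X) (Y := Y) (N := fun τ => √(sg n (u τ) z.2)) (G := G)
    (t₀ := z.1) (t := t) (r := rr n / 8) (L := rr n ^ 2)
    (a := (rr n)⁻¹ * (c₀ + 2 * C * ε₀)) (b := 3 * C * rr n)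
    (by positivity) (by positivity) (by positivity) (fun τ hτ => hX.hd τ (hIT (hsubc hτ)))
    (intervalIntegrable_iff.2 ((FPath_Y_int h hX).mono_set (hsubo.trans hIT)))
    (by
      unfold II at ht
      rw [abs_le]
      constructor <;> linarith [ht.1, ht.2])
    (by rw [hX0]; exact hfar)
    (by
      rw [ae_restrict_iff' measurableSet_uIoc]
      exact sub_ae h (hsubo.trans hIT))
    (((sq_int h n z.2).mono_set_ae (sub_ae h (hsubo.trans hIT))))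
    (fun τ => Real.sqrt_nonneg _) (by
      intro τ hτ hτI hle
      rw [hX0] at hle
      have hw := h.spv hτ
      have hd := h.divfree τ hτ
      have g1 := hff τ ⟨hsubo hτI, hτ⟩
      have g2 := mo_le hD hn hw hd z.2
      have g3 := hD.nr (u τ) hw.1 (rr n) ρ hr h1 z.2 (X τ) (by linarith)
      have g4 : √(Pf (rr n) (u τ) z.2) ≤ √(sg n (u τ) z.2) :=
        Real.sqrt_le_sqrt (Pf_le_sg0 (by omega) _ _)
      have g5 := h.energy_le τ hτ
      rw [hX.ev τ hτ]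
      have g6 : ‖mo ρ (u τ) (X τ)‖ ≤ ‖mo (rr n) (u τ) z.2‖
          + ‖mo ρ (u τ) (X τ) - mo (rr n) (u τ) z.2‖ := by
        have : mo ρ (u τ) (X τ) = mo (rr n) (u τ) z.2
          + (mo ρ (u τ) (X τ) - mo (rr n) (u τ) z.2) := by abel
        calc ‖mo ρ (u τ) (X τ)‖ = ‖mo (rr n) (u τ) z.2
              + (mo ρ (u τ) (X τ) - mo (rr n) (u τ) z.2)‖ := by rw [← this]
          _ ≤ _ := norm_add_le _ _
      obtain ⟨S, hS⟩ : ∃ S, S = √(sg n (u τ) z.2) := ⟨_, rfl⟩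
      rw [← hS] at g2 g4 ⊢
      have g7 : rr n * ‖mo (rr n) (u τ) z.2‖ ≤ c₀ + 2 * C * (rr n ^ 2 * S + ε₀) := by
        refine g2.trans ?_
        have : rr n * (1 + energy (u τ)) ≤ ε₀ := by
          have h3 : rr n * (1 + energy (u τ)) ≤ rr n * (1 + E ^ 2) := by gcongr
          linarith
        gcongr
      have g8 : ‖mo (rr n) (u τ) z.2‖ ≤ (rr n)⁻¹ * (c₀ + 2 * C * (rr n ^ 2 * S + ε₀)) := by
        rw [← div_eq_inv_mul, le_div_iff₀ hr]
        linarith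
      have g9 : C * (rr n * √(Pf (rr n) (u τ) z.2)) ≤ C * (rr n * S) := by gcongr
      calc ‖mo ρ (u τ) (X τ)‖ ≤ (rr n)⁻¹ * (c₀ + 2 * C * (rr n ^ 2 * S + ε₀)) + C * (rr n * S) :=
            g6.trans (add_le_add g8 (g3.trans g9))
        _ = (rr n)⁻¹ * (c₀ + 2 * C * ε₀) + 3 * C * rr n * S := by
            field_simp
            ring)
  have hN : ∫ τ in uIoc z.1 t, √(sg n (u τ) z.2) ≤ 2 * √ε₀ := by
    have h3 : ∫ τ in uIoc z.1 t, √(sg n (u τ) z.2) ≤ ∫ τ in II n z.1 ∩ G, √(sg n (u τ) z.2) := by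
      refine setIntegral_mono_set ((sq_int h n z.2).mono_set inter_subset_right)
        (Eventually.of_forall fun τ => Real.sqrt_nonneg _) ?_
      filter_upwards [hIae] with τ hτ hab'
      exact ⟨hsubo hab', hτ (hsubo hab')⟩
    refine h3.trans ((sqI_le h n z).trans ?_)
    have := Real.sqrt_le_sqrt hta
    linarith
  have h3 : rr n / 8 ≤ (rr n)⁻¹ * (c₀ + 2 * C * ε₀) * rr n ^ 2 + 3 * C * rr n * (2 * √ε₀) := by
    refine hft.trans ?_
    gcongr
  have h4 : (rr n)⁻¹ * (c₀ + 2 * C * ε₀) * rr n ^ 2 + 3 * C * rr n * (2 * √ε₀)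
      = rr n * (c₀ + 2 * C * ε₀ + 6 * C * √ε₀) := by
    field_simp
    ring
  rw [h4] at h3
  nlinarith

end

/-- The criterion. -/
theorem crit {C : ℝ} {κ : ℕ → ℝ} (hD : Dat C κ) : ∃ c₀ ε₀ : ℝ, 0 < c₀ ∧ 0 < ε₀ ∧
    ∀ (T E D : ℝ) (G : Set ℝ) (u : ℝ → V → V) (p : ℝ → V → ℝ), Turb 1 T E D G u p →
    ∀ n, 2 ≤ n → ∀ z : ℝ × V, 0 ≤ z.1 - rr n ^ 2 → z.1 + rr n ^ 2 ≤ T →
    (1 + E ^ 2) * rr n ≤ ε₀ → ta G u n z ≤ ε₀ →
    (∀ t ∈ II n z.1 ∩ G, ff κ n (u t) z.2 ≤ c₀) → ¬ SingPt G u z.1 z.2 := by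
  obtain ⟨ε, hε, hcrit⟩ := Pool.Agent.Y8.B.p_crit3
  obtain ⟨Ce, hCe, hen⟩ := t_WEN4
  obtain ⟨Ko, hKo, hosc⟩ := osc1
  obtain ⟨Kp, hKp, hpath⟩ := path_ex Pool.Agent.Y8.B.p_tcut Pool.Agent.Y8.B.p_acx
  have hC := hD.one
  obtain ⟨ε₀, hε₀, hb1, hb2, hb3⟩ : ∃ ε₀ : ℝ, 0 < ε₀ ∧
      1 / 32 + 2 * C * ε₀ + 6 * C * √ε₀ < 1 / 8 ∧ Ce * (Ko * ε₀) ≤ 1 ∧
      16 * (Ce * (Ko * ε₀)) < ε := by
    refine ⟨min ((1 / (1000 * C)) ^ 2) (min (1 / (Ce * Ko)) (ε / (32 * (Ce * Ko)))),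
      by positivity, ?_, ?_, ?_⟩
    · obtain ⟨e, he⟩ : ∃ e, e = min ((1 / (1000 * C)) ^ 2)
        (min (1 / (Ce * Ko)) (ε / (32 * (Ce * Ko)))) := ⟨_, rfl⟩
      rw [← he]
      have h1 : e ≤ (1 / (1000 * C)) ^ 2 := by rw [he]; exact min_le_left _ _
      have h2 : √e ≤ 1 / (1000 * C) := by
        refine (Real.sqrt_le_sqrt h1).trans (le_of_eq ?_)
        exact Real.sqrt_sq (by positivity)
      have h3 : C * √e ≤ 1 / 1000 := by
        calc C * √e ≤ C * (1 / (1000 * C)) := by gcongr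
          _ = 1 / 1000 := by field_simp
      have h4 : C * e ≤ 1 / 1000 := by
        have h5 : (1 / (1000 * C)) ^ 2 ≤ 1 / (1000 * C) := by
          rw [pow_two]
          apply mul_le_of_le_one_left (by positivity)
          rw [div_le_one (by positivity)]
          linarith
        calc C * e ≤ C * (1 / (1000 * C)) := by
              gcongr
              exact h1.trans h5
          _ = 1 / 1000 := by field_simp
      linarith
    · calc Ce * (Ko * min ((1 / (1000 * C)) ^ 2) (min (1 / (Ce * Ko)) (ε / (32 * (Ce * Ko)))))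
          ≤ Ce * (Ko * (1 / (Ce * Ko))) := by
            gcongr
            exact (min_le_right _ _).trans (min_le_left _ _)
        _ = 1 := by field_simp
    · calc 16 * (Ce * (Ko * min ((1 / (1000 * C)) ^ 2)
            (min (1 / (Ce * Ko)) (ε / (32 * (Ce * Ko))))))
          ≤ 16 * (Ce * (Ko * (ε / (32 * (Ce * Ko))))) := by
            gcongr
            exact (min_le_right _ _).trans (min_le_right _ _)
        _ = ε / 2 := by
            field_simp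
            norm_num
        _ < ε := by linarith
  refine ⟨1 / 32, ε₀, by norm_num, hε₀, ?_⟩
  intro T E D G u p h n hn z hz0 hzT hE hta hff hsing
  obtain ⟨r, hrd⟩ : ∃ r, r = rr n := ⟨_, rfl⟩
  have hr : 0 < r := by rw [hrd]; exact Pool.Agent.Y153.NS.rr_pos n
  have hr1 : r ≤ 1 := by rw [hrd]; exact rr_le n
  obtain ⟨r', hr'd⟩ : ∃ r', r' = r / 16 := ⟨_, rfl⟩
  have hr' : 0 < r' := by rw [hr'd]; positivity
  have hr'1 : r' ≤ 1 := by rw [hr'd]; linarith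
  have hr2 : 0 < r ^ 2 := by positivity
  have hr'2 : r' ^ 2 = r ^ 2 / 256 := by
    rw [hr'd]
    ring
  have hr'p : 0 < r' ^ 2 := by positivity
  have hz1 : z.1 ∈ Ioo 0 T := by
    rw [← hrd] at hz0 hzT
    constructor <;> linarith
  obtain ⟨s, hs⟩ : ∃ s, s = z.1 + r' ^ 2 / 32 := ⟨_, rfl⟩
  have hrs : r ^ 2 < s := by rw [hs]; rw [← hrd] at hz0; linarith
  have hr's : r' ^ 2 < s := by linarith
  have hsT : s < T := by rw [hs]; rw [← hrd] at hzT; linarith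
  obtain ⟨CY, hCY, hpY⟩ := hpath E r hr hr1
  obtain ⟨Y, Yd, hYs, hY⟩ := hpY T D G u p h z.1 hz1 z.2
  obtain ⟨CX, hCX, hpX⟩ := hpath E r' hr' hr'1
  obtain ⟨X, Xd, hXs, hX⟩ := hpX T D G u p h z.1 hz1 z.2
  have sY := stay hD h hn hz0 hzT (by norm_num) hff hta hE hb1 (ρ := r) (by rw [← hrd]; linarith)
    hrd.le hY hYs
  have sX := stay hD h hn hz0 hzT (by norm_num) hff hta hE hb1 (ρ := r') (by rw [← hrd, hr'd])
    (by rw [← hrd]; linarith) hX hXs
  have hII : Ioo (s - r ^ 2) s ⊆ II n z.1 := by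
    unfold II
    rw [← hrd]
    apply Ioo_subset_Ioo
    · rw [hs]; linarith
    · rw [hs]; linarith
  rw [← hrd] at sX sY
  have hIT : Ioo (s - r ^ 2) s ⊆ Ioo 0 T := Ioo_subset_Ioo (by linarith) hsT.le
  have hIae := sub_ae h hIT
  -- the oscillation in the frame at the scale r
  obtain ⟨k', hL⟩ := Pool.Agent.Y8.B.p_wfr2 T E D G u p h r s hr hrs hsT Y Yd _ _ hY
  have hτ : ∀ t ∈ Ioo (-1 : ℝ) 0, s + r ^ 2 * t ∈ Ioo (s - r ^ 2) s := fun t ht =>
    ⟨by nlinarith [ht.1], by nlinarith [ht.2]⟩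
  obtain ⟨H, hH⟩ : ∃ H : Set ℝ, H = {t | t ∈ Ioo (-1 : ℝ) 0 ∧ s + r ^ 2 * t ∈ G} := ⟨_, rfl⟩
  rw [← hH] at hL
  have hmH : ∀ t ∈ H, t ∈ Ioo (-1 : ℝ) 0 ∧ s + r ^ 2 * t ∈ G := fun t ht => by rwa [hH] at ht
  have hae : ∀ᵐ t ∂(volume.restrict (Ioo (-1 : ℝ) 0)), t ∈ H := by
    rw [ae_restrict_iff' measurableSet_Ioo]
    have h1 : ∀ᵐ t : ℝ, t ∉ Ioo (-1 : ℝ) 0 \ H := measure_eq_zero_iff_ae_notMem.1 hL.fullH
    filter_upwards [h1] with t ht htJ
    by_contra hc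
    exact ht ⟨htJ, hc⟩
  have hpt : ∀ t ∈ H, √(L4 0 4 (frv r s Y u t)) ≤ Ko * (r ^ 4 * Pf r (u (s + r ^ 2 * t)) z.2) := by
    intro t ht
    obtain ⟨ht1, ht2⟩ := hmH t ht
    rw [Pool.Agent.Y8.WS.frvH h.subG hY ht2]
    refine hosc _ (h.spv ht2).1 r hr _ _ ?_
    have := sY _ (hII (hτ t ht1))
    linarith
  have tc := Pool.Agent.Y7.tcov (F := fun τ => Ko * (r ^ 4 * Pf r (u τ) z.2)) (s := s)
    (c := r ^ 2) (p := -1) (q := 0) hr2
  have e1 : s + r ^ 2 * (-1) = s - r ^ 2 := by ring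
  have e2 : s + r ^ 2 * 0 = s := by ring
  rw [e1, e2] at tc
  have hPi : IntegrableOn (fun τ => Pf r (u τ) z.2) (Ioo (s - r ^ 2) s) :=
    (Pf_int h hr z.2).mono_set_ae hIae
  have hdom : IntegrableOn (fun t => Ko * (r ^ 4 * Pf r (u (s + r ^ 2 * t)) z.2)) (Ioo (-1) 0) :=
    tc.1.2 ((hPi.const_mul _).const_mul _)
  have hint : IntegrableOn (fun t => √(L4 0 4 (frv r s Y u t))) (Ioo (-1) 0) := by
    refine Integrable.mono' hdom ?_ ?_
    · have h1 : AEStronglyMeasurable (fun t => √(L4 0 4 (frv r s Y u t))) (volume.restrict H) :=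
        (Pool.Agent.Y8.WS.contL hL.openH hL.smooth_v).aestronglyMeasurable hL.openH.measurableSet
      apply h1.mono_measure
      apply Measure.restrict_mono' _ le_rfl
      rw [ae_restrict_iff' measurableSet_Ioo] at hae
      exact hae
    · filter_upwards [hae] with t ht
      rw [Real.norm_eq_abs, abs_of_nonneg (Real.sqrt_nonneg _)]
      exact hpt t ht
  have hTh : r ^ 2 * ∫ τ in Ioo (s - r ^ 2) s, Pf r (u τ) z.2 ≤ ε₀ := by
    have h1 : ∫ τ in Ioo (s - r ^ 2) s, Pf r (u τ) z.2 ≤ ∫ τ in II n z.1 ∩ G, Pf r (u τ) z.2 := by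
      refine setIntegral_mono_set ((Pf_int h hr z.2).mono_set inter_subset_right)
        (Eventually.of_forall fun τ => Pf_nn hr.le _ _) ?_
      filter_upwards [hIae] with τ hτ hab'
      exact ⟨hII hab', hτ hab'⟩
    have h2 := (Th_le_ta G u (by omega : 1 ≤ n) z).trans hta
    unfold Th at h2
    rw [← hrd] at h2
    exact (mul_le_mul_of_nonneg_left h1 hr2.le).trans h2
  have hle : ∫ t in Ioo (-1 : ℝ) 0, √(L4 0 4 (frv r s Y u t)) ≤ Ko * ε₀ := by
    have h1 : ∫ t in Ioo (-1 : ℝ) 0, √(L4 0 4 (frv r s Y u t))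
        ≤ ∫ t in Ioo (-1 : ℝ) 0, Ko * (r ^ 4 * Pf r (u (s + r ^ 2 * t)) z.2) := by
      refine integral_mono_ae hint hdom ?_
      filter_upwards [hae] with t ht
      exact hpt t ht
    rw [tc.2, integral_const_mul, integral_const_mul] at h1
    refine h1.trans ?_
    calc (r ^ 2)⁻¹ * (Ko * (r ^ 4 * ∫ τ in Ioo (s - r ^ 2) s, Pf r (u τ) z.2))
        = Ko * (r ^ 2 * ∫ τ in Ioo (s - r ^ 2) s, Pf r (u τ) z.2) := by
          field_simp
      _ ≤ Ko * ε₀ := by gcongr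
  obtain ⟨-, hE'⟩ := hen _ _ _ _ hL (Ko * ε₀) (by positivity) hb2 hint hle
  have hM := Pool.Agent.Y8.WS.frame_mass (R := 3 / 4) (a := -9 / 16) h hr hrs hsT hY
    (by norm_num) (by norm_num)
  rw [hM.2, inv_mul_le_iff₀ hr] at hE'
  have e3 : s + r ^ 2 * (-9 / 16) = s - 9 / 16 * r ^ 2 := by ring
  rw [e3] at hE'
  -- the dissipation along the path at the smaller scale
  have hcr := hcrit T E D G u p h r' s hr' hr'1 hr's hsT X Xd _ _ hX z.1 (by
    rw [hs]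
    constructor <;> linarith) z.2 (by
      rw [hXs]
      exact mem_ball_self (by positivity)) hsing
  have hsub : Ioo (s - r' ^ 2) s ⊆ Ioo (s - 9 / 16 * r ^ 2) s :=
    Ioo_subset_Ioo_left (by rw [hr'2]; linarith)
  have hsub2 : Ioo (s - 9 / 16 * r ^ 2) s ⊆ Ioo (s - r ^ 2) s :=
    Ioo_subset_Ioo_left (by linarith)
  have hB0 : ∀ τ, 0 ≤ B2 (Y τ) (r * (3 / 4)) (u τ) := fun τ => integral_nonneg fun x =>
    Finset.sum_nonneg fun i _ => Finset.sum_nonneg fun j _ => sq_nonneg _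
  have hYc : ContinuousOn Y G := hY.sm.continuousOn
  have hXc : ContinuousOn X G := hX.sm.continuousOn
  have i1 : IntegrableOn (fun τ => B2 (Y τ) (r * (3 / 4)) (u τ)) (Ioo (s - 9 / 16 * r ^ 2) s) :=
    (B2_mov_int h hYc _).mono_set_ae (sub_ae h (hsub2.trans hIT))
  have i2 : IntegrableOn (fun τ => B2 (X τ) (8 * r') (u τ)) (Ioo (s - r' ^ 2) s) :=
    (B2_mov_int h hXc _).mono_set_ae (sub_ae h ((hsub.trans hsub2).trans hIT))
  have hfin : ∫ t in Ioo (s - r' ^ 2) s, B2 (X t) (8 * r') (u t) ≤ r * (Ce * (Ko * ε₀)) := by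
    calc ∫ t in Ioo (s - r' ^ 2) s, B2 (X t) (8 * r') (u t)
        ≤ ∫ t in Ioo (s - r' ^ 2) s, B2 (Y t) (r * (3 / 4)) (u t) := by
          refine integral_mono_ae i2 (i1.mono_set hsub) ?_
          filter_upwards [aeT h (by linarith) hsT.le, ae_restrict_mem measurableSet_Ioo]
            with τ h1 h2
          apply Pool.Agent.TH305.LW.B2_mono (h.spv h1).1
          apply ball_subset_ball'
          rw [dist_eq_norm]
          have hm := hII ((hsub.trans hsub2) h2)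
          have a1 := sX τ hm
          have a2 := sY τ hm
          have a3 : ‖X τ - Y τ‖ ≤ ‖X τ - z.2‖ + ‖Y τ - z.2‖ := by
            have e : X τ - Y τ = (X τ - z.2) - (Y τ - z.2) := by abel
            rw [e]
            exact norm_sub_le _ _
          rw [hr'd]
          linarith
      _ ≤ ∫ t in Ioo (s - 9 / 16 * r ^ 2) s, B2 (Y t) (r * (3 / 4)) (u t) :=
          setIntegral_mono_set i1 (Eventually.of_forall fun τ => hB0 τ) hsub.eventuallyLE
      _ ≤ _ := hE'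
  have h5 : r * (Ce * (Ko * ε₀)) = r' * (16 * (Ce * (Ko * ε₀))) := by
    rw [hr'd]
    ring
  have h6 : r' * (16 * (Ce * (Ko * ε₀))) < r' * ε := by gcongr
  linarith

end Pool.Agent.V1182
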