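import Pool.Agent.Y8.Stm

/-!
Sets of points of space-time of measure zero for a gauge (helper82).
`V = Fin 3 → ℝ` carries the maximum norm.
-/

set_option autoImplicit false

namespace Pool.Agent.V1182

open H459R3.NS

/-- The set `S` of points of space-time has measure zero for the gauge `h` in the parabolic
metric: for all positive `ε` and `δ` it has a countable covering by parabolic cylinders
`|t - tᵢ| < rᵢ²`, `‖x - xᵢ‖ < rᵢ` with `0 < rᵢ ≤ δ` and `∑ᵢ h rᵢ ≤ ε`. -/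
def GNull (h : ℝ → ℝ) (S : Set (ℝ × V)) : Prop := ∀ ε δ : ℝ, 0 < ε → 0 < δ →
  ∃ (ι : Type) (_ : Countable ι) (c : ι → ℝ × V) (r : ι → ℝ), (∀ i, 0 < r i ∧ r i ≤ δ) ∧
    ∑' i, ENNReal.ofReal (h (r i)) ≤ ENNReal.ofReal ε ∧
    ∀ z ∈ S, ∃ i, |z.1 - (c i).1| < r i ^ 2 ∧ ‖z.2 - (c i).2‖ < r i

end Pool.Agent.V1182
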