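import Mathlib

/-!
A finite duality between coverings by nested cells and measures with a growth condition
(helper82).
-/

set_option autoImplicit false

open Set

namespace Pool.Agent.V1182

section

variable {X ι : Type*} [DecidableEq ι]

omit [DecidableEq ι] in
lemma nest {ix : ℕ → X → ι} (hn : ∀ n z w, ix (n + 1) z = ix (n + 1) w → ix n z = ix n w)
    {z w : X} {m n : ℕ} (h : m ≤ n) : ix n z = ix n w → ix m z = ix m w := by
  induction n, h using Nat.le_induction with
  | base => exact id
  | succ n _ ih => exact fun h => ih (hn n z w h)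

/-- The measure of the cell with index `q` at the level `n`. -/
noncomputable def cm (E : Finset X) (ix : ℕ → X → ι) (μ : X → ℝ) (n : ℕ) (q : ι) : ℝ :=
  ∑ z ∈ E.filter (fun z => ix n z = q), μ z

/-- The duality. -/
theorem dual (E : Finset X) (ix : ℕ → X → ι)
    (hn : ∀ n z w, ix (n + 1) z = ix (n + 1) w → ix n z = ix n w) (h : ℕ → ℝ)
    (hh : ∀ n, 0 < h n) (j J : ℕ) (hjJ : j ≤ J) :
    ∃ (μ : X → ℝ) (N : X → ℕ), (∀ z, 0 ≤ μ z) ∧ (∀ z ∈ E, j ≤ N z ∧ N z ≤ J) ∧
      (∀ n, j ≤ n → n ≤ J → ∀ q, cm E ix μ n q ≤ h n) ∧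
      ∑ q ∈ E.image (fun z => (N z, ix (N z) z)), h q.1 = ∑ z ∈ E, μ z := by
  classical
  -- the compact set of measures
  let c : (E → ℝ) → ℕ → ι → ℝ := fun μ n q => ∑ z : E, if ix n z = q then μ z else 0
  let K : Set (E → ℝ) := {μ | (∀ z, 0 ≤ μ z) ∧ ∀ n, j ≤ n → n ≤ J → ∀ q, c μ n q ≤ h n}
  have hcc : ∀ n q, Continuous fun μ => c μ n q := fun n q =>
    continuous_finsetSum _ fun z _ => by
      by_cases hz : ix n z = q
      · simp only [hz, if_true]
        exact continuous_apply z
      · simp only [hz, if_false]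
        exact continuous_const
  have hKc : IsClosed K := by
    have e : K = (⋂ z : E, {μ | 0 ≤ μ z}) ∩
        ⋂ n : ℕ, ⋂ (_ : j ≤ n), ⋂ (_ : n ≤ J), ⋂ q : ι, {μ | c μ n q ≤ h n} := by
      ext μ
      simp only [K, mem_ofPred_eq, mem_inter_iff, mem_iInter]
    rw [e]
    refine IsClosed.inter (isClosed_iInter fun z => isClosed_le continuous_const
      (continuous_apply z)) ?_
    exact isClosed_iInter fun n => isClosed_iInter fun _ => isClosed_iInter fun _ =>
      isClosed_iInter fun q => isClosed_le (hcc n q) continuous_const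
  have hKs : K ⊆ Icc (0 : E → ℝ) (fun _ => h J) := by
    intro μ hμ
    refine ⟨fun z => hμ.1 z, fun z => ?_⟩
    have h1 := hμ.2 J hjJ le_rfl (ix J z)
    refine le_trans ?_ h1
    have h2 := Finset.single_le_sum (f := fun w : E => if ix J w = ix J z then μ w else 0)
      (s := Finset.univ) (fun w _ => by
        show 0 ≤ if ix J w = ix J z then μ w else 0
        split_ifs
        · exact hμ.1 w
        · exact le_rfl) (Finset.mem_univ z)
    have h3 : (if ix J (z : X) = ix J z then μ z else 0) ≤ c μ J (ix J z) := h2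
    rwa [if_pos rfl] at h3
  have hKcomp : IsCompact K := isCompact_Icc.of_isClosed_subset hKc hKs
  have hKne : K.Nonempty := ⟨0, fun z => le_rfl, fun n _ _ q => by
    have : c 0 n q = 0 := by
      simp only [c, Pi.zero_apply, ite_self, Finset.sum_const_zero]
    rw [this]
    exact (hh n).le⟩
  obtain ⟨μ, hμK, hmax⟩ := hKcomp.exists_isMaxOn hKne
    (f := fun μ : E → ℝ => ∑ z, μ z)
    (continuous_finsetSum _ fun z _ => continuous_apply z).continuousOn
  -- every point is in a saturated cell
  have hsat : ∀ z : E, ∃ n, j ≤ n ∧ n ≤ J ∧ c μ n (ix n z) = h n := by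
    intro z
    by_contra hcon
    push Not at hcon
    have hlt : ∀ n, j ≤ n → n ≤ J → c μ n (ix n z) < h n := fun n h1 h2 =>
      lt_of_le_of_ne (hμK.2 n h1 h2 _) (hcon n h1 h2)
    obtain ⟨m, hm, hmin⟩ := Finset.exists_min_image (Finset.Icc j J)
      (fun n => h n - c μ n (ix n z)) ⟨j, Finset.mem_Icc.2 ⟨le_rfl, hjJ⟩⟩
    rw [Finset.mem_Icc] at hm
    obtain ⟨ε, hε⟩ : ∃ ε, ε = h m - c μ m (ix m z) := ⟨_, rfl⟩
    have hε0 : 0 < ε := by
      have := hlt m hm.1 hm.2
      rw [hε]
      linarith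
    obtain ⟨μ', hμ'⟩ : ∃ μ' : E → ℝ, μ' = fun w => μ w + if w = z then ε else 0 := ⟨_, rfl⟩
    have hc' : ∀ n q, c μ' n q = c μ n q + if ix n z = q then ε else 0 := by
      intro n q
      simp only [c, hμ']
      have e1 : ∀ w : E, (if ix n w = q then μ w + (if w = z then ε else 0) else 0)
          = (if ix n w = q then μ w else 0) + if w = z then (if ix n z = q then ε else 0)
            else 0 := by
        intro w
        by_cases h1 : w = z
        · subst h1
          split_ifs <;> simp
        · simp only [h1, if_false, add_zero]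
      simp_rw [e1]
      rw [Finset.sum_add_distrib, Finset.sum_ite_eq' Finset.univ z]
      simp
    have hK' : μ' ∈ K := by
      refine ⟨fun w => ?_, fun n h1 h2 q => ?_⟩
      · rw [hμ']
        have := hμK.1 w
        show 0 ≤ μ w + if w = z then ε else 0
        split_ifs <;> linarith
      · rw [hc']
        split_ifs with hq
        · have := hmin n (Finset.mem_Icc.2 ⟨h1, h2⟩)
          rw [← hε] at this
          subst hq
          linarith
        · rw [add_zero]
          exact hμK.2 n h1 h2 q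
    have h3 := hmax hK'
    have h4 : ∑ w, μ' w = ∑ w, μ w + ε := by
      rw [hμ', Finset.sum_add_distrib, Finset.sum_ite_eq' Finset.univ z]
      simp
    have h5 : ∑ w, μ' w ≤ ∑ w, μ w := h3
    linarith
  -- the levels
  obtain ⟨m, hm⟩ : ∃ m : X → ℝ, m = fun z => if hz : z ∈ E then μ ⟨z, hz⟩ else 0 := ⟨_, rfl⟩
  have hmμ : ∀ z : E, m z = μ z := fun z => by rw [hm]; simp
  have hcm : ∀ n q, cm E ix m n q = c μ n q := by
    intro n q
    unfold cm
    rw [Finset.sum_filter, ← Finset.sum_coe_sort E]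
    refine Finset.sum_congr rfl fun z _ => ?_
    rw [hmμ]
  have hsat' : ∀ z ∈ E, ∃ n, j ≤ n ∧ n ≤ J ∧ cm E ix m n (ix n z) = h n := by
    intro z hz
    obtain ⟨n, h1, h2, h3⟩ := hsat ⟨z, hz⟩
    exact ⟨n, h1, h2, by rw [hcm]; exact h3⟩
  obtain ⟨N, hN⟩ : ∃ N : X → ℕ, ∀ z, N z = if hz : z ∈ E then Nat.find (hsat' z hz) else j :=
    ⟨_, fun z => rfl⟩
  have hN1 : ∀ z ∈ E, j ≤ N z ∧ N z ≤ J ∧ cm E ix m (N z) (ix (N z) z) = h (N z) := by
    intro z hz
    rw [hN z, dif_pos hz]
    exact Nat.find_spec (hsat' z hz)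
  have hN2 : ∀ z ∈ E, ∀ n, j ≤ n → n ≤ J → cm E ix m n (ix n z) = h n → N z ≤ n := by
    intro z hz n h1 h2 h3
    rw [hN z, dif_pos hz]
    exact Nat.find_min' (hsat' z hz) ⟨h1, h2, h3⟩
  refine ⟨m, N, fun z => ?_, fun z hz => ⟨(hN1 z hz).1, (hN1 z hz).2.1⟩, fun n h1 h2 q => ?_, ?_⟩
  · rw [hm]
    show 0 ≤ if hz : z ∈ E then μ ⟨z, hz⟩ else 0
    split_ifs
    · exact hμK.1 _
    · exact le_rfl
  · rw [hcm]
    exact hμK.2 n h1 h2 q
  · obtain ⟨f, hf⟩ : ∃ f : X → ℕ × ι, f = fun z => (N z, ix (N z) z) := ⟨_, rfl⟩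
    rw [← hf]
    have h1 : ∀ q ∈ E.image f, h q.1 = ∑ z ∈ E.filter (fun z => f z = q), m z := by
      intro q hq
      obtain ⟨w, hw, rfl⟩ := Finset.mem_image.1 hq
      have e : E.filter (fun z => f z = f w) = E.filter (fun z => ix (N w) z = ix (N w) w) := by
        apply Finset.filter_congr
        intro z hz
        constructor
        · intro h2
          rw [hf] at h2
          simp only [Prod.mk.injEq] at h2
          rw [← h2.1]
          have h3 := h2.2
          rw [h3, h2.1]
        · intro h2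
          have h3 : N z ≤ N w := by
            apply hN2 z hz (N w) (hN1 w hw).1 (hN1 w hw).2.1
            rw [h2]
            exact (hN1 w hw).2.2
          have h4 : ix (N z) z = ix (N z) w := nest hn h3 h2
          have h5 : N w ≤ N z := by
            apply hN2 w hw (N z) (hN1 z hz).1 (hN1 z hz).2.1
            rw [← h4]
            exact (hN1 z hz).2.2
          have h6 : N z = N w := le_antisymm h3 h5
          rw [hf]
          simp only [Prod.mk.injEq]
          exact ⟨h6, by rw [h4, h6]⟩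
      rw [e]
      show h (f w).1 = cm E ix m (N w) (ix (N w) w)
      rw [(hN1 w hw).2.2, hf]
    rw [Finset.sum_congr rfl h1]
    exact Finset.sum_fiberwise_of_maps_to (fun z hz => Finset.mem_image_of_mem f hz) m

end

end Pool.Agent.V1182
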