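import Pool.Agent.V1182.Dual
import Pool.Agent.W221.NS.Stm

/-!
An embedding of Carleson type for measures on space-time with a growth condition on the dyadic
parabolic cells (helper82).
-/

set_option autoImplicit false

open MeasureTheory Set Metric
open scoped ENNReal

namespace Pool.Agent.V1182

open H459R3.NS W221.NS

/-! ### Dyadic cells -/

/-- The index of the dyadic cube of side `2⁻ⁿ` which contains `x`. -/
noncomputable def sx (n : ℕ) (x : V) : Fin 3 → ℤ := fun i => ⌊(2 : ℝ) ^ n * x i⌋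

/-- The index of the dyadic parabolic cell of the generation `n` which contains `z`. -/
noncomputable def px (n : ℕ) (z : ℝ × V) : ℤ × (Fin 3 → ℤ) := (⌊(4 : ℝ) ^ n * z.1⌋, sx n z.2)

lemma floor_of {c : ℕ} (hc : 0 < c) {y y' : ℝ} (h : ⌊(c : ℝ) * y⌋ = ⌊(c : ℝ) * y'⌋) :
    ⌊y⌋ = ⌊y'⌋ := by
  have hc' : (0 : ℝ) < c := by exact_mod_cast hc
  have key : ∀ (k : ℤ) (a : ℝ), k ≤ ⌊a⌋ ↔ (c : ℤ) * k ≤ ⌊(c : ℝ) * a⌋ := by
    intro k a
    rw [Int.le_floor, Int.le_floor]
    push_cast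
    exact (mul_le_mul_iff_right₀ hc').symm
  refine eq_of_forall_le_iff fun k => ?_
  rw [key k y, key k y', h]

lemma sx_nest (n : ℕ) (x y : V) (h : sx (n + 1) x = sx (n + 1) y) : sx n x = sx n y := by
  funext i
  have h1 := congrFun h i
  unfold sx at h1 ⊢
  apply floor_of (c := 2) (by norm_num)
  rw [pow_succ] at h1
  push_cast
  rw [← mul_assoc, ← mul_assoc, mul_comm (2 : ℝ)]
  exact h1

lemma px_nest (n : ℕ) (z w : ℝ × V) (h : px (n + 1) z = px (n + 1) w) : px n z = px n w := by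
  unfold px at h ⊢
  rw [Prod.mk.injEq] at h ⊢
  refine ⟨?_, sx_nest n _ _ h.2⟩
  have h1 := h.1
  apply floor_of (c := 4) (by norm_num)
  rw [pow_succ] at h1
  push_cast
  rw [← mul_assoc, ← mul_assoc, mul_comm (4 : ℝ)]
  exact h1

/-- The dyadic cube. -/
def dc (n : ℕ) (b : Fin 3 → ℤ) : Set V := {y | sx n y = b}

lemma rr_eq (n : ℕ) : rr n = ((2 : ℝ) ^ n)⁻¹ := by
  unfold rr
  rw [one_div, inv_pow]

lemma rr_pos' (n : ℕ) : 0 < rr n := by
  rw [rr_eq]
  positivity

lemma rr_sq (n : ℕ) : rr n ^ 2 = ((4 : ℝ) ^ n)⁻¹ := by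
  rw [rr_eq, inv_pow, ← pow_mul, mul_comm, pow_mul]
  norm_num

lemma dc_eq (n : ℕ) (b : Fin 3 → ℤ) :
    dc n b = Set.pi univ (fun i => Ico ((b i : ℝ) * rr n) ((b i + 1 : ℝ) * rr n)) := by
  have h2 : (0 : ℝ) < 2 ^ n := by positivity
  ext y
  simp only [dc, mem_ofPred_eq, Set.mem_pi, mem_univ, true_imp_iff, mem_Ico]
  rw [funext_iff]
  refine forall_congr' fun i => ?_
  unfold sx
  rw [Int.floor_eq_iff, rr_eq, ← div_eq_mul_inv, ← div_eq_mul_inv, div_le_iff₀ h2, lt_div_iff₀ h2,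
    mul_comm (y i)]

lemma dc_meas (n : ℕ) (b : Fin 3 → ℤ) : MeasurableSet (dc n b) := by
  rw [dc_eq]
  exact MeasurableSet.univ_pi fun i => measurableSet_Ico

lemma dc_vol (n : ℕ) (b : Fin 3 → ℤ) : volume (dc n b) = ENNReal.ofReal (rr n ^ 3) := by
  rw [dc_eq, Real.volume_pi_Ico]
  have e : ∀ i : Fin 3, (b i + 1 : ℝ) * rr n - (b i : ℝ) * rr n = rr n := fun i => by ring
  simp only [e]
  rw [Finset.prod_const, Finset.card_univ, Fintype.card_fin, ENNReal.ofReal_pow (rr_pos' n).le]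

lemma dc_near {n : ℕ} {x y : V} (h : sx n x = sx n y) : ‖x - y‖ < rr n := by
  have hr := rr_pos' n
  have h2 : (0 : ℝ) < 2 ^ n := by positivity
  rw [pi_norm_lt_iff hr]
  intro i
  have h1 := congrFun h i
  unfold sx at h1
  have h3 := Int.abs_sub_lt_one_of_floor_eq_floor h1
  rw [← mul_sub, abs_mul, abs_of_pos h2] at h3
  rw [Real.norm_eq_abs, Pi.sub_apply, rr_eq, ← one_div, lt_div_iff₀ h2, mul_comm]
  exact h3

lemma px_near {n : ℕ} {z w : ℝ × V} (h : px n z = px n w) :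
    |z.1 - w.1| < rr n ^ 2 ∧ ‖z.2 - w.2‖ < rr n := by
  unfold px at h
  rw [Prod.mk.injEq] at h
  refine ⟨?_, dc_near h.2⟩
  have h4 : (0 : ℝ) < 4 ^ n := by positivity
  have h3 := Int.abs_sub_lt_one_of_floor_eq_floor h.1
  rw [← mul_sub, abs_mul, abs_of_pos h4] at h3
  rw [rr_sq, ← one_div, lt_div_iff₀ h4, mul_comm]
  exact h3

/-! ### The Carleson condition -/

section

variable {E : Finset (ℝ × V)} {μ : ℝ × V → ℝ} {h : ℕ → ℝ} {j J : ℕ}

lemma time_cells {n : ℕ} {t s : ℝ} (hs : |t - s| < rr n ^ 2) :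
    ⌊(4 : ℝ) ^ n * s⌋ = ⌊(4 : ℝ) ^ n * t⌋ - 1 ∨ ⌊(4 : ℝ) ^ n * s⌋ = ⌊(4 : ℝ) ^ n * t⌋ ∨
      ⌊(4 : ℝ) ^ n * s⌋ = ⌊(4 : ℝ) ^ n * t⌋ + 1 := by
  have h4 : (0 : ℝ) < 4 ^ n := by positivity
  have hs' : |(4 : ℝ) ^ n * (t - s)| < 1 := by
    rw [abs_mul, abs_of_pos h4]
    rw [rr_sq, ← one_div, lt_div_iff₀ h4, mul_comm] at hs
    exact hs
  rw [mul_sub, abs_lt] at hs'
  obtain ⟨A, hA⟩ : ∃ A, A = (4 : ℝ) ^ n * s := ⟨_, rfl⟩
  obtain ⟨B, hB⟩ : ∃ B, B = (4 : ℝ) ^ n * t := ⟨_, rfl⟩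
  rw [← hA, ← hB] at hs'
  rw [← hA, ← hB]
  have a1 := Int.floor_le A
  have a2 := Int.lt_floor_add_one A
  have b1 := Int.floor_le B
  have b2 := Int.lt_floor_add_one B
  have c1 : (⌊A⌋ : ℝ) < ⌊B⌋ + 2 := by linarith [hs'.2]
  have c2 : (⌊B⌋ : ℝ) < ⌊A⌋ + 2 := by linarith [hs'.1]
  have d1 : ⌊A⌋ < ⌊B⌋ + 2 := by exact_mod_cast c1
  have d2 : ⌊B⌋ < ⌊A⌋ + 2 := by exact_mod_cast c2
  omega

/-- The mass of a cell of a short time. -/
lemma mass_le (hμ : ∀ z, 0 ≤ μ z)
    (hg : ∀ n, j ≤ n → n ≤ J → ∀ q, cm E px μ n q ≤ h n) {n : ℕ} (h1 : j ≤ n) (h2 : n ≤ J)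
    (b : Fin 3 → ℤ) (t : ℝ) :
    ∑ z ∈ E.filter (fun z => sx n z.2 = b ∧ |t - z.1| < rr n ^ 2), μ z ≤ 3 * h n := by
  classical
  obtain ⟨k, hk⟩ : ∃ k, k = ⌊(4 : ℝ) ^ n * t⌋ := ⟨_, rfl⟩
  have hsub : E.filter (fun z => sx n z.2 = b ∧ |t - z.1| < rr n ^ 2) ⊆
      (E.filter (fun z => px n z = (k - 1, b)) ∪ E.filter (fun z => px n z = (k, b)))
        ∪ E.filter (fun z => px n z = (k + 1, b)) := by
    intro z hz
    rw [Finset.mem_filter] at hz
    obtain ⟨hzE, hzb, hzt⟩ := hz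
    have h3 := time_cells hzt
    rw [← hk] at h3
    simp only [Finset.mem_union, Finset.mem_filter, px, Prod.mk.injEq]
    rcases h3 with h3 | h3 | h3
    · exact Or.inl (Or.inl ⟨hzE, h3, hzb⟩)
    · exact Or.inl (Or.inr ⟨hzE, h3, hzb⟩)
    · exact Or.inr ⟨hzE, h3, hzb⟩
  have hun : ∀ A B : Finset (ℝ × V), ∑ z ∈ A ∪ B, μ z ≤ ∑ z ∈ A, μ z + ∑ z ∈ B, μ z := by
    intro A B
    rw [← Finset.sum_union_inter]
    have := Finset.sum_nonneg (s := A ∩ B) fun z _ => hμ z
    linarith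
  have e1 := hg n h1 h2 (k - 1, b)
  have e2 := hg n h1 h2 (k, b)
  have e3 := hg n h1 h2 (k + 1, b)
  unfold cm at e1 e2 e3
  refine (Finset.sum_le_sum_of_subset_of_nonneg hsub fun z _ _ => hμ z).trans ?_
  refine (hun _ _).trans ?_
  have := hun (E.filter (fun z => px n z = (k - 1, b))) (E.filter (fun z => px n z = (k, b)))
  linarith

/-- The weight of a point at one scale and one time. -/
noncomputable def wt (μ : ℝ × V → ℝ) (h : ℕ → ℝ) (t : ℝ) (m : ℕ) (z : ℝ × V) : ℝ :=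
  if |t - z.1| < rr m ^ 2 then μ z * (rr m / h m * rr m ^ 2) else 0

lemma wt_nn (hμ : ∀ z, 0 ≤ μ z) (hh : ∀ n, 0 < h n) (t : ℝ) (m : ℕ) (z : ℝ × V) :
    0 ≤ wt μ h t m z := by
  unfold wt
  have h1 := hμ z
  have h2 := hh m
  have h3 := rr_pos' m
  split_ifs
  · positivity
  · exact le_rfl

lemma geo4 (n J : ℕ) : ∑ m ∈ Finset.Ico n J, rr m ^ 2 ≤ 4 / 3 * rr n ^ 2 := by
  have h0 : ∀ J, n ≤ J → ∑ m ∈ Finset.Ico n J, rr m ^ 2 ≤ 4 / 3 * rr n ^ 2 - 4 / 3 * rr J ^ 2 := by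
    intro J hJ
    induction J, hJ using Nat.le_induction with
    | base => simp
    | succ J hJ ih =>
      rw [Finset.sum_Ico_succ_top hJ]
      have e : rr (J + 1) ^ 2 = rr J ^ 2 / 4 := by
        unfold rr
        rw [pow_succ]
        ring
      rw [e]
      linarith
  rcases le_total n J with h1 | h1
  · have := h0 J h1
    have := rr_pos' J
    nlinarith [sq_nonneg (rr J)]
  · rw [Finset.Ico_eq_empty_of_le h1, Finset.sum_empty]
    positivity

/-- The Carleson condition. -/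
lemma carl (hμ : ∀ z, 0 ≤ μ z) (hh : ∀ n, 0 < h n)
    (hg : ∀ n, j ≤ n → n ≤ J → ∀ q, cm E px μ n q ≤ h n)
    (ha : ∀ m n, j ≤ m → m ≤ n → rr n / h n ≤ rr m / h m) {n : ℕ} (h1 : j ≤ n) (h2 : n ≤ J)
    (b : Fin 3 → ℤ) (t : ℝ) :
    ∑ z ∈ E.filter (fun z => sx n z.2 = b), ∑ m ∈ Finset.Ico n (J + 1), wt μ h t m z
      ≤ 4 * rr n ^ 3 := by
  rw [Finset.sum_comm]
  have hr := rr_pos' n
  have hhn := hh n
  have hone : ∀ m ∈ Finset.Ico n (J + 1), ∑ z ∈ E.filter (fun z => sx n z.2 = b), wt μ h t m z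
      ≤ 3 * rr n * rr m ^ 2 := by
    intro m hm
    rw [Finset.mem_Ico] at hm
    have hrm := rr_pos' m
    have hhm := hh m
    have hmn : rr m ^ 2 ≤ rr n ^ 2 := by
      apply pow_le_pow_left₀ hrm.le
      unfold rr
      exact pow_le_pow_of_le_one (by norm_num) (by norm_num) hm.1
    calc ∑ z ∈ E.filter (fun z => sx n z.2 = b), wt μ h t m z
        ≤ ∑ z ∈ E.filter (fun z => sx n z.2 = b), (rr m / h m * rr m ^ 2) *
          (if |t - z.1| < rr n ^ 2 then μ z else 0) := by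
          refine Finset.sum_le_sum fun z _ => ?_
          unfold wt
          by_cases h3 : |t - z.1| < rr m ^ 2
          · rw [if_pos h3, if_pos (h3.trans_le hmn), mul_comm]
          · rw [if_neg h3]
            have := hμ z
            split_ifs
            · positivity
            · simp
      _ = (rr m / h m * rr m ^ 2) * ∑ z ∈ E.filter (fun z => sx n z.2 = b ∧
            |t - z.1| < rr n ^ 2), μ z := by
          rw [← Finset.mul_sum, ← Finset.sum_filter, Finset.filter_filter]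
      _ ≤ (rr n / h n * rr m ^ 2) * (3 * h n) := by
          apply mul_le_mul _ (mass_le hμ hg h1 h2 b t) (Finset.sum_nonneg fun z _ => hμ z)
            (by positivity)
          exact mul_le_mul_of_nonneg_right (ha n m h1 hm.1) (by positivity)
      _ = 3 * rr n * rr m ^ 2 := by field_simp
  refine (Finset.sum_le_sum hone).trans ?_
  rw [← Finset.mul_sum]
  have := mul_le_mul_of_nonneg_left (geo4 n (J + 1)) (show 0 ≤ 3 * rr n by positivity)
  refine this.trans (le_of_eq ?_)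
  ring

/-- The embedding on one cell. -/
theorem emb_cell (hμ : ∀ z, 0 ≤ μ z) (hh : ∀ n, 0 < h n)
    (hg : ∀ n, j ≤ n → n ≤ J → ∀ q, cm E px μ n q ≤ h n)
    (ha : ∀ m n, j ≤ m → m ≤ n → rr n / h n ≤ rr m / h m) (t : ℝ) :
    ∀ k n : ℕ, j ≤ n → n + k = J + 1 → ∀ F : V → ℝ≥0∞, Measurable F → ∀ φ : ℕ → ℝ × V → ℝ≥0∞,
      (∀ m, n ≤ m → m ≤ J → ∀ z ∈ E, ∀ y, sx m y = sx m z.2 → φ m z ≤ F y) → ∀ b : Fin 3 → ℤ,
        ∑ z ∈ E.filter (fun z => sx n z.2 = b), ∑ m ∈ Finset.Ico n (J + 1),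
          ENNReal.ofReal (wt μ h t m z) * φ m z ≤ 4 * ∫⁻ y in dc n b, F y := by
  classical
  intro k
  induction k with
  | zero =>
    intro n _ hn F _ φ _ b
    rw [add_zero] at hn
    rw [hn]
    simp
  | succ k ih =>
    intro n hjn hn F hF φ hφ b
    have hnJ : n ≤ J := by omega
    obtain ⟨m0, hm0⟩ : ∃ m0, m0 = ⨅ y ∈ dc n b, F y := ⟨_, rfl⟩
    have hm0F : ∀ y ∈ dc n b, m0 ≤ F y := fun y hy => by
      rw [hm0]
      exact iInf₂_le y hy
    have hφn : ∀ z ∈ E, sx n z.2 = b → φ n z ≤ m0 := by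
      intro z hz hzb
      rw [hm0]
      refine le_iInf₂ fun y hy => ?_
      exact hφ n le_rfl hnJ z hz y (by rw [hzb]; exact hy)
    have hsplit : ∀ z ∈ E.filter (fun z => sx n z.2 = b), ∑ m ∈ Finset.Ico n (J + 1),
        ENNReal.ofReal (wt μ h t m z) * φ m z ≤
        m0 * ∑ m ∈ Finset.Ico n (J + 1), ENNReal.ofReal (wt μ h t m z) +
        ∑ m ∈ Finset.Ico (n + 1) (J + 1), ENNReal.ofReal (wt μ h t m z) * (φ m z - m0) := by
      intro z hz
      rw [Finset.mem_filter] at hz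
      rw [Finset.sum_eq_sum_Ico_succ_bot (by omega : n < J + 1),
        Finset.sum_eq_sum_Ico_succ_bot (by omega : n < J + 1) (fun m =>
          ENNReal.ofReal (wt μ h t m z)), mul_add, add_assoc, Finset.mul_sum,
        ← Finset.sum_add_distrib]
      refine add_le_add ?_ (Finset.sum_le_sum fun m _ => ?_)
      · rw [mul_comm]
        exact mul_le_mul_left (hφn z hz.1 hz.2) _
      · rw [mul_comm m0, ← mul_add]
        exact mul_le_mul_right le_add_tsub _
    refine (Finset.sum_le_sum hsplit).trans ?_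
    rw [Finset.sum_add_distrib, ← Finset.mul_sum]
    -- the first part
    have p1 : m0 * ∑ z ∈ E.filter (fun z => sx n z.2 = b), ∑ m ∈ Finset.Ico n (J + 1),
        ENNReal.ofReal (wt μ h t m z) ≤ 4 * ∫⁻ _ in dc n b, m0 := by
      rw [setLIntegral_const, dc_vol]
      have e : ∑ z ∈ E.filter (fun z => sx n z.2 = b), ∑ m ∈ Finset.Ico n (J + 1),
          ENNReal.ofReal (wt μ h t m z) = ENNReal.ofReal (∑ z ∈ E.filter (fun z => sx n z.2 = b),
          ∑ m ∈ Finset.Ico n (J + 1), wt μ h t m z) := by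
        rw [ENNReal.ofReal_sum_of_nonneg fun z _ => Finset.sum_nonneg fun m _ =>
          wt_nn hμ hh t m z]
        refine Finset.sum_congr rfl fun z _ => ?_
        rw [ENNReal.ofReal_sum_of_nonneg fun m _ => wt_nn hμ hh t m z]
      rw [e]
      have h3 := ENNReal.ofReal_le_ofReal (carl hμ hh hg ha hjn hnJ b t)
      rw [ENNReal.ofReal_mul (by norm_num)] at h3
      have h4 : ENNReal.ofReal 4 = 4 := by norm_num
      rw [h4] at h3
      refine (mul_le_mul_right h3 m0).trans (le_of_eq ?_)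
      ring
    -- the second part
    obtain ⟨F', hF'⟩ : ∃ F' : V → ℝ≥0∞, F' = fun y => F y - m0 := ⟨_, rfl⟩
    have hF'm : Measurable F' := by
      rw [hF']
      exact hF.sub_const m0
    have p2 : ∑ z ∈ E.filter (fun z => sx n z.2 = b), ∑ m ∈ Finset.Ico (n + 1) (J + 1),
        ENNReal.ofReal (wt μ h t m z) * (φ m z - m0) ≤ 4 * ∫⁻ y in dc n b, F' y := by
      obtain ⟨S, hS⟩ : ∃ S, S = (E.filter (fun z => sx n z.2 = b)).image
        (fun z => sx (n + 1) z.2) := ⟨_, rfl⟩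
      have h3 := ih (n + 1) (by omega) (by omega) F' hF'm (fun m z => φ m z - m0) (by
        intro m h4 h5 z hz y hy
        rw [hF']
        exact tsub_le_tsub_right (hφ m (by omega) h5 z hz y hy) _)
      have h4 : ∀ c ∈ S, E.filter (fun z => sx (n + 1) z.2 = c) =
          (E.filter (fun z => sx n z.2 = b)).filter (fun z => sx (n + 1) z.2 = c) := by
        intro c hc
        rw [hS, Finset.mem_image] at hc
        obtain ⟨w, hw, hwc⟩ := hc
        rw [Finset.mem_filter] at hw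
        rw [Finset.filter_filter]
        apply Finset.filter_congr
        intro z _
        constructor
        · intro h5
          refine ⟨?_, h5⟩
          rw [← hw.2]
          apply sx_nest
          rw [h5, hwc]
        · exact fun h5 => h5.2
      rw [← Finset.sum_fiberwise_of_maps_to (t := S) (g := fun z => sx (n + 1) z.2)
        (fun z hz => by rw [hS]; exact Finset.mem_image_of_mem _ hz)]
      calc ∑ c ∈ S, ∑ z ∈ (E.filter (fun z => sx n z.2 = b)).filter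
            (fun z => sx (n + 1) z.2 = c), ∑ m ∈ Finset.Ico (n + 1) (J + 1),
            ENNReal.ofReal (wt μ h t m z) * (φ m z - m0)
          ≤ ∑ c ∈ S, 4 * ∫⁻ y in dc (n + 1) c, F' y := by
            refine Finset.sum_le_sum fun c hc => ?_
            rw [← h4 c hc]
            exact h3 c
        _ = 4 * ∫⁻ y in ⋃ c ∈ S, dc (n + 1) c, F' y := by
            rw [lintegral_biUnion_finset _ (fun c _ => dc_meas _ _), Finset.mul_sum]
            intro c _ c' _ hcc
            show Disjoint (dc (n + 1) c) (dc (n + 1) c')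
            rw [Set.disjoint_left]
            intro y hy hy'
            apply hcc
            have e1 : sx (n + 1) y = c := hy
            have e2 : sx (n + 1) y = c' := hy'
            rw [← e1, e2]
        _ ≤ 4 * ∫⁻ y in dc n b, F' y := by
            apply mul_le_mul_right
            apply lintegral_mono_set
            refine iUnion₂_subset fun c hc y hy => ?_
            rw [hS, Finset.mem_image] at hc
            obtain ⟨w, hw, hwc⟩ := hc
            rw [Finset.mem_filter] at hw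
            show sx n y = b
            rw [← hw.2]
            apply sx_nest
            rw [hwc]
            exact hy
    refine (add_le_add p1 p2).trans (le_of_eq ?_)
    rw [← mul_add, ← lintegral_add_left measurable_const]
    congr 1
    refine setLIntegral_congr_fun (dc_meas n b) fun y hy => ?_
    show m0 + F' y = F y
    rw [hF']
    exact add_tsub_cancel_of_le (hm0F y hy)

/-- The embedding. -/
theorem emb (hμ : ∀ z, 0 ≤ μ z) (hh : ∀ n, 0 < h n) (hjJ : j ≤ J)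
    (hg : ∀ n, j ≤ n → n ≤ J → ∀ q, cm E px μ n q ≤ h n)
    (ha : ∀ m n, j ≤ m → m ≤ n → rr n / h n ≤ rr m / h m) (t : ℝ) (F : V → ℝ≥0∞)
    (hF : Measurable F) (φ : ℕ → ℝ × V → ℝ≥0∞)
    (hφ : ∀ m, j ≤ m → m ≤ J → ∀ z ∈ E, ∀ y, sx m y = sx m z.2 → φ m z ≤ F y)
    (S : Set V) (hS : ∀ z ∈ E, ∀ y, sx j y = sx j z.2 → y ∈ S) :
    ∑ z ∈ E, ∑ m ∈ Finset.Ico j (J + 1), ENNReal.ofReal (wt μ h t m z) * φ m z
      ≤ 4 * ∫⁻ y in S, F y := by
  classical
  obtain ⟨B, hB⟩ : ∃ B, B = E.image (fun z => sx j z.2) := ⟨_, rfl⟩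
  rw [← Finset.sum_fiberwise_of_maps_to (t := B) (g := fun z => sx j z.2)
    (fun z hz => by rw [hB]; exact Finset.mem_image_of_mem _ hz)]
  calc _ ≤ ∑ c ∈ B, 4 * ∫⁻ y in dc j c, F y :=
        Finset.sum_le_sum fun c _ => emb_cell hμ hh hg ha t (J + 1 - j) j le_rfl (by omega) F hF
          φ hφ c
    _ = 4 * ∫⁻ y in ⋃ c ∈ B, dc j c, F y := by
        rw [lintegral_biUnion_finset _ (fun c _ => dc_meas _ _), Finset.mul_sum]
        intro c _ c' _ hcc
        show Disjoint (dc j c) (dc j c')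
        rw [Set.disjoint_left]
        intro y hy hy'
        apply hcc
        have e1 : sx j y = c := hy
        have e2 : sx j y = c' := hy'
        rw [← e1, e2]
    _ ≤ _ := by
        apply mul_le_mul_right
        apply lintegral_mono_set
        refine iUnion₂_subset fun c hc y hy => ?_
        rw [hB, Finset.mem_image] at hc
        obtain ⟨w, hw, hwc⟩ := hc
        exact hS w hw y (by rw [hwc]; exact hy)

end

end Pool.Agent.V1182
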