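import Mathlib

/-!
Gronwall's inequality with an integrable coefficient (helper82).
-/

set_option autoImplicit false

open MeasureTheory Set Metric Filter Topology intervalIntegral
open scoped ENNReal NNReal

namespace Pool.Agent.V1182

open AbsolutelyContinuousOnInterval in
/-- Composition with a Lipschitz function. -/
lemma ac_lip {f φ : ℝ → ℝ} {a b : ℝ} {K : ℝ≥0} (hf : AbsolutelyContinuousOnInterval f a b)
    (hφ : LipschitzOnWith K φ (f '' uIcc a b)) :
    AbsolutelyContinuousOnInterval (fun x => φ (f x)) a b := by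
  rw [absolutelyContinuousOnInterval_iff] at hf ⊢
  intro ε hε
  obtain ⟨δ, hδ, h⟩ := hf (ε / (K + 1)) (by positivity)
  refine ⟨δ, hδ, fun E hE1 hE2 => ?_⟩
  have h1 := h E hE1 hE2
  calc ∑ i ∈ Finset.range E.1, dist (φ (f (E.2 i).1)) (φ (f (E.2 i).2))
      ≤ ∑ i ∈ Finset.range E.1, K * dist (f (E.2 i).1) (f (E.2 i).2) := by
        refine Finset.sum_le_sum fun i hi => ?_
        exact hφ.dist_le_mul _ (mem_image_of_mem f (hE1.1 i hi).1) _
          (mem_image_of_mem f (hE1.1 i hi).2)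
    _ = K * ∑ i ∈ Finset.range E.1, dist (f (E.2 i).1) (f (E.2 i).2) := by
        rw [Finset.mul_sum]
    _ ≤ K * (ε / (K + 1)) := by gcongr
    _ < (K + 1) * (ε / (K + 1)) := by gcongr; linarith
    _ = ε := by field_simp

lemma log_lip {A : ℝ} (hA : 0 < A) : LipschitzOnWith ⟨A⁻¹, by positivity⟩ Real.log (Ici A) := by
  have key : ∀ x ∈ Ici A, ∀ y ∈ Ici A, Real.log x - Real.log y ≤ A⁻¹ * |x - y| := by
    intro x hx y hy
    have hx0 : 0 < x := hA.trans_le hx
    have hy0 : 0 < y := hA.trans_le hy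
    rw [← Real.log_div hx0.ne' hy0.ne']
    have h1 := Real.log_le_sub_one_of_pos (div_pos hx0 hy0)
    have h2 : x / y - 1 = y⁻¹ * (x - y) := by field_simp
    rw [h2] at h1
    have h3 : y⁻¹ ≤ A⁻¹ := inv_anti₀ hA hy
    calc Real.log (x / y) ≤ y⁻¹ * (x - y) := h1
      _ ≤ y⁻¹ * |x - y| := by
          apply mul_le_mul_of_nonneg_left (le_abs_self _) (by positivity)
      _ ≤ A⁻¹ * |x - y| := by gcongr
  refine LipschitzOnWith.of_dist_le_mul fun x hx y hy => ?_
  rw [Real.dist_eq, Real.dist_eq]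
  show |Real.log x - Real.log y| ≤ A⁻¹ * |x - y|
  rw [abs_le]
  constructor
  · have := key y hy x hx
    rw [abs_sub_comm] at this
    linarith
  · exact key x hx y hy

/-- Gronwall's inequality, forward in time. -/
theorem gron_fwd {s t : ℝ} (hst : s ≤ t) {g F : ℝ → ℝ} {A : ℝ} (hA : 0 < A)
    (hg : IntegrableOn g (Ioo s t)) (hgF : IntegrableOn (fun τ => g τ * F τ) (Ioo s t))
    (hg0 : ∀ τ, 0 ≤ g τ) (hF0 : ∀ τ, 0 ≤ F τ)
    (hF : ∀ᵐ τ, τ ∈ Ioo s t → F τ ≤ A + ∫ σ in Ioo s τ, g σ * F σ) :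
    A + ∫ σ in Ioo s t, g σ * F σ ≤ A * Real.exp (∫ σ in Ioo s t, g σ) := by
  have hgi : IntervalIntegrable g volume s t := by
    rw [intervalIntegrable_iff_integrableOn_Ioo_of_le hst]
    exact hg
  have hgFi : IntervalIntegrable (fun τ => g τ * F τ) volume s t := by
    rw [intervalIntegrable_iff_integrableOn_Ioo_of_le hst]
    exact hgF
  have e1 : ∀ (f : ℝ → ℝ) (τ : ℝ), s ≤ τ → ∫ σ in Ioo s τ, f σ = ∫ σ in s..τ, f σ := by
    intro f τ hτ
    rw [intervalIntegral.integral_of_le hτ, integral_Ioc_eq_integral_Ioo]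
  obtain ⟨H, hH⟩ : ∃ H : ℝ → ℝ, H = fun τ => A + ∫ σ in s..τ, g σ * F σ := ⟨_, rfl⟩
  have hHA : ∀ τ, s ≤ τ → A ≤ H τ := by
    intro τ hτ
    rw [hH]
    have : 0 ≤ ∫ σ in s..τ, g σ * F σ :=
      intervalIntegral.integral_nonneg hτ fun σ _ => mul_nonneg (hg0 σ) (hF0 σ)
    show A ≤ A + _
    linarith
  have hHac : AbsolutelyContinuousOnInterval H s t := by
    have h1 := hgFi.absolutelyContinuousOnInterval_intervalIntegral (c := s) left_mem_uIcc
    have h2 : AbsolutelyContinuousOnInterval (fun _ : ℝ => A) s t :=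
      (LipschitzWith.const (α := ℝ) A).lipschitzOnWith.absolutelyContinuousOnInterval (K := 0)
    rw [hH]
    exact h2.add h1
  have hL : AbsolutelyContinuousOnInterval (fun τ => Real.log (H τ)) s t := by
    apply ac_lip hHac (K := ⟨A⁻¹, by positivity⟩)
    apply (log_lip hA).mono
    rintro _ ⟨τ, hτ, rfl⟩
    rw [uIcc_of_le hst] at hτ
    exact hHA τ hτ.1
  have h3 := hL.integral_deriv_eq_sub
  have hd : ∀ᵐ τ, τ ∈ Ioo s t → deriv (fun τ => Real.log (H τ)) τ ≤ g τ := by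
    filter_upwards [hgFi.ae_hasDerivAt_integral, hF] with τ h4 h5 hτ
    have h6 := h4 (by rw [uIcc_of_le hst]; exact Ioo_subset_Icc_self hτ) s left_mem_uIcc
    have h7 : HasDerivAt H (g τ * F τ) τ := by
      rw [hH]
      exact h6.const_add A
    have hHp : 0 < H τ := hA.trans_le (hHA τ hτ.1.le)
    rw [(h7.log hHp.ne').deriv, div_le_iff₀ hHp]
    apply mul_le_mul_of_nonneg_left _ (hg0 τ)
    refine (h5 hτ).trans (le_of_eq ?_)
    rw [hH, e1 _ τ hτ.1.le]
  have h8 : ∫ τ in s..t, deriv (fun τ => Real.log (H τ)) τ ≤ ∫ τ in s..t, g τ := by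
    rw [intervalIntegral.integral_of_le hst, intervalIntegral.integral_of_le hst,
      integral_Ioc_eq_integral_Ioo, integral_Ioc_eq_integral_Ioo]
    apply setIntegral_mono_ae_restrict
    · have := hL.intervalIntegrable_deriv
      rwa [intervalIntegrable_iff_integrableOn_Ioo_of_le hst] at this
    · exact hg
    · filter_upwards [ae_restrict_of_ae hd, ae_restrict_mem measurableSet_Ioo] with τ h9 hτ
      exact h9 hτ
  rw [h3] at h8
  have hHs : H s = A := by rw [hH]; simp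
  have hHt : A + ∫ σ in Ioo s t, g σ * F σ = H t := by
    rw [e1 _ t hst, hH]
  rw [hHt, e1 _ t hst]
  have hHp : 0 < H t := hA.trans_le (hHA t hst)
  simp only [hHs] at h8
  have h10 : Real.log (H t / A) ≤ ∫ τ in s..t, g τ := by
    rw [Real.log_div hHp.ne' hA.ne']
    exact h8
  have h11 := (Real.log_le_iff_le_exp (by positivity)).1 h10
  rw [div_le_iff₀ hA] at h11
  linarith

/-- Gronwall's inequality, backward in time. -/
theorem gron_bwd {s t : ℝ} (hst : t ≤ s) {g F : ℝ → ℝ} {A : ℝ} (hA : 0 < A)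
    (hg : IntegrableOn g (Ioo t s)) (hgF : IntegrableOn (fun τ => g τ * F τ) (Ioo t s))
    (hg0 : ∀ τ, 0 ≤ g τ) (hF0 : ∀ τ, 0 ≤ F τ)
    (hF : ∀ᵐ τ, τ ∈ Ioo t s → F τ ≤ A + ∫ σ in Ioo τ s, g σ * F σ) :
    A + ∫ σ in Ioo t s, g σ * F σ ≤ A * Real.exp (∫ σ in Ioo t s, g σ) := by
  have hmp : MeasurePreserving (fun τ : ℝ => -τ) volume volume := Measure.measurePreserving_neg _
  have hme : MeasurableEmbedding (fun τ : ℝ => -τ) := (Homeomorph.neg ℝ).measurableEmbedding
  have hpre : ∀ a b : ℝ, (fun τ : ℝ => -τ) ⁻¹' Ioo a b = Ioo (-b) (-a) := by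
    intro a b
    ext τ
    simp only [mem_preimage, mem_Ioo]
    constructor
    · rintro ⟨h1, h2⟩
      constructor <;> linarith
    · rintro ⟨h1, h2⟩
      constructor <;> linarith
  have hint : ∀ (f : ℝ → ℝ) (a b : ℝ), ∫ σ in Ioo (-b) (-a), f (-σ) = ∫ σ in Ioo a b, f σ := by
    intro f a b
    rw [← hpre a b]
    exact hmp.setIntegral_preimage_emb hme f (Ioo a b)
  have hio : ∀ (f : ℝ → ℝ) (a b : ℝ), IntegrableOn f (Ioo a b) →
      IntegrableOn (fun σ => f (-σ)) (Ioo (-b) (-a)) := by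
    intro f a b hf
    rw [← hpre a b]
    exact (hmp.integrableOn_comp_preimage hme).2 hf
  have h1 := gron_fwd (s := -s) (t := -t) (by linarith) (g := fun τ => g (-τ))
    (F := fun τ => F (-τ)) hA (hio _ _ _ hg) (hio _ _ _ hgF) (fun τ => hg0 _) (fun τ => hF0 _) (by
      have h2 : ∀ᵐ τ : ℝ, -τ ∈ Ioo t s → F (-τ) ≤ A + ∫ σ in Ioo (-τ) s, g σ * F σ :=
        hmp.quasiMeasurePreserving.ae hF
      filter_upwards [h2] with τ h3 hτ
      have h4 := h3 (by
        constructor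
        · linarith [hτ.2]
        · linarith [hτ.1])
      have h5 := hint (fun σ => g σ * F σ) (-τ) s
      rw [neg_neg] at h5
      rw [h5]
      exact h4)
  rw [hint (fun σ => g σ * F σ) t s, hint g t s] at h1
  exact h1

end Pool.Agent.V1182
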