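import Pool.Agent.V1182.Tim
import Pool.Agent.V1182.Gro

/-!
The evolution of the local mean velocity from one scale to the next (helper82).
-/

set_option autoImplicit false

open MeasureTheory Set Metric Filter Topology
open scoped ContDiff ENNReal NNReal

namespace Pool.Agent.V1182

open H459R3.NS W221.NS Pool.Agent.Y8 Pool.Agent.Y153.NS Pool.Agent.Y458.NS

/-- The local mean velocity of the generation `n`. -/
noncomputable def MV (n : ℕ) (w : V → V) (x : V) : V := fun l => MN (rr n) w x l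

/-- The constants of the estimates at one time. -/
structure Dat (C : ℝ) (κ : ℕ → ℝ) : Prop where
  one : 1 ≤ C
  low : ∀ n, 2 ≤ n → 3 / 4 ≤ κ n
  cmp : ∀ n, 2 ≤ n → ∀ w : V → V, SPV w → (∀ x, ∑ i, pd i (fun y => w y i) x = 0) → ∀ x,
    ‖MV n w x - κ n • mo (rr n) w x‖ ≤ C * (rr n * √(sg n w x) + (1 + energy w))
  hh : ∀ n, 2 ≤ n → ∀ w : V → V, SPV w → (∀ x, ∑ i, pd i (fun y => w y i) x = 0) → ∀ x,
    ∑ l, |HH (rr n) w x l| ≤ C * (rr n * lm n w x + ‖mo (rr n) w x‖ * √(sg n w x)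
      + √(sg n w x) / rr n + (1 + energy w))
  cr : ∀ n, 2 ≤ n → ∀ w : V → V, SPV w → ∀ x, ‖MV n w x‖ ≤ C * (rr n ^ 3)⁻¹ * (1 + energy w)
  nr : ∀ w : V → V, ContDiff ℝ ∞ w → ∀ r s : ℝ, 0 < r → r / 16 ≤ s → ∀ x y : V,
    ‖y - x‖ + s ≤ 4 * r → ‖mo s w y - mo r w x‖ ≤ C * (r * √(Pf r w x))

lemma MV_crude (hK : S_KER2) : ∃ C : ℝ, 0 < C ∧ ∀ n, 2 ≤ n → ∀ w : V → V, SPV w → ∀ x,
    ‖MV n w x‖ ≤ C * (rr n ^ 3)⁻¹ * (1 + energy w) := by
  have hK' := hK
  obtain ⟨Ck, hCk, hker⟩ := hK'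
  obtain ⟨C, hC, hK⟩ := KB_ex hK
  obtain ⟨Cb, hCb, hb⟩ := ball_le (1 / 2)
  refine ⟨12 * C * (1 + Cb), by positivity, fun n hn w hw x => ?_⟩
  have hr := Pool.Agent.Y153.NS.rr_pos n
  have hk := hK (rr n) hr (rr_le n) x
  have hen := energy_nn w
  obtain ⟨hgs, hes, -, hall⟩ := hker (rr n) hr (rr_le n)
  have hg0 : ∀ z, 1 / 2 ≤ ‖z‖ → gg (rr n) z = 0 := fun z hz => ((hall z).1 hz).1
  have hd2 : ∀ i j y, |pd i (pd j (fun z => gg (rr n) (z - x))) y| ≤ C * (rr n ^ 3)⁻¹ := by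
    intro i j y
    refine (hk.d2 i j y).trans ?_
    apply mul_le_mul_of_nonneg_left _ hC.le
    apply inv_anti₀ (by positivity)
    apply pow_le_pow_left₀ hr.le
    have := norm_nonneg (y - x)
    linarith
  have hphi : ∀ l i y, |phi (rr n) x l i y| ≤ 4 * C * (rr n ^ 3)⁻¹ := by
    intro l i y
    have h1 := hd2 i l y
    have h2 : |lap (fun z => gg (rr n) (z - x)) y| ≤ 3 * (C * (rr n ^ 3)⁻¹) := by
      unfold lap
      exact sum3_le fun j => hd2 j j y
    unfold phi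
    refine (abs_sub _ _).trans ?_
    have h3 : |if i = l then lap (fun z => gg (rr n) (z - x)) y else 0|
        ≤ 3 * (C * (rr n ^ 3)⁻¹) := by
      split_ifs
      · exact h2
      · rw [abs_zero]
        positivity
    linarith
  rw [pi_norm_le_iff_of_nonneg (by positivity)]
  intro l
  rw [Real.norm_eq_abs]
  have hc : ∀ i, Continuous fun y => w y i := fun i => (contDiff_pi.1 hw.1 i).continuous
  have h4 : ∀ i, |∫ y, w y i * phi (rr n) x l i y| ≤ 4 * C * (rr n ^ 3)⁻¹ *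
      ((1 + Cb) * (1 + energy w)) := by
    intro i
    have hz : ∀ y ∉ ball x (1 / 2), w y i * phi (rr n) x l i y = 0 := fun y hy => by
      rw [phi_z hgs hg0 x l i y hy, mul_zero]
    rw [← ball_int_eq hz]
    have h5 : |∫ y in ball x (1 / 2), w y i * phi (rr n) x l i y| ≤
        ∫ y in ball x (1 / 2), 4 * C * (rr n ^ 3)⁻¹ * (1 + nsq w y) := by
      refine abs_int_le measurableSet_ball
        (ballint (continuous_const.mul (continuous_const.add (nsq_sm hw.1).continuous)) _ _)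
        fun y _ => ?_
      rw [abs_mul, mul_comm]
      have h6 : |w y i| ≤ 1 + nsq w y := by
        have h7 : w y i ^ 2 ≤ nsq w y :=
          Finset.single_le_sum (f := fun i => w y i ^ 2) (fun _ _ => sq_nonneg _)
            (Finset.mem_univ i)
        have h8 : |w y i| ^ 2 = w y i ^ 2 := sq_abs _
        nlinarith [sq_nonneg (|w y i| - 1), abs_nonneg (w y i)]
      exact mul_le_mul (hphi l i y) h6 (abs_nonneg _) (by positivity)
    refine h5.trans ?_
    rw [integral_const_mul, integral_add (ballint continuous_const _ _)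
      (ballint (nsq_sm hw.1).continuous _ _), setIntegral_const, smul_eq_mul, mul_one,
      Pool.Agent.Y458.NS.vol_ball x (by norm_num)]
    have c2 := hb _ (nsq_sm hw.1).continuous (nsq_per hw.2) (nsq_nn w) x
    rw [← energy_eq hw.1] at c2
    apply mul_le_mul_of_nonneg_left _ (by positivity)
    norm_num
    nlinarith
  show |MN (rr n) w x l| ≤ _
  unfold MN
  calc |∑ i, ∫ y, w y i * phi (rr n) x l i y|
      ≤ 3 * (4 * C * (rr n ^ 3)⁻¹ * ((1 + Cb) * (1 + energy w))) := sum3_le h4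
    _ = _ := by ring

theorem dat_ex (hK : S_KER2) : ∃ (C : ℝ) (κ : ℕ → ℝ), Dat C κ := by
  obtain ⟨C1, hC1, h1⟩ := mc hK
  obtain ⟨C2, hC2, h2⟩ := hb hK
  obtain ⟨C3, hC3, h3⟩ := MV_crude hK
  obtain ⟨C4, hC4, h4⟩ := mo_near
  have h1' : ∀ n : ℕ, ∃ κ : ℝ, 2 ≤ n → 3 / 4 ≤ κ ∧ ∀ u : V → V, SPV u →
      (∀ x, ∑ i, pd i (fun y => u y i) x = 0) → ∀ (x : V) (l : Fin 3),
      |MN (rr n) u x l - κ * mo (rr n) u x l| ≤ C1 * (rr n * √(sg n u x) + 1 + energy u) := by
    intro n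
    by_cases hn : 2 ≤ n
    · obtain ⟨κ, k1, -, k3⟩ := h1 n hn
      exact ⟨κ, fun _ => ⟨k1, k3⟩⟩
    · exact ⟨1, fun h => absurd h hn⟩
  choose κ hκ using h1'
  refine ⟨C1 + 3 * C2 + C3 + C4, κ, ⟨by linarith, fun n hn => (hκ n hn).1, ?_, ?_, ?_, ?_⟩⟩
  · intro n hn w hw hd x
    have hr := Pool.Agent.Y153.NS.rr_pos n
    have hen := energy_nn w
    have hX : 0 ≤ rr n * √(sg n w x) + (1 + energy w) := by positivity
    rw [pi_norm_le_iff_of_nonneg (by positivity)]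
    intro l
    rw [Real.norm_eq_abs]
    have h5 := (hκ n hn).2 w hw hd x l
    show |MN (rr n) w x l - κ n * mo (rr n) w x l| ≤ _
    refine h5.trans ?_
    rw [add_assoc]
    exact mul_le_mul_of_nonneg_right (by linarith) hX
  · intro n hn w hw hd x
    have hr := Pool.Agent.Y153.NS.rr_pos n
    have hen := energy_nn w
    have hl := lm_nn n w x
    have hX : 0 ≤ rr n * lm n w x + ‖mo (rr n) w x‖ * √(sg n w x) + √(sg n w x) / rr n
        + (1 + energy w) := by positivity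
    calc ∑ l, |HH (rr n) w x l| ≤ ∑ _l : Fin 3, C2 * (rr n * lm n w x
          + ‖mo (rr n) w x‖ * √(sg n w x) + √(sg n w x) / rr n + 1 + energy w) :=
          Finset.sum_le_sum fun l _ => h2 w hw hd n hn x l
      _ = 3 * C2 * (rr n * lm n w x + ‖mo (rr n) w x‖ * √(sg n w x) + √(sg n w x) / rr n
          + (1 + energy w)) := by
          simp
          ring
      _ ≤ _ := mul_le_mul_of_nonneg_right (by linarith) hX
  · intro n hn w hw x
    have hr := Pool.Agent.Y153.NS.rr_pos n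
    have hen := energy_nn w
    refine (h3 n hn w hw x).trans ?_
    gcongr
    linarith
  · intro w hw r s hr hs x y hxy
    refine (h4 w hw r s hr hs x y hxy).trans ?_
    gcongr
    linarith

section

variable {C : ℝ} {κ : ℕ → ℝ}

/-- The normalised local mean velocity. -/
noncomputable def ff (κ : ℕ → ℝ) (n : ℕ) (w : V → V) (x : V) : ℝ := rr n * ‖MV n w x‖ / κ n

lemma ff_nn (hD : Dat C κ) {n : ℕ} (hn : 2 ≤ n) (w : V → V) (x : V) : 0 ≤ ff κ n w x := by
  have h1 := hD.low n hn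
  have h2 := Pool.Agent.Y153.NS.rr_pos n
  unfold ff
  positivity

lemma mo_le (hD : Dat C κ) {n : ℕ} (hn : 2 ≤ n) {w : V → V} (hw : SPV w)
    (hd : ∀ x, ∑ i, pd i (fun y => w y i) x = 0) (x : V) :
    rr n * ‖mo (rr n) w x‖ ≤ ff κ n w x + 2 * C * (rr n ^ 2 * √(sg n w x)
      + rr n * (1 + energy w)) := by
  have h1 := hD.low n hn
  have hr := Pool.Agent.Y153.NS.rr_pos n
  have h2 := hD.cmp n hn w hw hd x
  have h3 := hD.one
  have hen := energy_nn w
  have h4 : κ n * ‖mo (rr n) w x‖ ≤ ‖MV n w x‖ + ‖MV n w x - κ n • mo (rr n) w x‖ := by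
    have h5 : κ n * ‖mo (rr n) w x‖ = ‖κ n • mo (rr n) w x‖ := by
      rw [norm_smul, Real.norm_eq_abs, abs_of_pos (by linarith)]
    have h6 : κ n • mo (rr n) w x = MV n w x - (MV n w x - κ n • mo (rr n) w x) := by abel
    rw [h5]
    calc ‖κ n • mo (rr n) w x‖ = ‖MV n w x - (MV n w x - κ n • mo (rr n) w x)‖ := by rw [← h6]
      _ ≤ _ := norm_sub_le _ _
  unfold ff
  have hk : 0 < κ n := by linarith
  rw [← sub_nonneg]
  have h7 : 0 ≤ rr n * √(sg n w x) + (1 + energy w) := by positivity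
  have h8 : κ n * (rr n * ‖mo (rr n) w x‖) ≤ rr n * ‖MV n w x‖ +
      C * (rr n * (rr n * √(sg n w x) + (1 + energy w))) := by
    have := mul_le_mul_of_nonneg_left (h4.trans (add_le_add le_rfl h2)) hr.le
    linarith
  have h9 : κ n * (rr n * ‖MV n w x‖ / κ n + 2 * C * (rr n ^ 2 * √(sg n w x)
      + rr n * (1 + energy w)) - rr n * ‖mo (rr n) w x‖) = rr n * ‖MV n w x‖
      + (2 * κ n) * (C * (rr n * (rr n * √(sg n w x) + (1 + energy w))))
      - κ n * (rr n * ‖mo (rr n) w x‖) := by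
    field_simp
  have h10 : 0 ≤ C * (rr n * (rr n * √(sg n w x) + (1 + energy w))) := by positivity
  have h11 : 0 ≤ κ n * (rr n * ‖MV n w x‖ / κ n + 2 * C * (rr n ^ 2 * √(sg n w x)
      + rr n * (1 + energy w)) - rr n * ‖mo (rr n) w x‖) := by
    rw [h9]
    nlinarith
  exact nonneg_of_mul_nonneg_right h11 hk

lemma sg_succ (n : ℕ) (w : V → V) (x : V) : sg n w x ≤ 2 * sg (n + 1) w x := by
  unfold sg
  rw [Finset.sum_range_succ', mul_add, Finset.mul_sum]
  have h1 : ∀ k ∈ Finset.range n, (2 ^ k)⁻¹ * Pf (2 ^ k * rr n) w x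
      = 2 * ((2 ^ (k + 1))⁻¹ * Pf (2 ^ (k + 1) * rr (n + 1)) w x) := by
    intro k _
    have e : (2 : ℝ) ^ (k + 1) * rr (n + 1) = 2 ^ k * rr n := by
      unfold rr
      rw [pow_succ, pow_succ]
      field_simp
    rw [e, pow_succ, mul_inv]
    ring
  rw [Finset.sum_congr rfl h1]
  have h2 := Pf_nn (r := 2 ^ 0 * rr (n + 1))
    (by have := Pool.Agent.Y153.NS.rr_pos (n + 1); positivity) w x
  have : 0 ≤ 2 * ((2 ^ 0)⁻¹ * Pf (2 ^ 0 * rr (n + 1)) w x) := by positivity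
  linarith

lemma Pf_le_sg (n : ℕ) (hn : 1 ≤ n) (w : V → V) (x : V) : Pf (rr n) w x ≤ 2 * sg (n + 1) w x := by
  unfold sg
  have e : (2 : ℝ) ^ 1 * rr (n + 1) = rr n := by
    unfold rr
    rw [pow_succ]
    ring
  have h1 := Finset.single_le_sum (f := fun k => ((2 : ℝ) ^ k)⁻¹ * Pf (2 ^ k * rr (n + 1)) w x)
    (s := Finset.range (n + 1)) (fun k _ => mul_nonneg (by positivity)
      (Pf_nn (by have := Pool.Agent.Y153.NS.rr_pos (n + 1); positivity) w x))
    (Finset.mem_range.2 (by omega : 1 < n + 1))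
  beta_reduce at h1
  rw [e, pow_one] at h1
  linarith

/-- From one scale to the next, at one time. -/
lemma two_scales (hD : Dat C κ) {n : ℕ} (hn : 2 ≤ n) {w : V → V} (hw : SPV w)
    (hd : ∀ x, ∑ i, pd i (fun y => w y i) x = 0) (x : V) :
    ff κ (n + 1) w x ≤ 1 / 2 * ff κ n w x + 20 * C * (rr (n + 1) ^ 2 * √(sg (n + 1) w x)
      + rr (n + 1) * (1 + energy w)) := by
  have hn' : 2 ≤ n + 1 := by omega
  have h1 := hD.low (n + 1) hn'
  have hr := Pool.Agent.Y153.NS.rr_pos (n + 1)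
  have hC := hD.one
  have hen := energy_nn w
  have hrn : rr n = 2 * rr (n + 1) := by
    unfold rr
    rw [pow_succ]
    ring
  obtain ⟨S, hS⟩ : ∃ S, S = √(sg (n + 1) w x) := ⟨_, rfl⟩
  have hS0 : 0 ≤ S := by rw [hS]; exact Real.sqrt_nonneg _
  have hsn : √(sg n w x) ≤ 2 * S := by
    rw [hS]
    have h2 : √(sg n w x) ≤ √(2 ^ 2 * sg (n + 1) w x) := by
      apply Real.sqrt_le_sqrt
      have := sg_succ n w x
      have := sg_nn (n + 1) w x
      linarith
    rwa [Real.sqrt_mul (by norm_num), Real.sqrt_sq (by norm_num)] at h2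
  have hpn : √(Pf (rr n) w x) ≤ 2 * S := by
    rw [hS]
    have h2 : √(Pf (rr n) w x) ≤ √(2 ^ 2 * sg (n + 1) w x) := by
      apply Real.sqrt_le_sqrt
      have := Pf_le_sg n (by omega) w x
      have := sg_nn (n + 1) w x
      linarith
    rwa [Real.sqrt_mul (by norm_num), Real.sqrt_sq (by norm_num)] at h2
  -- the three comparisons
  have c1 := hD.cmp (n + 1) hn' w hw hd x
  rw [← hS] at c1
  have c2 := hD.nr w hw.1 (rr n) (rr (n + 1)) (by rw [hrn]; positivity)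
    (by rw [hrn]; linarith) x x (by rw [sub_self, norm_zero, hrn]; linarith)
  have c3 := mo_le hD hn hw hd x
  obtain ⟨a, ha⟩ : ∃ a, a = ‖mo (rr (n + 1)) w x‖ := ⟨_, rfl⟩
  obtain ⟨b, hb⟩ : ∃ b, b = ‖mo (rr n) w x‖ := ⟨_, rfl⟩
  have hab : a ≤ b + C * (rr n * √(Pf (rr n) w x)) := by
    rw [ha, hb]
    have : mo (rr (n + 1)) w x = mo (rr n) w x + (mo (rr (n + 1)) w x - mo (rr n) w x) := by abel
    calc ‖mo (rr (n + 1)) w x‖ = ‖mo (rr n) w x + (mo (rr (n + 1)) w x - mo (rr n) w x)‖ := by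
          rw [← this]
      _ ≤ _ := (norm_add_le _ _).trans (add_le_add le_rfl c2)
  have hM : ‖MV (n + 1) w x‖ ≤ κ (n + 1) * a + C * (rr (n + 1) * S + (1 + energy w)) := by
    have h5 : κ (n + 1) * a = ‖κ (n + 1) • mo (rr (n + 1)) w x‖ := by
      rw [norm_smul, Real.norm_eq_abs, abs_of_pos (by linarith), ha]
    have : MV (n + 1) w x = κ (n + 1) • mo (rr (n + 1)) w x
      + (MV (n + 1) w x - κ (n + 1) • mo (rr (n + 1)) w x) := by abel
    rw [h5]
    calc ‖MV (n + 1) w x‖ = ‖κ (n + 1) • mo (rr (n + 1)) w x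
          + (MV (n + 1) w x - κ (n + 1) • mo (rr (n + 1)) w x)‖ := by rw [← this]
      _ ≤ _ := (norm_add_le _ _).trans (add_le_add le_rfl c1)
  have hk : 0 < κ (n + 1) := by linarith
  have hf : ff κ (n + 1) w x ≤ rr (n + 1) * a
      + 2 * (C * (rr (n + 1) * (rr (n + 1) * S + (1 + energy w)))) := by
    unfold ff
    rw [div_le_iff₀ hk]
    have h7 : 0 ≤ C * (rr (n + 1) * (rr (n + 1) * S + (1 + energy w))) := by positivity
    have h8 := mul_le_mul_of_nonneg_left hM hr.le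
    nlinarith
  rw [← hb] at c3
  have hrn0 : 0 ≤ rr n := by rw [hrn]; positivity
  have c4 : rr n * b ≤ ff κ n w x + 2 * C * (rr n ^ 2 * (2 * S) + rr n * (1 + energy w)) := by
    refine c3.trans ?_
    gcongr
  have c5 : C * (rr n * √(Pf (rr n) w x)) ≤ C * (rr n * (2 * S)) := by gcongr
  have c6 : rr (n + 1) * a ≤ rr (n + 1) * b + rr (n + 1) * (C * (rr n * (2 * S))) := by
    have := mul_le_mul_of_nonneg_left (hab.trans (add_le_add le_rfl c5)) hr.le
    linarith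
  rw [hrn] at c4 c6
  rw [← hS]
  have h9 : 0 ≤ C * (rr (n + 1) ^ 2 * S) := by positivity
  have h10 : 0 ≤ C * (rr (n + 1) * (1 + energy w)) := by positivity
  nlinarith

end

end Pool.Agent.V1182
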