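import Pool.Agent.V1182.Cov
import Pool.Agent.V1182.Def
import Pool.Agent.Y96.NS.Scal
import Pool.Agent.TH305.LG.Peri0

/-!
The measure of the singular set for gauges (helper82).
-/

set_option autoImplicit false

open MeasureTheory Set Metric Filter Topology
open scoped ContDiff ENNReal NNReal

namespace Pool.Agent.V1182

open H459R3.NS W221.NS Pool.Agent.Y8

lemma GNull.mono {h : ℝ → ℝ} {S S' : Set (ℝ × V)} (hS : GNull h S) (hs : S' ⊆ S) : GNull h S' := by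
  intro ε δ hε hδ
  obtain ⟨ι, hι, c, r, h1, h2, h3⟩ := hS ε δ hε hδ
  exact ⟨ι, hι, c, r, h1, h2, fun z hz => h3 z (hs hz)⟩

lemma GNull.iUnion {h : ℝ → ℝ} {κ : Type} [Countable κ] {S : κ → Set (ℝ × V)}
    (hS : ∀ k, GNull h (S k)) : GNull h (⋃ k, S k) := by
  intro ε δ hε hδ
  obtain ⟨ε', hε'0, hε's⟩ := ENNReal.exists_pos_sum_of_countable
    (ENNReal.ofReal_pos.2 hε).ne' κ
  choose ι hι c r h1 h2 h3 using fun k => hS k (ε' k) δ (by exact_mod_cast hε'0 k) hδ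
  have := hι
  refine ⟨Σ k, ι k, inferInstance, fun q => c q.1 q.2, fun q => r q.1 q.2, fun q => h1 q.1 q.2,
    ?_, fun z hz => ?_⟩
  · refine (ENNReal.tsum_sigma (fun k i => ENNReal.ofReal (h (r k i)))).le.trans ?_
    refine le_trans (ENNReal.tsum_le_tsum fun k => ?_) hε's.le
    refine (h2 k).trans (le_of_eq ?_)
    rw [ENNReal.ofReal_coe_nnreal]
  · obtain ⟨k, hk⟩ := mem_iUnion.1 hz
    obtain ⟨i, hi⟩ := h3 k z hk
    exact ⟨⟨k, i⟩, hi⟩

/-- Only the small radii matter. -/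
lemma GNull.congr {h h' : ℝ → ℝ} {S : Set (ℝ × V)} {r₀ : ℝ} (hr₀ : 0 < r₀)
    (he : ∀ r, 0 < r → r ≤ r₀ → h r = h' r) (hS : GNull h' S) : GNull h S := by
  intro ε δ hε hδ
  obtain ⟨ι, hι, c, r, h1, h2, h3⟩ := hS ε (min δ r₀) hε (lt_min hδ hr₀)
  refine ⟨ι, hι, c, r, fun i => ⟨(h1 i).1, (h1 i).2.trans (min_le_left _ _)⟩, ?_, h3⟩
  refine le_trans (le_of_eq ?_) h2
  exact tsum_congr fun i => by rw [he _ (h1 i).1 ((h1 i).2.trans (min_le_right _ _))]

/-- Translations in space. -/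
lemma GNull.trans {h : ℝ → ℝ} {S : Set (ℝ × V)} (hS : GNull h S) (a : V) :
    GNull h {z | (z.1, z.2 - a) ∈ S} := by
  intro ε δ hε hδ
  obtain ⟨ι, hι, c, r, h1, h2, h3⟩ := hS ε δ hε hδ
  refine ⟨ι, hι, fun i => ((c i).1, (c i).2 + a), r, h1, h2, fun z hz => ?_⟩
  obtain ⟨i, hi1, hi2⟩ := h3 _ hz
  refine ⟨i, hi1, ?_⟩
  have : z.2 - ((c i).2 + a) = z.2 - a - (c i).2 := by abel
  rw [this]
  exact hi2

/-- Scaling in time. -/
lemma GNull.scale {h : ℝ → ℝ} {S : Set (ℝ × V)} (hS : GNull h S) {ν : ℝ} (hν : 0 < ν) :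
    GNull h {z | (ν * z.1, z.2) ∈ S} := by
  intro ε δ hε hδ
  obtain ⟨K, hK⟩ : ∃ K : ℤ, 1 / ν + 1 ≤ K := ⟨⌈1 / ν + 1⌉, Int.le_ceil _⟩
  have hcard : (0 : ℝ) < (Finset.Icc (-K) K).card := by
    have hK0 : 0 < K := by
      have : (0 : ℝ) < K := lt_of_lt_of_le (by positivity) hK
      exact_mod_cast this
    have : (Finset.Icc (-K) K).Nonempty := ⟨0, Finset.mem_Icc.2 ⟨by omega, by omega⟩⟩
    exact_mod_cast Finset.card_pos.2 this
  obtain ⟨ι, hι, c, r, h1, h2, h3⟩ := hS (ε / (Finset.Icc (-K) K).card) δ (by positivity) hδ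
  refine ⟨Finset.Icc (-K) K × ι, inferInstance, fun q => ((c q.2).1 / ν + q.1 * r q.2 ^ 2,
    (c q.2).2), fun q => r q.2, fun q => h1 q.2, ?_, fun z hz => ?_⟩
  · refine (ENNReal.tsum_prod (f := fun (_ : Finset.Icc (-K) K) (i : ι) =>
      ENNReal.ofReal (h (r i)))).le.trans ?_
    rw [tsum_fintype]
    simp only [Finset.sum_const, Finset.card_univ, Fintype.card_coe, nsmul_eq_mul]
    refine (mul_le_mul_right h2 _).trans (le_of_eq ?_)
    rw [← ENNReal.ofReal_natCast, ← ENNReal.ofReal_mul hcard.le]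
    congr 1
    field_simp
  · obtain ⟨i, hi1, hi2⟩ := h3 _ hz
    have hr := (h1 i).1
    have hr2 : 0 < r i ^ 2 := by positivity
    obtain ⟨d, hd⟩ : ∃ d, d = z.1 - (c i).1 / ν := ⟨_, rfl⟩
    have hd1 : |d| < r i ^ 2 / ν := by
      have e : d = (ν * z.1 - (c i).1) / ν := by
        rw [hd]
        field_simp
      rw [e, abs_div, abs_of_pos hν]
      exact div_lt_div_of_pos_right hi1 hν
    obtain ⟨k, hk⟩ : ∃ k, k = ⌊d / r i ^ 2⌋ := ⟨_, rfl⟩
    have hk1 : (k : ℝ) ≤ d / r i ^ 2 := by rw [hk]; exact Int.floor_le _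
    have hk2 : d / r i ^ 2 < k + 1 := by rw [hk]; exact Int.lt_floor_add_one _
    have hq : |d / r i ^ 2| < 1 / ν := by
      rw [abs_div, abs_of_pos hr2, div_lt_iff₀ hr2]
      refine hd1.trans_le (le_of_eq ?_)
      ring
    rw [abs_lt] at hq
    have hkK : k ∈ Finset.Icc (-K) K := by
      rw [Finset.mem_Icc]
      constructor
      · have : (-K : ℝ) ≤ k := by linarith
        exact_mod_cast this
      · have : (k : ℝ) ≤ K := by linarith
        exact_mod_cast this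
    refine ⟨(⟨k, hkK⟩, i), ?_, hi2⟩
    show |z.1 - ((c i).1 / ν + k * r i ^ 2)| < r i ^ 2
    have e : z.1 - ((c i).1 / ν + k * r i ^ 2) = (d / r i ^ 2 - k) * r i ^ 2 := by
      rw [hd]
      field_simp
      ring
    rw [e, abs_mul, abs_of_pos hr2]
    have h4 : |d / r i ^ 2 - k| < 1 := by
      rw [abs_lt]
      constructor <;> linarith
    nlinarith

/-! ### The gauge -/

section

variable {h : ℝ → ℝ} {r₀ : ℝ}

/-- The series of the gauge. -/
lemma div_series (hpos : ∀ r, 0 < r → 0 < h r)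
    (hmono : ∀ r s, 0 < r → r ≤ s → h s / s ≤ h r / r) (r₀ : ℝ)
    (hint : ∫⁻ r in Ioc 0 r₀, ENNReal.ofReal (1 / h r) = ⊤) :
    ¬ Summable fun n => rr n / h (rr n) := by
  intro hs
  obtain ⟨R, hR⟩ : ∃ R, R = max r₀ 1 := ⟨_, rfl⟩
  have hR1 : 1 ≤ R := by rw [hR]; exact le_max_right _ _
  have key : ∀ r s, 0 < r → r ≤ s → 1 / h r ≤ s / h s / r := by
    intro r s hr hrs
    have h1 := hmono r s hr hrs
    have h2 := hpos r hr
    have h3 := hpos s (hr.trans_le hrs)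
    have hs0 := hr.trans_le hrs
    rw [div_le_div_iff₀ hs0 hr] at h1
    rw [div_div, div_le_div_iff₀ h2 (by positivity)]
    linarith
  have hsub : Ioc 0 r₀ ⊆ (⋃ n : ℕ, Ioc (rr (n + 1)) (rr n)) ∪ Ioc 1 R := by
    intro r hr
    rcases le_or_gt r 1 with h1 | h1
    · left
      have hex : ∃ n : ℕ, rr n < r := by
        obtain ⟨n, hn⟩ := exists_pow_lt_of_lt_one hr.1 (by norm_num : (1 / 2 : ℝ) < 1)
        exact ⟨n, hn⟩
      classical
      obtain ⟨n, hn⟩ : ∃ n, n = Nat.find hex := ⟨_, rfl⟩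
      have hn1 : rr n < r := by rw [hn]; exact Nat.find_spec hex
      have hn0 : n ≠ 0 := by
        rintro rfl
        unfold rr at hn1
        simp at hn1
        linarith
      obtain ⟨m, rfl⟩ := Nat.exists_eq_succ_of_ne_zero hn0
      have hm : ¬ rr m < r := Nat.find_min hex (by omega)
      exact mem_iUnion.2 ⟨m, hn1, not_lt.1 hm⟩
    · right
      exact ⟨h1, hr.2.trans (by rw [hR]; exact le_max_left _ _)⟩
  have h1 : ∀ n : ℕ, ∫⁻ r in Ioc (rr (n + 1)) (rr n), ENNReal.ofReal (1 / h r)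
      ≤ ENNReal.ofReal (rr n / h (rr n)) := by
    intro n
    have hr := rr_pos' n
    have hr' := rr_pos' (n + 1)
    have hh := hpos _ hr
    have e : rr (n + 1) = rr n / 2 := by
      unfold rr
      rw [pow_succ]
      ring
    calc ∫⁻ r in Ioc (rr (n + 1)) (rr n), ENNReal.ofReal (1 / h r)
        ≤ ∫⁻ _ in Ioc (rr (n + 1)) (rr n), ENNReal.ofReal (rr n / h (rr n) / rr (n + 1)) := by
          refine setLIntegral_mono' measurableSet_Ioc fun r hr1 => ?_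
          apply ENNReal.ofReal_le_ofReal
          refine (key r (rr n) (hr'.trans hr1.1) hr1.2).trans ?_
          have := hr1.1.le
          gcongr
      _ = ENNReal.ofReal (rr n / h (rr n) / rr (n + 1)) * ENNReal.ofReal (rr n - rr (n + 1)) := by
          rw [setLIntegral_const, Real.volume_Ioc]
      _ = ENNReal.ofReal (rr n / h (rr n)) := by
          rw [← ENNReal.ofReal_mul (by positivity), e]
          congr 1
          field_simp
          ring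
  have h2 : ∫⁻ r in Ioc 1 R, ENNReal.ofReal (1 / h r) < ⊤ := by
    have hh := hpos R (by linarith)
    calc ∫⁻ r in Ioc 1 R, ENNReal.ofReal (1 / h r)
        ≤ ∫⁻ _ in Ioc 1 R, ENNReal.ofReal (R / h R) := by
          refine setLIntegral_mono' measurableSet_Ioc fun r hr1 => ?_
          apply ENNReal.ofReal_le_ofReal
          refine (key r R (by linarith [hr1.1]) hr1.2).trans ?_
          have h3 : 0 ≤ R / h R := by positivity
          exact div_le_self h3 hr1.1.le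
      _ < ⊤ := by
          rw [setLIntegral_const, Real.volume_Ioc]
          exact ENNReal.mul_lt_top ENNReal.ofReal_lt_top ENNReal.ofReal_lt_top
  have h3 : ∫⁻ r in ⋃ n : ℕ, Ioc (rr (n + 1)) (rr n), ENNReal.ofReal (1 / h r) < ⊤ := by
    refine (lintegral_iUnion_le _ _).trans_lt ?_
    refine (ENNReal.tsum_le_tsum h1).trans_lt ?_
    rw [← ENNReal.ofReal_tsum_of_nonneg (fun n => (div_pos (rr_pos' n) (hpos _ (rr_pos' n))).le) hs]
    exact ENNReal.ofReal_lt_top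
  have h4 : ∫⁻ r in Ioc 0 r₀, ENNReal.ofReal (1 / h r) < ⊤ := by
    refine (lintegral_mono_set hsub).trans_lt ?_
    refine (lintegral_union_le _ _ _).trans_lt ?_
    exact ENNReal.add_lt_top.2 ⟨h3, h2⟩
  rw [hint] at h4
  exact lt_irrefl _ h4

/-- The extension of the gauge. -/
noncomputable def hx (h : ℝ → ℝ) (r₀ : ℝ) (r : ℝ) : ℝ := h (min r r₀) * (r / min r r₀)

lemma hx_eq (h : ℝ → ℝ) {r : ℝ} (hr : 0 < r) (hr' : r ≤ r₀) : hx h r₀ r = h r := by
  unfold hx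
  rw [min_eq_left hr', div_self hr.ne', mul_one]

lemma hx_pos (hr₀ : 0 < r₀) (hpos : ∀ r, 0 < r → r ≤ r₀ → 0 < h r) {r : ℝ} (hr : 0 < r) :
    0 < hx h r₀ r := by
  have h1 : 0 < min r r₀ := lt_min hr hr₀
  unfold hx
  exact mul_pos (hpos _ h1 (min_le_right _ _)) (div_pos hr h1)

lemma hx_mono (hr₀ : 0 < r₀) (hmono : ∀ r s, 0 < r → r ≤ s → s ≤ r₀ → h s / s ≤ h r / r)
    {r s : ℝ} (hr : 0 < r) (hrs : r ≤ s) : hx h r₀ s / s ≤ hx h r₀ r / r := by
  have hs : 0 < s := hr.trans_le hrs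
  have h1 : 0 < min r r₀ := lt_min hr hr₀
  have h2 : 0 < min s r₀ := lt_min hs hr₀
  have h3 := hmono (min r r₀) (min s r₀) h1 (min_le_min_right _ hrs) (min_le_right _ _)
  have e1 : hx h r₀ s / s = h (min s r₀) / min s r₀ := by
    unfold hx
    field_simp
  have e2 : hx h r₀ r / r = h (min r r₀) / min r r₀ := by
    unfold hx
    field_simp
  rw [e1, e2]
  exact h3

end

/-! ### The theorem -/

lemma sing_trans {ν T E D : ℝ} {G : Set ℝ} {u : ℝ → V → V} {p : ℝ → V → ℝ}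
    (hT : Turb ν T E D G u p) {t : ℝ} {x : V} (hs : SingPt G u t x) (n : Fin 3 → ℤ) :
    SingPt G u t (x - Pool.Agent.TH305.LG.iv n) := by
  intro δ hδ B
  obtain ⟨s, hs, h1, y, hy, h2⟩ := hs δ hδ B
  refine ⟨s, hs, h1, y - Pool.Agent.TH305.LG.iv n, ?_, ?_⟩
  · rw [mem_ball, dist_eq_norm] at hy ⊢
    have : y - Pool.Agent.TH305.LG.iv n - (x - Pool.Agent.TH305.LG.iv n) = y - x := by abel
    rw [this]
    exact hy
  · rw [Pool.Agent.TH305.LG.per_iv' (hT.per_u s hs) n y]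
    exact h2

/-- The theorem for the viscosity one and a global gauge. -/
theorem gauge1 {T E D : ℝ} {G : Set ℝ} {u : ℝ → V → V} {p : ℝ → V → ℝ} (hT : Turb 1 T E D G u p)
    {h : ℝ → ℝ} (hpos : ∀ r, 0 < r → 0 < h r) (hmono : ∀ r s, 0 < r → r ≤ s → h s / s ≤ h r / r)
    {r₀ : ℝ} (hint : ∫⁻ r in Ioc 0 r₀, ENNReal.ofReal (1 / h r) = ⊤) :
    GNull h {z | z.1 ∈ Ioo 0 T ∧ SingPt G u z.1 z.2} := by
  have hdiv := div_series hpos hmono r₀ hint
  -- the compact pieces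
  have hK : ∀ k : ℕ, GNull h {z | z.1 ∈ Icc (1 / (k + 1 : ℝ)) (T - 1 / (k + 1 : ℝ)) ∧
      (∀ i, 0 ≤ z.2 i ∧ z.2 i ≤ 1) ∧ SingPt G u z.1 z.2} := by
    intro k ε δ hε hδ
    have hk : (0 : ℝ) < 1 / (k + 1 : ℝ) := by positivity
    obtain ⟨Z, h1, h2, h3⟩ := cov1 hT hk (show T - 1 / (k + 1 : ℝ) < T by linarith)
      (h := fun n => h (rr n)) (fun n => hpos _ (rr_pos' n)) (fun n => by
        have e1 : rr (n + 1) ≤ rr n := by
          unfold rr
          exact pow_le_pow_of_le_one (by norm_num) (by norm_num) (Nat.le_succ n)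
        have e2 := hmono (rr (n + 1)) (rr n) (rr_pos' _) e1
        have a1 := hpos _ (rr_pos' n)
        have a2 := hpos _ (rr_pos' (n + 1))
        have a3 := rr_pos' n
        have a4 := rr_pos' (n + 1)
        rw [div_le_div_iff₀ a3 a4] at e2
        rw [div_le_div_iff₀ a2 a1]
        linarith) hdiv hε hδ
    refine ⟨Z, inferInstance, fun q => q.1.1, fun q => rr q.1.2, fun q => ⟨rr_pos' _, h1 _ q.2⟩,
      ?_, fun z hz => ?_⟩
    · rw [tsum_fintype, Finset.sum_coe_sort Z (fun q => ENNReal.ofReal (h (rr q.2))),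
        ← ENNReal.ofReal_sum_of_nonneg fun q _ => (hpos _ (rr_pos' _)).le]
      exact ENNReal.ofReal_le_ofReal h2
    · obtain ⟨q, hq, h4⟩ := h3 z hz.1 hz.2.1 hz.2.2
      exact ⟨⟨q, hq⟩, h4⟩
  have hU := GNull.iUnion (κ := ℕ × (Fin 3 → ℤ)) fun q => (hK q.1).trans
    (Pool.Agent.TH305.LG.iv q.2)
  refine hU.mono ?_
  rintro ⟨t, x⟩ ⟨ht, hs⟩
  obtain ⟨k, hk⟩ := exists_nat_one_div_lt (show 0 < min t (T - t) from
    lt_min ht.1 (by linarith [ht.2]))
  have hk1 : 1 / (k + 1 : ℝ) ≤ t := hk.le.trans (min_le_left _ _)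
  have hk2 : 1 / (k + 1 : ℝ) ≤ T - t := hk.le.trans (min_le_right _ _)
  refine mem_iUnion.2 ⟨(k, fun i => ⌊x i⌋), ⟨hk1, by linarith⟩, fun i => ?_, ?_⟩
  · show 0 ≤ x i - (⌊x i⌋ : ℝ) ∧ x i - (⌊x i⌋ : ℝ) ≤ 1
    have h1 := Int.floor_le (x i)
    have h2 := Int.lt_floor_add_one (x i)
    constructor <;> linarith
  · exact sing_trans hT hs _

/-- The theorem. -/
theorem gauge (ν T E D : ℝ) (G : Set ℝ) (u : ℝ → V → V) (p : ℝ → V → ℝ) (hν : 0 < ν)
    (hT : Turb ν T E D G u p) (r₀ : ℝ) (h : ℝ → ℝ) (hr₀ : 0 < r₀)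
    (hpos : ∀ r, 0 < r → r ≤ r₀ → 0 < h r)
    (hmono : ∀ r s, 0 < r → r ≤ s → s ≤ r₀ → h s / s ≤ h r / r)
    (hint : ∫⁻ r in Ioc 0 r₀, ENNReal.ofReal (1 / h r) = ⊤) :
    GNull h {z | z.1 ∈ Ioo 0 T ∧ SingPt G u z.1 z.2} := by
  refine GNull.congr (h' := hx h r₀) hr₀ (fun r hr hr' => (hx_eq h hr hr').symm) ?_
  obtain ⟨hT1, hS1⟩ := Pool.Agent.Y96.NS.t_WSCAL ν T E D G u p hν hT
  have hint' : ∫⁻ r in Ioc 0 r₀, ENNReal.ofReal (1 / hx h r₀ r) = ⊤ := by
    rw [← hint]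
    refine setLIntegral_congr_fun measurableSet_Ioc fun r hr => ?_
    rw [hx_eq h hr.1 hr.2]
  have h1 := (gauge1 hT1 (h := hx h r₀) (fun r hr => hx_pos hr₀ hpos hr)
    (fun r s hr hrs => hx_mono hr₀ hmono hr hrs) hint').scale hν
  refine h1.mono fun z hz => ⟨?_, hS1 z.1 z.2 hz.2⟩
  show ν * z.1 ∈ Ioo 0 (ν * T)
  have h2 := hz.1
  exact ⟨mul_pos hν h2.1, mul_lt_mul_of_pos_left h2.2 hν⟩

end Pool.Agent.V1182
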