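import Pool.Agent.V1182.Osc
import Pool.Agent.Y153.NS.HBD
import Pool.Agent.Y458.NS.MC

/-!
The time derivative of the local mean velocity, and the comparison of the two local means, by the
gradient to the power `12/7` (helper82).
-/

set_option autoImplicit false

open MeasureTheory Set Metric Filter Topology
open scoped ContDiff ENNReal NNReal

namespace Pool.Agent.V1182

open H459R3.NS W221.NS Pool.Agent.W12.MD Pool.Agent.Y8 Pool.Agent.Y153.NS Pool.Agent.W583.MD

/-- The normalised functional. -/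
noncomputable def bf (u : V → V) (x : V) (r : ℝ) (j : ℕ) : ℝ :=
  (2 ^ j * r) ^ 2 * Pf (2 ^ j * r) u x

lemma bf_nn (u : V → V) (x : V) {r : ℝ} (hr : 0 < r) (j : ℕ) : 0 ≤ bf u x r j :=
  mul_nonneg (by positivity) (Pf_nn (by positivity) _ _)

theorem tele' : ∃ C : ℝ, 0 < C ∧ ∀ u : V → V, ContDiff ℝ ∞ u → ∀ (x : V) (r : ℝ), 0 < r →
    ∀ (i : Fin 3) (k : ℕ), (mo (2 ^ k * r) u x i - mo r u x i) ^ 2 ≤
      C * ∑ j ∈ Finset.range (k + 1), (3 / 2 : ℝ) ^ (k - j) * bf u x r j := by
  obtain ⟨K, hK, hm⟩ := mo_near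
  refine ⟨3 * K ^ 2, by positivity, fun u hu x r hr i k => ?_⟩
  induction k with
  | zero =>
    have := bf_nn u x hr 0
    simp
    positivity
  | succ k ih =>
    have h1 := hm u hu (2 ^ (k + 1) * r) (2 ^ k * r) (by positivity) (by
      rw [pow_succ]
      have : 0 < 2 ^ k * r := by positivity
      linarith) x x (by
      rw [sub_self, norm_zero, pow_succ]
      have : 0 < 2 ^ k * r := by positivity
      linarith)
    have h1' : |mo (2 ^ k * r) u x i - mo (2 ^ (k + 1) * r) u x i| ≤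
        K * (2 ^ (k + 1) * r * √(Pf (2 ^ (k + 1) * r) u x)) := by
      refine le_trans ?_ h1
      have := norm_le_pi_norm (mo (2 ^ k * r) u x - mo (2 ^ (k + 1) * r) u x) i
      rwa [Real.norm_eq_abs, Pi.sub_apply] at this
    have h2 : (mo (2 ^ k * r) u x i - mo (2 ^ (k + 1) * r) u x i) ^ 2 ≤
        K ^ 2 * bf u x r (k + 1) := by
      rw [← sq_abs]
      refine (pow_le_pow_left₀ (abs_nonneg _) h1' 2).trans (le_of_eq ?_)
      unfold bf
      rw [mul_pow, mul_pow (2 ^ (k + 1) * r), Real.sq_sqrt (Pf_nn (by positivity) _ _)]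
    have h5 : (mo (2 ^ (k + 1) * r) u x i - mo r u x i) ^ 2 ≤
        3 / 2 * (mo (2 ^ k * r) u x i - mo r u x i) ^ 2 +
          3 * (mo (2 ^ k * r) u x i - mo (2 ^ (k + 1) * r) u x i) ^ 2 := by
      nlinarith [sq_nonneg ((mo (2 ^ k * r) u x i - mo r u x i) +
        2 * (mo (2 ^ k * r) u x i - mo (2 ^ (k + 1) * r) u x i))]
    rw [Finset.sum_range_succ]
    have e2 : ∑ j ∈ Finset.range (k + 1), (3 / 2 : ℝ) ^ (k + 1 - j) * bf u x r j =
        3 / 2 * ∑ j ∈ Finset.range (k + 1), (3 / 2 : ℝ) ^ (k - j) * bf u x r j := by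
      rw [Finset.mul_sum]
      refine Finset.sum_congr rfl fun j hj => ?_
      have : k + 1 - j = (k - j) + 1 := by
        have := Finset.mem_range.1 hj
        omega
      rw [this, pow_succ]
      ring
    rw [e2]
    have e3 : k + 1 - (k + 1) = 0 := by omega
    rw [e3, pow_zero, one_mul]
    linarith

/-- The oscillation around the mean at the scale `r` on larger balls. -/
theorem dypo' : ∃ C : ℝ, 0 < C ∧ ∀ u : V → V, ContDiff ℝ ∞ u → ∀ (x : V) (r : ℝ), 0 < r →
    ∀ k : ℕ, A2 x (2 ^ k * r) (fun y => u y - mo r u x) ≤ C * (2 ^ k * r) ^ 3 *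
      ∑ j ∈ Finset.range (k + 1), (3 / 2) ^ (k - j) * ((2 ^ j * r)⁻¹ *
        ((2 ^ j * r) ^ 3 * Pf (2 ^ j * r) u x)) := by
  obtain ⟨K, hK, ho⟩ := osc2
  obtain ⟨C, hC, ht⟩ := tele'
  refine ⟨2 * K + 48 * C, by positivity, fun u hu x r hr k => ?_⟩
  have e0 : ∀ j : ℕ, (2 ^ j * r)⁻¹ * ((2 ^ j * r) ^ 3 * Pf (2 ^ j * r) u x) = bf u x r j := by
    intro j
    unfold bf
    field_simp
  simp_rw [e0]
  obtain ⟨R, hR⟩ : ∃ R, R = 2 ^ k * r := ⟨_, rfl⟩
  have hR0 : 0 < R := by rw [hR]; positivity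
  have h1 := Pool.Agent.Y496.NS.A2_split hu x hR0 (mo r u x) (mo R u x)
  have h2 : A2 x R (fun y => u y - mo R u x) ≤ K * (R ^ 3 * bf u x r k) := by
    refine (Pool.Agent.Y496.NS.A2_mono (Pool.Agent.Y496.NS.sub_sm hu _)
      (ball_subset_ball (by linarith : R ≤ 4 * R))).trans ?_
    refine (ho u hu R hR0 x x (by rw [sub_self, norm_zero]; positivity)).trans (le_of_eq ?_)
    unfold bf
    rw [← hR]
    ring
  obtain ⟨S, hS⟩ : ∃ S, S = ∑ j ∈ Finset.range (k + 1), (3 / 2 : ℝ) ^ (k - j) * bf u x r j :=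
    ⟨_, rfl⟩
  have hbS : bf u x r k ≤ S := by
    rw [hS]
    have := Finset.single_le_sum (f := fun j => (3 / 2 : ℝ) ^ (k - j) * bf u x r j)
      (s := Finset.range (k + 1)) (fun j _ => mul_nonneg (by positivity) (bf_nn u x hr j))
      (Finset.mem_range.2 (Nat.lt_succ_self k))
    simpa using this
  have hS0 : 0 ≤ S := (bf_nn u x hr k).trans hbS
  have h3 : ∑ i, (mo R u x i - mo r u x i) ^ 2 ≤ 3 * (C * S) := by
    have : ∑ i : Fin 3, (mo R u x i - mo r u x i) ^ 2 ≤ ∑ _i : Fin 3, C * S :=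
      Finset.sum_le_sum fun i _ => by
        rw [hS, hR]
        exact ht u hu x r hr i k
    simpa using this
  rw [← hS, ← hR]
  calc A2 x R (fun y => u y - mo r u x)
      ≤ 2 * (K * (R ^ 3 * bf u x r k)) + 2 * (2 * R) ^ 3 * (3 * (C * S)) := by
        refine h1.trans ?_
        gcongr
    _ ≤ 2 * (K * (R ^ 3 * S)) + 2 * (2 * R) ^ 3 * (3 * (C * S)) := by gcongr
    _ = (2 * K + 48 * C) * R ^ 3 * S := by ring

/-- The sum over the scales with decaying weights. -/
noncomputable def sg (n : ℕ) (u : V → V) (x : V) : ℝ :=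
  ∑ k ∈ Finset.range n, (2 ^ k)⁻¹ * Pf (2 ^ k * rr n) u x

/-- The sum over the scales with growing weights. -/
noncomputable def lm (n : ℕ) (u : V → V) (x : V) : ℝ :=
  ∑ k ∈ Finset.range n, 2 ^ k * Pf (2 ^ k * rr n) u x

lemma sg_nn (n : ℕ) (u : V → V) (x : V) : 0 ≤ sg n u x :=
  Finset.sum_nonneg fun k _ => mul_nonneg (by positivity)
    (Pf_nn (by have := rr_pos n; positivity) _ _)

lemma lm_nn (n : ℕ) (u : V → V) (x : V) : 0 ≤ lm n u x :=
  Finset.sum_nonneg fun k _ => mul_nonneg (by positivity)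
    (Pf_nn (by have := rr_pos n; positivity) _ _)

lemma sg_le_lm (n : ℕ) (u : V → V) (x : V) : sg n u x ≤ lm n u x := by
  refine Finset.sum_le_sum fun k _ => ?_
  apply mul_le_mul_of_nonneg_right _ (Pf_nn (by have := rr_pos n; positivity) _ _)
  have h1 : (1 : ℝ) ≤ 2 ^ k := one_le_pow₀ (by norm_num)
  exact (inv_le_one_of_one_le₀ h1).trans h1

/-- The weighted oscillation is bounded by the functional. -/
theorem osc_le' : ∃ C : ℝ, 0 < C ∧ ∀ u : V → V, ContDiff ℝ ∞ u → ∀ n : ℕ, 1 ≤ n →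
    ∀ x : V, W2 n x (fun y => u y - mo (rr n) u x) ≤ C * (rr n * sg n u x) ∧
      ∑ k ∈ Finset.range n, ((2 ^ k * rr n) ^ 4)⁻¹ *
        A2 x (2 ^ k * rr n) (fun y => u y - mo (rr n) u x) ≤ C * (rr n * lm n u x) := by
  obtain ⟨C, hC, h⟩ := dypo'
  refine ⟨256 * C, by positivity, fun u hu n hn x => ?_⟩
  have hr := rr_pos n
  have hB : ∀ j : ℕ, 0 ≤ (2 ^ j * rr n) ^ 3 * Pf (2 ^ j * rr n) u x := fun j =>
    mul_nonneg (by positivity) (Pf_nn (by positivity) _ _)
  constructor
  · have h1 := dy_all hn 6 x (nsq_sm (Pool.Agent.Y496.NS.sub_sm hu (mo (rr n) u x))).continuous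
      (nsq_nn (fun y => u y - mo (rr n) u x))
    have h2 := dypo_sum hC hr 2 (fun k => A2 x (2 ^ k * rr n) (fun y => u y - mo (rr n) u x))
      (fun j => (2 ^ j * rr n) ^ 3 * Pf (2 ^ j * rr n) u x) hB (fun k => h u hu x (rr n) hr k) n
    calc W2 n x (fun y => u y - mo (rr n) u x)
        ≤ rr n ^ 2 * (2 ^ 6 * (4 * C * ∑ j ∈ Finset.range n, ((2 ^ j * rr n) ^ (2 + 2))⁻¹ *
          ((2 ^ j * rr n) ^ 3 * Pf (2 ^ j * rr n) u x))) := by
          unfold W2
          refine mul_le_mul_of_nonneg_left (h1.trans ?_) (by positivity)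
          exact mul_le_mul_of_nonneg_left h2 (by positivity)
      _ = 256 * C * (rr n * sg n u x) := by
          unfold sg
          rw [Finset.mul_sum, Finset.mul_sum, Finset.mul_sum, Finset.mul_sum, Finset.mul_sum]
          refine Finset.sum_congr rfl fun j _ => ?_
          field_simp
          ring
  · have h2 := dypo_sum hC hr 0 (fun k => A2 x (2 ^ k * rr n) (fun y => u y - mo (rr n) u x))
      (fun j => (2 ^ j * rr n) ^ 3 * Pf (2 ^ j * rr n) u x) hB (fun k => h u hu x (rr n) hr k) n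
    refine h2.trans ?_
    have e : ∑ j ∈ Finset.range n, ((2 ^ j * rr n) ^ (0 + 2))⁻¹ *
        ((2 ^ j * rr n) ^ 3 * Pf (2 ^ j * rr n) u x) = rr n * lm n u x := by
      unfold lm
      rw [Finset.mul_sum]
      refine Finset.sum_congr rfl fun j _ => ?_
      field_simp
      ring
    rw [e]
    have := mul_nonneg hr.le (lm_nn n u x)
    exact mul_le_mul_of_nonneg_right (by linarith) this

/-- The bound of the time derivative of the mean velocity. -/
theorem hb (hK : S_KER2) : ∃ C : ℝ, 0 < C ∧ ∀ u : V → V, SPV u →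
    (∀ x, ∑ i, pd i (fun y => u y i) x = 0) → ∀ n : ℕ, 2 ≤ n → ∀ (x : V) (l : Fin 3),
      |HH (rr n) u x l| ≤ C * (rr n * lm n u x + ‖mo (rr n) u x‖ * √(sg n u x)
        + √(sg n u x) / rr n + 1 + energy u) := by
  obtain ⟨C, hC, hK⟩ := KB_ex hK
  obtain ⟨Cz, hCz, hz⟩ := CO_ex
  obtain ⟨D, hD, hP⟩ := osc_le'
  refine ⟨64 * C * √D + C + 3 * C + 3 * C * D + 96 * C * √D + 144 * C * D
    + 72 * C * Cz * 16, by positivity, fun u hu hdiv n hn x l => ?_⟩
  have hr := rr_pos n
  have hn1 : 1 ≤ n := by omega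
  set c := mo (rr n) u x with hc
  -- a large cut-off
  obtain ⟨m, hmn, hm⟩ : ∃ m, n ≤ m ∧ ‖c‖ ^ 2 / (2 ^ m * rr n) ≤ 1 := by
    obtain ⟨m', hm'⟩ := pow_unbounded_of_one_lt (‖c‖ ^ 2 / rr n) (one_lt_two (α := ℝ))
    refine ⟨max n m', le_max_left _ _, ?_⟩
    rw [div_le_one (by positivity)]
    rw [div_lt_iff₀ hr] at hm'
    refine hm'.le.trans ?_
    apply mul_le_mul_of_nonneg_right _ hr.le
    exact pow_le_pow_right₀ (by norm_num) (le_max_right _ _)
  obtain ⟨ζ, hζ⟩ := hz (2 ^ m * rr n) (by positivity) x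
  have hk := hK (rr n) hr (rr_le n) x
  obtain ⟨hP2, hP1⟩ := hP u hu.1 n hn1 x
  rw [← hc] at hP2 hP1
  have hid := HH_id (c := c) hu.1 hdiv hk.sG hk.sE hζ.sm hk.zG hk.zE l
  have e0 : HH (rr n) u x l = ∑ i, ∫ y, (u y i * lap (ph (fun z => gg (rr n) (z - x)) l i) y
      + u y i * adv u (ph (fun z => gg (rr n) (z - x)) l i) y) := rfl
  rw [e0, hid]
  have a1 := b1 (c := c) hn1 hC.le hu.1 hk l
  have a2 := b2 hC.le hu hk l
  have a3 := b3 hC.le hu hk l
  have a4 := b4 (c := c) hu.1 hk l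
  have a5 := b5 (c := c) hn1 hC.le hu.1 hk l
  have a6 := b6 hn1 hC.le hu.1 hk hζ l
  have a7 := b7 (c := c) hn1 hC.le hu.1 hk hζ l
  have a8 := b8 (c := c) hC.le hCz.le hu.1 hk hζ l
  have hNF : NF n m u x = 0 := by
    unfold NF
    have : (Finset.range n).filter (fun k => m ≤ k) = ∅ := by
      rw [Finset.filter_eq_empty_iff]
      intro k hk
      rw [Finset.mem_range] at hk
      omega
    rw [this, Finset.sum_empty]
  have hfil : (Finset.range n).filter (fun k => k ≤ m) = Finset.range n := by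
    rw [Finset.filter_eq_self]
    intro k hk
    rw [Finset.mem_range] at hk
    omega
  rw [hNF, mul_zero] at a6
  rw [hNF, zero_add] at a8
  rw [hfil] at a7
  have hW0 := W2_nn n x (fun y => u y - c)
  have n2 := sg_nn n u x
  have n1 := lm_nn n u x
  have hen := energy_nn u
  have hsl := mul_le_mul_of_nonneg_left (sg_le_lm n u x) hr.le
  -- square roots
  have s0 : √(W2 n x (fun y => u y - c)) ≤ √D * (√(rr n) * √(sg n u x)) := by
    rw [← Real.sqrt_mul hr.le, ← Real.sqrt_mul hD.le]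
    exact Real.sqrt_le_sqrt hP2
  have s1 : √(W2 n x (fun y => u y - c)) / √(rr n ^ 3) ≤ √D * (√(sg n u x) / rr n) := by
    have h1 : √(rr n ^ 3) = √(rr n) * rr n := by
      have : rr n ^ 3 = rr n * rr n ^ 2 := by ring
      rw [this, Real.sqrt_mul hr.le, Real.sqrt_sq hr.le]
    have h2 : 0 < √(rr n) := Real.sqrt_pos.2 hr
    rw [h1, div_le_iff₀ (by positivity)]
    refine s0.trans (le_of_eq ?_)
    field_simp
  have s5 : √(W2 n x (fun y => u y - c) / rr n) ≤ √D * √(sg n u x) := by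
    rw [← Real.sqrt_mul hD.le]
    apply Real.sqrt_le_sqrt
    rw [div_le_iff₀ hr]
    refine hP2.trans (le_of_eq ?_)
    ring
  set X1 := √(sg n u x) / rr n with hX1
  set X5 := ‖c‖ * √(sg n u x) with hX5
  have x1 : 0 ≤ X1 := by positivity
  have x5 : 0 ≤ X5 := by positivity
  have t1 : 64 * C * (√(W2 n x (fun y => u y - c)) / √(rr n ^ 3)) ≤ 64 * C * √D * X1 := by
    calc 64 * C * (√(W2 n x (fun y => u y - c)) / √(rr n ^ 3))
        ≤ 64 * C * (√D * X1) := mul_le_mul_of_nonneg_left s1 (by positivity)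
      _ = _ := by ring
  have t5 : 96 * C * (‖c‖ * √(W2 n x (fun y => u y - c) / rr n)) ≤ 96 * C * √D * X5 := by
    rw [hX5]
    calc 96 * C * (‖c‖ * √(W2 n x (fun y => u y - c) / rr n))
        ≤ 96 * C * (‖c‖ * (√D * √(sg n u x))) :=
          mul_le_mul_of_nonneg_left (mul_le_mul_of_nonneg_left s5 (norm_nonneg _)) (by positivity)
      _ = _ := by ring
  have t4 : 3 * C * W2 n x (fun y => u y - c) ≤ 3 * C * D * (rr n * lm n u x) := by
    rw [mul_assoc (3 * C)]
    apply mul_le_mul_of_nonneg_left _ (by positivity)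
    exact hP2.trans (mul_le_mul_of_nonneg_left hsl hD.le)
  have t7 := mul_le_mul_of_nonneg_left hP1 (show 0 ≤ 144 * C by positivity)
  -- the sum
  have hrl : 0 ≤ rr n * lm n u x := mul_nonneg hr.le n1
  set T := rr n * lm n u x + X5 + X1 + 1 + energy u with hT
  have hT2 : rr n * lm n u x ≤ T := by rw [hT]; linarith
  have hT3 : X5 ≤ T := by rw [hT]; linarith
  have hT4 : X1 ≤ T := by rw [hT]; linarith
  have hT0 : 1 ≤ T := by rw [hT]; linarith
  have hT7 : 1 + energy u ≤ T := by rw [hT]; linarith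
  have hT8 : energy u ≤ T := by rw [hT]; linarith
  have q1 := a1.trans (t1.trans (mul_le_mul_of_nonneg_left hT4 (by positivity)))
  have q2 := a2.trans (mul_le_mul_of_nonneg_left hT7 hC.le)
  have q3 := a3.trans (mul_le_mul_of_nonneg_left hT8 (by positivity))
  have q4 := a4.trans (t4.trans (mul_le_mul_of_nonneg_left hT2 (by positivity)))
  have q5 := a5.trans (t5.trans (mul_le_mul_of_nonneg_left hT3 (by positivity)))
  have q7 : |∫ y in ball x (1 / 2), F7 u c (fun z => gg (rr n) (z - x)) ζ l y| ≤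
      144 * C * D * T := by
    refine a7.trans (t7.trans ?_)
    rw [← mul_assoc]
    exact mul_le_mul_of_nonneg_left hT2 (by positivity)
  have q8 : |∫ y in ball x (1 / 2), F8 u c (fun z => gg (rr n) (z - x)) ζ l y| ≤
      72 * C * Cz * 16 * T := by
    refine a8.trans ?_
    rw [mul_assoc (72 * C * Cz)]
    exact mul_le_mul_of_nonneg_left (mul_le_mul_of_nonneg_left (hm.trans hT0) (by norm_num))
      (by positivity)
  have fin : ∀ (y1 y2 y3 y4 y5 y6 y7 y8 z1 z2 z3 z4 z5 z6 z7 z8 : ℝ), |y1| ≤ z1 → |y2| ≤ z2 →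
      |y3| ≤ z3 → |y4| ≤ z4 → |y5| ≤ z5 → |y6| ≤ z6 → |y7| ≤ z7 → |y8| ≤ z8 →
      |y1 - y2 - y3 + y4 + y5 + y6 + y7 - y8| ≤ z1 + z2 + z3 + z4 + z5 + z6 + z7 + z8 := by
    intro y1 y2 y3 y4 y5 y6 y7 y8 z1 z2 z3 z4 z5 z6 z7 z8 g1 g2 g3 g4 g5 g6 g7 g8
    rw [abs_le] at *
    constructor <;> linarith [g1.1, g1.2, g2.1, g2.2, g3.1, g3.2, g4.1, g4.2, g5.1, g5.2,
      g6.1, g6.2, g7.1, g7.2, g8.1, g8.2]
  refine (fin _ _ _ _ _ _ _ _ _ _ _ _ _ _ _ _ q1 q2 q3 q4 q5 a6 q7 q8).trans (le_of_eq ?_)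
  ring

/-- The two local means. -/
theorem mc (hK : S_KER2) : ∃ C : ℝ, 1 ≤ C ∧ ∀ n : ℕ, 2 ≤ n → ∃ κ : ℝ, 3 / 4 ≤ κ ∧ κ ≤ C ∧
    ∀ u : V → V, SPV u → (∀ x, ∑ i, pd i (fun y => u y i) x = 0) → ∀ (x : V) (l : Fin 3),
      |MN (rr n) u x l - κ * mo (rr n) u x l| ≤ C * (rr n * √(sg n u x) + 1 + energy u) := by
  obtain ⟨Ck, hCk, hker⟩ := hK
  obtain ⟨D, hD, hP⟩ := osc_le'
  obtain ⟨Cb, hCb, hb⟩ := ball_le (1 / 2)
  obtain ⟨C, hC⟩ : ∃ C, C = 16 * Ck * √D + Ck * (1 + Cb) + 512 * Ck + 1 := ⟨_, rfl⟩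
  have hs8 : 0 ≤ √D := Real.sqrt_nonneg _
  refine ⟨C, ?_, ?_⟩
  · rw [hC]
    have : 0 ≤ 16 * Ck * √D + Ck * (1 + Cb) + 512 * Ck := by positivity
    linarith
  intro n hn
  have hr := rr_pos n
  have hr4 : rr n ≤ 1 / 4 := by
    unfold rr
    calc ((1 : ℝ) / 2) ^ n ≤ (1 / 2) ^ 2 :=
          pow_le_pow_of_le_one (by norm_num) (by norm_num) hn
      _ = 1 / 4 := by norm_num
  obtain ⟨hgs, hes, hen, hall⟩ := hker (rr n) hr (by linarith)
  have he0 : ∀ z, 1 / 2 ≤ ‖z‖ → eta (rr n) z = 0 := fun z hz => ((hall z).1 hz).2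
  have hg0 : ∀ z, 1 / 2 ≤ ‖z‖ → gg (rr n) z = 0 := fun z hz => ((hall z).1 hz).1
  have hez : ∀ z ∉ ball (0 : V) (1 / 2), eta (rr n) z = 0 := by
    intro z hz
    apply he0
    rw [mem_ball, dist_zero_right, not_lt] at hz
    exact hz
  have hei : Integrable (eta (rr n)) := int_csR hes.continuous hez
  refine ⟨∫ y, eta (rr n) y, ?_, ?_, ?_⟩
  · -- the lower bound
    have h1 : ∫ y in ball (0 : V) (rr n), (3 / (32 * rr n ^ 3) : ℝ) ≤
        ∫ y in ball (0 : V) (rr n), eta (rr n) y := by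
      apply setIntegral_mono_on (ballint continuous_const _ _) hei.integrableOn
        measurableSet_ball
      intro y hy
      rw [mem_ball, dist_zero_right] at hy
      have hcut : cut y = 1 := by
        apply cut.one_of_mem_closedBall
        rw [mem_closedBall, dist_zero_right]
        exact hy.le.trans hr4
      have hQ0 : 0 < QQ (rr n) y := by
        unfold QQ
        have : 0 ≤ ∑ i, y i ^ 2 := Finset.sum_nonneg fun _ _ => sq_nonneg _
        positivity
      have hQ : QQ (rr n) y ≤ (2 * rr n) ^ 2 := by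
        unfold QQ
        have h2 : ∀ i, y i ^ 2 ≤ rr n ^ 2 := by
          intro i
          rw [← sq_abs (y i)]
          exact pow_le_pow_left₀ (abs_nonneg _) ((norm_le_pi_norm y i).trans hy.le) 2
        have h3 : ∑ i, y i ^ 2 ≤ ∑ _i : Fin 3, rr n ^ 2 := Finset.sum_le_sum fun i _ => h2 i
        simp at h3
        linarith
      have hQs : √(QQ (rr n) y) ≤ 2 * rr n := by
        rw [← Real.sqrt_sq (by positivity : 0 ≤ 2 * rr n)]
        exact Real.sqrt_le_sqrt hQ
      have hQs0 : 0 < √(QQ (rr n) y) := Real.sqrt_pos.2 hQ0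
      unfold eta
      rw [hcut, one_mul]
      have h4 : ((2 * rr n) ^ 5)⁻¹ ≤ (√(QQ (rr n) y) ^ 5)⁻¹ :=
        inv_anti₀ (by positivity) (pow_le_pow_left₀ hQs0.le hQs 5)
      calc 3 / (32 * rr n ^ 3) = 3 * rr n ^ 2 * ((2 * rr n) ^ 5)⁻¹ := by
            field_simp
            ring
        _ ≤ _ := mul_le_mul_of_nonneg_left h4 (by positivity)
    have h2 : ∫ y in ball (0 : V) (rr n), eta (rr n) y ≤ ∫ y, eta (rr n) y :=
      setIntegral_le_integral hei (Filter.Eventually.of_forall hen)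
    rw [setIntegral_const, smul_eq_mul, Pool.Agent.Y458.NS.vol_ball 0 hr] at h1
    have h3 : (2 * rr n) ^ 3 * (3 / (32 * rr n ^ 3)) = 3 / 4 := by
      field_simp
      ring
    linarith
  · -- the upper bound
    rw [← ball_int_eq hez]
    have h1 : ∫ y in ball (0 : V) (1 / 2), eta (rr n) y ≤
        ∫ y in ball (0 : V) (1 / 2), (Ck * rr n ^ 2) * ((rr n + ‖y - 0‖) ^ 5)⁻¹ := by
      apply setIntegral_mono_on hei.integrableOn _ measurableSet_ball
      · intro y _
        have h2 := (hall y).2.1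
        rw [sub_zero, ← div_eq_mul_inv]
        exact h2
      · apply ballint
        apply continuous_const.mul
        apply Continuous.inv₀ (by fun_prop)
        intro y
        have := norm_nonneg (y - 0)
        positivity
    have h2 := Pool.Agent.Y458.NS.dy_int (by omega : 1 ≤ n) 5 (0 : V)
      (f := fun _ => Ck * rr n ^ 2) continuous_const (fun _ => by positivity)
    have h3 : ∀ k, ((2 ^ k * rr n) ^ 5)⁻¹ * ∫ _ in ball (0 : V) (2 ^ k * rr n), Ck * rr n ^ 2
        = 8 * Ck * (1 / 4) ^ k := by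
      intro k
      rw [setIntegral_const, smul_eq_mul, Pool.Agent.Y458.NS.vol_ball 0 (by positivity)]
      have e4 : (4 : ℝ) ^ k = (2 ^ k) ^ 2 := by
        rw [← pow_mul, mul_comm, pow_mul]
        norm_num
      rw [one_div, inv_pow, e4]
      field_simp
      ring
    simp only [h3] at h2
    rw [← Finset.mul_sum] at h2
    have h4 := Pool.Agent.Y458.NS.geo (by norm_num : (0 : ℝ) ≤ 1 / 4) (by norm_num) n
    have h5 : 8 * Ck * ∑ k ∈ Finset.range n, (1 / 4 : ℝ) ^ k ≤ 8 * Ck * 2 := by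
      apply mul_le_mul_of_nonneg_left _ (by positivity)
      refine h4.trans (by norm_num)
    have h6 : (2 : ℝ) ^ 5 * (8 * Ck * ∑ k ∈ Finset.range n, (1 / 4 : ℝ) ^ k) ≤
        2 ^ 5 * (8 * Ck * 2) := mul_le_mul_of_nonneg_left h5 (by norm_num)
    rw [hC]
    have h7 : 0 ≤ 16 * Ck * √D + Ck * (1 + Cb) := by positivity
    linarith
  · -- the comparison
    intro u hup hdiv x l
    obtain ⟨hu, hper⟩ := hup
    rw [Pool.Agent.Y458.NS.MN_eq hgs hg0 hu hdiv x l]
    obtain ⟨e, hedef⟩ : ∃ e : V → ℝ, e = fun y => lap (gg (rr n)) y + eta (rr n) y := ⟨_, rfl⟩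
    have hec : Continuous e := by
      rw [hedef]
      exact (Pool.Agent.Y458.NS.lap_ct hgs).add hes.continuous
    have hgz : ∀ z ∉ ball (0 : V) (1 / 2), gg (rr n) z = 0 := by
      intro z hz
      apply hg0
      rw [mem_ball, dist_zero_right, not_lt] at hz
      exact hz
    have heb : ∀ z, |e z| ≤ Ck := by
      intro z
      rw [hedef]
      exact (hall z).2.2.2.2.1
    have hesz : ∀ z, 1 / 2 ≤ ‖z‖ → e z = 0 := by
      intro z hz
      rw [hedef]
      show lap (gg (rr n)) z + eta (rr n) z = 0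
      rw [he0 z hz, lap_zero' hgs (by norm_num) hgz (by
        rw [mem_ball, dist_zero_right, not_lt]
        exact hz), add_zero]
    have hui : Continuous fun y => u y l := (contDiff_pi.1 hu l).continuous
    have hshc : Continuous fun y : V => y - x := by fun_prop
    have hsh1 : ∀ y ∉ ball x (1 / 2), eta (rr n) (y - x) = 0 := Pool.Agent.Y458.NS.sh_z he0 x
    have hsh2 : ∀ y ∉ ball x (1 / 2), e (y - x) = 0 := Pool.Agent.Y458.NS.sh_z hesz x
    have i1 : Integrable fun y => u y l * eta (rr n) (y - x) :=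
      int_csR (hui.mul (hes.continuous.comp hshc)) (a := x) (R := 1 / 2) fun y hy => by
        show u y l * eta (rr n) (y - x) = 0
        rw [hsh1 y hy, mul_zero]
    have i2 : Integrable fun y => u y l * e (y - x) :=
      int_csR (hui.mul (hec.comp hshc)) (a := x) (R := 1 / 2) fun y hy => by
        show u y l * e (y - x) = 0
        rw [hsh2 y hy, mul_zero]
    obtain ⟨m, hm⟩ : ∃ m, m = mo (rr n) u x l := ⟨_, rfl⟩
    have i3 : Integrable fun y => m * eta (rr n) (y - x) :=
      int_csR (continuous_const.mul (hes.continuous.comp hshc)) (a := x) (R := 1 / 2)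
        fun y hy => by
          show m * eta (rr n) (y - x) = 0
          rw [hsh1 y hy, mul_zero]
    have e1 : -∫ y, u y l * lap (gg (rr n)) (y - x) =
        (∫ y, u y l * eta (rr n) (y - x)) - ∫ y, u y l * e (y - x) := by
      rw [← integral_sub i1 i2, ← integral_neg]
      refine integral_congr_ae (Filter.Eventually.of_forall fun y => ?_)
      show -(u y l * lap (gg (rr n)) (y - x)) = u y l * eta (rr n) (y - x) - u y l * e (y - x)
      rw [hedef]
      ring
    have e2 : (∫ y, eta (rr n) y) * m = ∫ y, m * eta (rr n) (y - x) := by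
      rw [integral_const_mul, integral_sub_right_eq_self (eta (rr n)) x, mul_comm]
    have e3 : (∫ y, u y l * eta (rr n) (y - x)) - ∫ y, m * eta (rr n) (y - x) =
        ∫ y, (u y l - m) * eta (rr n) (y - x) := by
      rw [← integral_sub i1 i3]
      refine integral_congr_ae (Filter.Eventually.of_forall fun y => ?_)
      show u y l * eta (rr n) (y - x) - m * eta (rr n) (y - x) = _
      ring
    rw [e1, ← hm, e2]
    have hE0 := energy_nn u
    -- the main term
    have b1 : |∫ y, (u y l - m) * eta (rr n) (y - x)| ≤ 16 * Ck * √D * (rr n * √(sg n u x)) := by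
      have hz : ∀ y ∉ ball x (1 / 2), (u y l - m) * eta (rr n) (y - x) = 0 := fun y hy => by
        rw [hsh1 y hy, mul_zero]
      rw [← ball_int_eq hz]
      have c1 := cs_w (n := n) (x := x) (w := fun y => u y - mo (rr n) u x)
        (Pool.Agent.Y496.NS.sub_sm hu _) (f := fun y => u y l - m)
        (D := fun y => eta (rr n) (y - x)) hCk.le 2
        (fun y => by
          rw [hm]
          exact W162.MD.abs_le_sqrt_nsq (fun y => u y - mo (rr n) u x) y l)
        (fun y => by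
          rw [abs_of_nonneg (hen _)]
          have h2 := (hall (y - x)).2.1
          rw [div_eq_mul_inv] at h2
          exact h2)
      have c2 := vol_w (by omega : 1 ≤ n) 0 x
      have c3 : √(rr n ^ 2 * ∫ y in ball x (1 / 2), ((rr n + ‖y - x‖) ^ (2 * 2))⁻¹)
          ≤ 16 * √(rr n) := by
        have h5 : (16 : ℝ) * √(rr n) = √(16 ^ 2 * rr n) := by
          rw [Real.sqrt_mul (by norm_num), Real.sqrt_sq (by norm_num)]
        rw [h5]
        apply Real.sqrt_le_sqrt
        calc rr n ^ 2 * ∫ y in ball x (1 / 2), ((rr n + ‖y - x‖) ^ (2 * 2))⁻¹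
            ≤ rr n ^ 2 * (2 ^ (0 + 8) * (rr n ^ (0 + 1))⁻¹) :=
              mul_le_mul_of_nonneg_left c2 (by positivity)
          _ = 16 ^ 2 * rr n := by
              field_simp
              norm_num
      have c4 := (hP u hu n (by omega) x).1
      have c5 : √(W2 n x (fun y => u y - mo (rr n) u x)) ≤ √D * (√(rr n) * √(sg n u x)) := by
        rw [← Real.sqrt_mul hr.le, ← Real.sqrt_mul hD.le]
        exact Real.sqrt_le_sqrt c4
      refine c1.trans ?_
      calc Ck * (√(W2 n x fun y => u y - mo (rr n) u x) *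
            √(rr n ^ 2 * ∫ y in ball x (1 / 2), ((rr n + ‖y - x‖) ^ (2 * 2))⁻¹))
          ≤ Ck * ((√D * (√(rr n) * √(sg n u x))) * (16 * √(rr n))) := by gcongr
        _ = 16 * Ck * √D * ((√(rr n) * √(rr n)) * √(sg n u x)) := by ring
        _ = _ := by rw [Real.mul_self_sqrt hr.le]
    -- the error term
    have b2 : |∫ y, u y l * e (y - x)| ≤ Ck * (1 + Cb) * (1 + energy u) := by
      have hz : ∀ y ∉ ball x (1 / 2), u y l * e (y - x) = 0 := fun y hy => by
        rw [hsh2 y hy, mul_zero]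
      rw [← ball_int_eq hz]
      refine abs_integral_le_integral_abs.trans ?_
      have c1 : ∫ y in ball x (1 / 2), |u y l * e (y - x)| ≤
          ∫ y in ball x (1 / 2), Ck * (1 + nsq u y) := by
        apply setIntegral_mono_on
        · exact ballint ((hui.mul (hec.comp hshc)).abs) _ _
        · exact ballint (continuous_const.mul (continuous_const.add (nsq_sm hu).continuous)) _ _
        · exact measurableSet_ball
        · intro y _
          rw [abs_mul, mul_comm]
          have h1 : |u y l| ≤ 1 + nsq u y := by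
            have h2 : u y l ^ 2 ≤ nsq u y :=
              Finset.single_le_sum (f := fun i => u y i ^ 2) (fun _ _ => sq_nonneg _)
                (Finset.mem_univ l)
            have h3 : |u y l| ^ 2 = u y l ^ 2 := sq_abs _
            nlinarith [sq_nonneg (|u y l| - 1), abs_nonneg (u y l)]
          exact mul_le_mul (heb _) h1 (abs_nonneg _) hCk.le
      refine c1.trans ?_
      rw [integral_const_mul, integral_add (ballint continuous_const _ _)
        (ballint (nsq_sm hu).continuous _ _), setIntegral_const, smul_eq_mul, mul_one,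
        Pool.Agent.Y458.NS.vol_ball x (by norm_num)]
      have c2 := hb _ (nsq_sm hu).continuous (nsq_per hper) (nsq_nn u) x
      rw [← energy_eq hu] at c2
      have c3 : (2 * (1 / 2) : ℝ) ^ 3 + ∫ y in ball x (1 / 2), nsq u y ≤
          (1 + Cb) * (1 + energy u) := by
        norm_num
        nlinarith
      calc _ ≤ Ck * ((1 + Cb) * (1 + energy u)) := mul_le_mul_of_nonneg_left c3 hCk.le
        _ = _ := by ring
    have e5 : (∫ y, u y l * eta (rr n) (y - x)) - (∫ y, u y l * e (y - x)) -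
        ∫ y, m * eta (rr n) (y - x) =
        (∫ y, (u y l - m) * eta (rr n) (y - x)) - ∫ y, u y l * e (y - x) := by
      rw [← e3]
      ring
    rw [e5]
    refine (abs_sub _ _).trans ?_
    refine (add_le_add b1 b2).trans ?_
    rw [hC]
    have hN0 : 0 ≤ rr n * √(sg n u x) := by positivity
    have a1 : 0 ≤ 16 * Ck * √D := by positivity
    have a2 : 0 ≤ Ck * (1 + Cb) := by positivity
    have a3 : 0 ≤ (512 * Ck + 1) * (rr n * √(sg n u x) + 1 + energy u) := by positivity
    have a4 : 0 ≤ 16 * Ck * √D * (1 + energy u) := by positivity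
    have a5 : 0 ≤ Ck * (1 + Cb) * (rr n * √(sg n u x)) := by positivity
    calc _ ≤ 16 * Ck * √D * (rr n * √(sg n u x)) + Ck * (1 + Cb) * (1 + energy u)
          + (16 * Ck * √D * (1 + energy u) + Ck * (1 + Cb) * (rr n * √(sg n u x))
          + (512 * Ck + 1) * (rr n * √(sg n u x) + 1 + energy u)) := by linarith
      _ = _ := by ring

end Pool.Agent.V1182
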