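import Pool.Agent.Y7.P12
import Pool.Agent.Y496.NS.Dy
import Pool.Agent.W327.ME.HYP
import Pool.Agent.Y8.Base

/-!
The oscillation of a field at one scale by the gradient to the power `12/7` (helper82).
-/

set_option autoImplicit false

open MeasureTheory Set Metric Filter Topology
open scoped ContDiff ENNReal NNReal

namespace Pool.Agent.V1182

open H459R3.NS W221.NS Pool.Agent.W12.MD Pool.Agent.Y7 Pool.Agent.Y7.Sp Pool.Agent.Y7.Poi
open Pool.Agent.Y8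

/-- The functional of the gradient at the scale `r` around `x`. -/
noncomputable def Pf (r : ℝ) (u : V → V) (x : V) : ℝ :=
  ((r ^ 3)⁻¹ * ∫ y in ball x (16 * r), gsq u y ^ (6 / 7 : ℝ)) ^ (7 / 6 : ℝ)

lemma gs_nn (u : V → V) (x : V) : 0 ≤ gsq u x :=
  Finset.sum_nonneg fun _ _ => Finset.sum_nonneg fun _ _ => sq_nonneg _

lemma gp_nn (u : V → V) (x : V) : 0 ≤ gsq u x ^ (6 / 7 : ℝ) := Real.rpow_nonneg (gs_nn u x) _

lemma gp_cont {u : V → V} (hu : ContDiff ℝ ∞ u) : Continuous fun y => gsq u y ^ (6 / 7 : ℝ) :=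
  (Pool.Agent.Y496.NS.gsq_cont hu).rpow_const fun _ => Or.inr (by norm_num)

lemma gi_nn (u : V → V) (S : Set V) : 0 ≤ ∫ y in S, gsq u y ^ (6 / 7 : ℝ) :=
  integral_nonneg fun y => gp_nn u y

lemma Pf_nn {r : ℝ} (hr : 0 ≤ r) (u : V → V) (x : V) : 0 ≤ Pf r u x :=
  Real.rpow_nonneg (mul_nonneg (by positivity) (gi_nn u _)) _

lemma ofReal_gi {u : V → V} (hu : ContDiff ℝ ∞ u) (a : V) (ρ : ℝ) :
    ENNReal.ofReal (∫ y in ball a ρ, gsq u y ^ (6 / 7 : ℝ)) = ∫⁻ y in ball a ρ, gw u y := by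
  rw [ofReal_integral_eq_lintegral_ofReal (intB (gp_cont hu) _ _)
    (Eventually.of_forall fun y => gp_nn u y)]
  refine lintegral_congr fun y => ?_
  unfold gw
  rw [ENNReal.ofReal_rpow_of_nonneg (gs_nn u y) (by norm_num)]

lemma ofReal_Pf {u : V → V} (hu : ContDiff ℝ ∞ u) {r : ℝ} (hr : 0 < r) (x : V) :
    ENNReal.ofReal (Pf r u x)
      = (ENNReal.ofReal ((r ^ 3)⁻¹) * ∫⁻ y in ball x (16 * r), gw u y) ^ (7 / 6 : ℝ) := by
  unfold Pf
  rw [← ENNReal.ofReal_rpow_of_nonneg (mul_nonneg (by positivity) (gi_nn u _)) (by norm_num),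
    ENNReal.ofReal_mul (by positivity), ofReal_gi hu]

/-- The oscillation at the scale `r` around a nearby point. -/
theorem osc1 : ∃ K : ℝ, 0 < K ∧ ∀ u : V → V, ContDiff ℝ ∞ u → ∀ r : ℝ, 0 < r → ∀ x y : V,
    ‖y - x‖ ≤ 8 * r → √(L4 0 4 (fr r u y)) ≤ K * (r ^ 4 * Pf r u x) := by
  obtain ⟨K, hK, hsp⟩ := sp
  obtain ⟨k, hk⟩ : ∃ k, k = K.toReal := ⟨_, rfl⟩
  have hk0 : 0 ≤ k := by rw [hk]; exact ENNReal.toReal_nonneg
  have hKk : K = ENNReal.ofReal k := by rw [hk, ENNReal.ofReal_toReal hK]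
  refine ⟨k + 1, by positivity, fun u hu r hr x y hxy => ?_⟩
  have h0 := hsp _ (fr_smooth hu r y) (fr_mean hu r y)
  rw [← ofReal_gi (fr_smooth hu r y), hKk,
    ENNReal.ofReal_rpow_of_nonneg (gi_nn _ _) (by norm_num), ← ENNReal.ofReal_mul hk0,
    ENNReal.ofReal_le_ofReal_iff (mul_nonneg hk0 (Real.rpow_nonneg (gi_nn _ _) _))] at h0
  have h1 : ∫ z in ball (0 : V) 8, gsq (fr r u y) z ^ (6 / 7 : ℝ)
      = r ^ (24 / 7 : ℝ) * ((r ^ 3)⁻¹ * ∫ z in ball y (r * 8), gsq u z ^ (6 / 7 : ℝ)) := by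
    rw [← Pool.Agent.W135.MD.int_ball_scale (fun z => gsq u z ^ (6 / 7 : ℝ)) y hr 8,
      ← integral_const_mul]
    refine integral_congr_ae (Eventually.of_forall fun z => ?_)
    show gsq (fr r u y) z ^ (6 / 7 : ℝ) = r ^ (24 / 7 : ℝ) * gsq u (y + r • z) ^ (6 / 7 : ℝ)
    rw [fr_gsq hu, Real.mul_rpow (by positivity) (gs_nn _ _), ← Real.rpow_natCast r 4,
      ← Real.rpow_mul hr.le]
    norm_num
  have hsub : ball y (r * 8) ⊆ ball x (16 * r) := by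
    apply ball_subset_ball'
    rw [dist_eq_norm]
    linarith
  have h2 : ∫ z in ball y (r * 8), gsq u z ^ (6 / 7 : ℝ)
      ≤ ∫ z in ball x (16 * r), gsq u z ^ (6 / 7 : ℝ) :=
    setIntegral_mono_set (intB (gp_cont hu) _ _) (Eventually.of_forall fun z => gp_nn u z)
      hsub.eventuallyLE
  have h3 : (∫ z in ball (0 : V) 8, gsq (fr r u y) z ^ (6 / 7 : ℝ)) ^ (7 / 6 : ℝ)
      ≤ r ^ 4 * Pf r u x := by
    rw [h1, Real.mul_rpow (by positivity) (mul_nonneg (by positivity) (gi_nn _ _)),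
      ← Real.rpow_mul hr.le]
    have e : r ^ ((24 / 7 : ℝ) * (7 / 6)) = r ^ 4 := by
      rw [← Real.rpow_natCast r 4]
      norm_num
    rw [e]
    apply mul_le_mul_of_nonneg_left _ (by positivity)
    unfold Pf
    apply Real.rpow_le_rpow (mul_nonneg (by positivity) (gi_nn _ _)) _ (by norm_num)
    exact mul_le_mul_of_nonneg_left h2 (by positivity)
  have h4 : 0 ≤ r ^ 4 * Pf r u x := mul_nonneg (by positivity) (Pf_nn hr.le u x)
  calc √(L4 0 4 (fr r u y)) ≤ k * (∫ z in ball (0 : V) 8, gsq (fr r u y) z ^ (6 / 7 : ℝ))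
        ^ (7 / 6 : ℝ) := h0
    _ ≤ k * (r ^ 4 * Pf r u x) := mul_le_mul_of_nonneg_left h3 hk0
    _ ≤ (k + 1) * (r ^ 4 * Pf r u x) := by linarith

/-- The `L²` oscillation at the scale `r` around a nearby point. -/
theorem osc2 : ∃ K : ℝ, 0 < K ∧ ∀ u : V → V, ContDiff ℝ ∞ u → ∀ r : ℝ, 0 < r → ∀ x y : V,
    ‖y - x‖ ≤ 8 * r → A2 y (4 * r) (fun z => u z - mo r u y) ≤ K * (r ^ 5 * Pf r u x) := by
  obtain ⟨K, hK, h⟩ := osc1
  refine ⟨257 * K, by positivity, fun u hu r hr x y hxy => ?_⟩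
  have h1 := Pool.Agent.W327.ME.A2_le (fr_smooth hu r y)
  have h2 := h u hu r hr x y hxy
  have e : A2 0 4 (fr r u y) = r⁻¹ * A2 y (4 * r) (fun z => u z - mo r u y) := by
    unfold A2
    have e1 := Pool.Agent.W135.MD.int_ball_scale
      (fun z => nsq (fun z => u z - mo r u y) z) y hr 4
    rw [mul_comm 4 r]
    have e2 : ∫ z in ball (0 : V) 4, nsq (fr r u y) z
        = ∫ z in ball (0 : V) 4, r ^ 2 * nsq (fun z => u z - mo r u y) (y + r • z) := by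
      refine integral_congr_ae (Eventually.of_forall fun z => ?_)
      show nsq (fr r u y) z = r ^ 2 * nsq (fun z => u z - mo r u y) (y + r • z)
      unfold nsq
      rw [Finset.mul_sum]
      refine Finset.sum_congr rfl fun i _ => ?_
      show (r * (u (y + r • z) i - ml r u y i)) ^ 2 = r ^ 2 * (u (y + r • z) i - mo r u y i) ^ 2
      have : ml r u y i = mo r u y i := rfl
      rw [this]
      ring
    rw [e2, integral_const_mul, e1]
    field_simp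
  rw [e, inv_mul_le_iff₀ hr] at h1
  refine h1.trans ?_
  calc r * (257 * √(L4 0 4 (fr r u y))) ≤ r * (257 * (K * (r ^ 4 * Pf r u x))) := by gcongr
    _ = 257 * K * (r ^ 5 * Pf r u x) := by ring

/-- Comparison of means. -/
theorem mo_near : ∃ K : ℝ, 0 < K ∧ ∀ u : V → V, ContDiff ℝ ∞ u → ∀ r s : ℝ, 0 < r → r / 16 ≤ s →
    ∀ x y : V, ‖y - x‖ + s ≤ 4 * r → ‖mo s u y - mo r u x‖ ≤ K * (r * √(Pf r u x)) := by
  obtain ⟨K, hK, h⟩ := osc2
  obtain ⟨Ct, hCt0, hCt⟩ := th_bdd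
  refine ⟨√(4096 * (Ct * K)), by positivity, fun u hu r s hr hs x y hxy => ?_⟩
  have hs0 : 0 < s := by linarith
  have hP := Pf_nn hr.le u x
  rw [pi_norm_le_iff_of_nonneg (by positivity)]
  intro i
  rw [Real.norm_eq_abs, Pi.sub_apply]
  have h1 := Pool.Agent.Y496.NS.mo_cmp hCt hCt0 hu y hs0 (mo r u x) i
  have h2 : A2 y s (fun z => u z - mo r u x) ≤ K * (r ^ 5 * Pf r u x) := by
    refine le_trans ?_ (h u hu r hr x x (by rw [sub_self, norm_zero]; positivity))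
    apply Pool.Agent.Y496.NS.A2_mono (Pool.Agent.Y496.NS.sub_sm hu _)
    apply ball_subset_ball'
    rw [dist_eq_norm]
    linarith
  have h3 : (s ^ 3)⁻¹ ≤ 4096 * (r ^ 3)⁻¹ := by
    have h4 : (r / 16) ^ 3 ≤ s ^ 3 := pow_le_pow_left₀ (by positivity) hs 3
    calc (s ^ 3)⁻¹ ≤ ((r / 16) ^ 3)⁻¹ := inv_anti₀ (by positivity) h4
      _ = 4096 * (r ^ 3)⁻¹ := by
          field_simp
          norm_num
  have h5 : (mo s u y i - mo r u x i) ^ 2 ≤ 4096 * (Ct * K) * (r ^ 2 * Pf r u x) := by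
    have hA : 0 ≤ A2 y s (fun z => u z - mo r u x) := integral_nonneg fun z => nsq_nonneg _ _
    calc _ ≤ Ct * ((s ^ 3)⁻¹ * A2 y s (fun z => u z - mo r u x)) := h1
      _ ≤ Ct * ((4096 * (r ^ 3)⁻¹) * (K * (r ^ 5 * Pf r u x))) := by gcongr
      _ = 4096 * (Ct * K) * (r ^ 2 * Pf r u x) := by
          field_simp
  have h6 := Real.abs_le_sqrt h5
  refine h6.trans (le_of_eq ?_)
  rw [Real.sqrt_mul (by positivity), Real.sqrt_mul (by positivity) (Pf r u x),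
    Real.sqrt_sq hr.le]

/-- The functional and the dissipation. -/
theorem Pf_B2 {u : V → V} (hu : ContDiff ℝ ∞ u) {r : ℝ} (hr : 0 < r) (x : V) :
    Pf r u x ≤ 6 * (r ^ 3)⁻¹ * B2 x (16 * r) u := by
  have h1 := jensen (μ := volume.restrict (ball x (16 * r))) (p := 7 / 6) (by norm_num)
    (gw_meas hu).aemeasurable
  rw [Measure.restrict_apply_univ, Pool.Agent.Y7.Hl.vol_ball x (by positivity)] at h1
  have e1 : ∀ y, gw u y ^ (7 / 6 : ℝ) = ENNReal.ofReal (gsq u y) := by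
    intro y
    unfold gw
    rw [← ENNReal.rpow_mul]
    norm_num
  simp_rw [e1] at h1
  have hB : 0 ≤ B2 x (16 * r) u := integral_nonneg fun y => gs_nn u y
  rw [← ofReal_integral_eq_lintegral_ofReal (intB (Pool.Agent.Y496.NS.gsq_cont hu) _ _)
    (Eventually.of_forall fun y => gs_nn u y)] at h1
  have h2 : ENNReal.ofReal (Pf r u x) ≤ ENNReal.ofReal (6 * (r ^ 3)⁻¹ * B2 x (16 * r) u) := by
    rw [ofReal_Pf hu hr, ENNReal.mul_rpow_of_nonneg _ _ (by norm_num)]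
    refine (mul_le_mul_right h1 _).trans ?_
    have h8 : (8 : ℝ≥0∞) = ENNReal.ofReal 8 := by simp
    rw [h8, ← ENNReal.ofReal_mul (by norm_num), ENNReal.ofReal_rpow_of_nonneg (by positivity)
      (by norm_num), ENNReal.ofReal_rpow_of_nonneg (by positivity) (by norm_num),
      ← ENNReal.ofReal_mul (by positivity), ← ENNReal.ofReal_mul (by positivity)]
    apply ENNReal.ofReal_le_ofReal
    have e2 : (7 / 6 - 1 : ℝ) = 1 / 6 := by norm_num
    rw [e2]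
    have e3 : ((r ^ 3)⁻¹ : ℝ) ^ (7 / 6 : ℝ) = (r ^ 3)⁻¹ * ((r ^ 3)⁻¹) ^ (1 / 6 : ℝ) := by
      have : (7 / 6 : ℝ) = 1 + 1 / 6 := by norm_num
      rw [this, Real.rpow_add (by positivity), Real.rpow_one]
    have e4 : (8 * (16 * r) ^ 3 : ℝ) ^ (1 / 6 : ℝ)
        = (32768 : ℝ) ^ (1 / 6 : ℝ) * (r ^ 3) ^ (1 / 6 : ℝ) := by
      rw [← Real.mul_rpow (by norm_num) (by positivity)]
      congr 1
      ring
    have e5 : (32768 : ℝ) ^ (1 / 6 : ℝ) ≤ 6 := by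
      calc (32768 : ℝ) ^ (1 / 6 : ℝ) ≤ (6 ^ 6 : ℝ) ^ (1 / 6 : ℝ) :=
            Real.rpow_le_rpow (by norm_num) (by norm_num) (by norm_num)
        _ = 6 := by
            rw [← Real.rpow_natCast (6 : ℝ) 6, ← Real.rpow_mul (by norm_num)]
            norm_num
    have e6 : ((r ^ 3)⁻¹) ^ (1 / 6 : ℝ) * (r ^ 3) ^ (1 / 6 : ℝ) = 1 := by
      rw [← Real.mul_rpow (by positivity) (by positivity), inv_mul_cancel₀ (by positivity),
        Real.one_rpow]
    have hp : (0 : ℝ) ≤ (r ^ 3)⁻¹ := by positivity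
    calc ((r ^ 3)⁻¹ : ℝ) ^ (7 / 6 : ℝ) * ((8 * (16 * r) ^ 3 : ℝ) ^ (1 / 6 : ℝ) * B2 x (16 * r) u)
        = (32768 : ℝ) ^ (1 / 6 : ℝ) * (r ^ 3)⁻¹ *
          (((r ^ 3)⁻¹) ^ (1 / 6 : ℝ) * (r ^ 3) ^ (1 / 6 : ℝ)) * B2 x (16 * r) u := by
          rw [e3, e4]
          ring
      _ = (32768 : ℝ) ^ (1 / 6 : ℝ) * (r ^ 3)⁻¹ * B2 x (16 * r) u := by rw [e6, mul_one]
      _ ≤ 6 * (r ^ 3)⁻¹ * B2 x (16 * r) u := by gcongr
  rwa [ENNReal.ofReal_le_ofReal_iff (by positivity)] at h2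

end Pool.Agent.V1182
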