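import Pool.Agent.V1182.Evo

/-!
The recursion for the local mean velocity (helper82).
-/

set_option autoImplicit false

open MeasureTheory Set Metric Filter Topology
open scoped ContDiff ENNReal NNReal

namespace Pool.Agent.V1182

open H459R3.NS W221.NS Pool.Agent.Y8 Pool.Agent.Y153.NS Pool.Agent.Y458.NS

section

variable {T E D : ℝ} {G : Set ℝ} {u : ℝ → V → V} {p : ℝ → V → ℝ} {C : ℝ} {κ : ℕ → ℝ}

lemma MN_cont (hK : S_KER2) (h : Turb 1 T E D G u p) (m : ℕ) (x : V) (l : Fin 3) :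
    ContinuousOn (fun t => MN (rr m) (u t) x l) G := by
  obtain ⟨Ck, hCk, hker⟩ := hK
  obtain ⟨hgs, hes, hen, hall⟩ := hker (rr m) (Pool.Agent.Y153.NS.rr_pos m) (rr_le m)
  have hg0 : ∀ z, 1 / 2 ≤ ‖z‖ → gg (rr m) z = 0 := fun z hz => ((hall z).1 hz).1
  unfold MN
  refine continuousOn_finsetSum _ fun i _ => ?_
  refine pint_cont_c h.openG ?_ x (1 / 2) fun t _ z hz => ?_
  · have h1 := contDiffOn_pi.1 h.smooth_u i
    exact h1.continuousOn.mul ((phi_sm hgs x l i).continuous.comp continuous_snd).continuousOn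
  · rw [phi_z hgs hg0 x l i z hz, mul_zero]

lemma ff_cont (hK : S_KER2) (h : Turb 1 T E D G u p) (κ : ℕ → ℝ) (m : ℕ) (x : V) :
    ContinuousOn (fun t => ff κ m (u t) x) G := by
  unfold ff MV
  refine ContinuousOn.div_const ?_ _
  refine continuousOn_const.mul (ContinuousOn.norm ?_)
  exact continuousOn_pi.2 fun l => MN_cont hK h m x l

lemma ff_bd (hD : Dat C κ) (h : Turb 1 T E D G u p) {m : ℕ} (hm : 2 ≤ m) (x : V) {t : ℝ}
    (ht : t ∈ G) : ff κ m (u t) x ≤ 2 * C * (rr m ^ 2)⁻¹ * (1 + E ^ 2) := by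
  have h1 := hD.low m hm
  have h2 := Pool.Agent.Y153.NS.rr_pos m
  have h3 := hD.cr m hm (u t) (h.spv ht) x
  have h4 := h.energy_le t ht
  have hC := hD.one
  have hen := energy_nn (u t)
  have hk : 0 < κ m := by linarith
  unfold ff
  rw [div_le_iff₀ hk]
  have h5 : rr m * ‖MV m (u t) x‖ ≤ rr m * (C * (rr m ^ 3)⁻¹ * (1 + E ^ 2)) := by
    apply mul_le_mul_of_nonneg_left (h3.trans _) h2.le
    gcongr
  have h6 : rr m * (C * (rr m ^ 3)⁻¹ * (1 + E ^ 2)) = C * (rr m ^ 2)⁻¹ * (1 + E ^ 2) := by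
    field_simp
  rw [h6] at h5
  have h7 : 0 ≤ C * (rr m ^ 2)⁻¹ * (1 + E ^ 2) := by positivity
  nlinarith

/-- The part of the forcing without the mean velocity. -/
noncomputable def qf (C E : ℝ) (m : ℕ) (w : V → V) (x : V) : ℝ :=
  4 / 3 * C * ((1 + 2 * C) * (rr m ^ 2 * lm m w x) + (1 + 2 * C) * √(sg m w x)
    + rr m * (1 + E ^ 2))

/-- The coefficient of the mean velocity. -/
noncomputable def gf (C : ℝ) (m : ℕ) (w : V → V) (x : V) : ℝ := 4 / 3 * C * √(sg m w x)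

lemma qf_nn (hC : 0 ≤ C) (m : ℕ) (w : V → V) (x : V) : 0 ≤ qf C E m w x := by
  have := lm_nn m w x
  have := Pool.Agent.Y153.NS.rr_pos m
  unfold qf
  positivity

lemma gf_nn (hC : 0 ≤ C) (m : ℕ) (w : V → V) (x : V) : 0 ≤ gf C m w x := by
  unfold gf
  positivity

lemma qf_int (h : Turb 1 T E D G u p) (C : ℝ) (m : ℕ) (x : V) :
    IntegrableOn (fun t => qf C E m (u t) x) G := by
  unfold qf
  exact ((((lm_int h m x).const_mul _).const_mul _).add ((sq_int h m x).const_mul _) |>.add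
    (integrableOn_const h.volG)).const_mul _

lemma gf_int (h : Turb 1 T E D G u p) (C : ℝ) (m : ℕ) (x : V) :
    IntegrableOn (fun t => gf C m (u t) x) G := by
  unfold gf
  exact (sq_int h m x).const_mul _

lemma gff_int (hK : S_KER2) (hD : Dat C κ) (h : Turb 1 T E D G u p) {m : ℕ} (hm : 2 ≤ m) (x : V) :
    IntegrableOn (fun t => gf C m (u t) x * ff κ m (u t) x) G := by
  have hC := hD.one
  have hr := Pool.Agent.Y153.NS.rr_pos m
  have h1 : IntegrableOn (fun t => gf C m (u t) x * (2 * C * (rr m ^ 2)⁻¹ * (1 + E ^ 2))) G :=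
    (gf_int h C m x).mul_const _
  have hc : ContinuousOn (fun t => gf C m (u t) x * ff κ m (u t) x) G := by
    refine ContinuousOn.mul ?_ (ff_cont hK h κ m x)
    unfold gf
    exact continuousOn_const.mul (sq_cont h m x)
  refine Integrable.mono' h1 (hc.aestronglyMeasurable h.openG.measurableSet) ?_
  filter_upwards [ae_restrict_mem h.openG.measurableSet] with t ht
  rw [Real.norm_eq_abs, abs_of_nonneg (mul_nonneg (gf_nn (by linarith) _ _ _) (ff_nn hD hm _ _))]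
  exact mul_le_mul_of_nonneg_left (ff_bd hD h hm x ht) (gf_nn (by linarith) _ _ _)

/-- The forcing at one time. -/
lemma force (hD : Dat C κ) (h : Turb 1 T E D G u p) {m : ℕ} (hm : 2 ≤ m) (x : V)
    (hE : (1 + E ^ 2) * rr m ≤ 1) {t : ℝ} (ht : t ∈ G) :
    rr m / κ m * ∑ l, |HH (rr m) (u t) x l| ≤ qf C E m (u t) x
      + gf C m (u t) x * ff κ m (u t) x := by
  have hw := h.spv ht
  have hd := h.divfree t ht
  have hC := hD.one
  have hr := Pool.Agent.Y153.NS.rr_pos m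
  have hk := hD.low m hm
  have h1 := hD.hh m hm (u t) hw hd x
  have h2 := mo_le hD hm hw hd x
  have hen := energy_nn (u t)
  have hle := h.energy_le t ht
  obtain ⟨S, hS⟩ : ∃ S, S = √(sg m (u t) x) := ⟨_, rfl⟩
  have hS0 : 0 ≤ S := by rw [hS]; exact Real.sqrt_nonneg _
  have hSS : S ^ 2 ≤ lm m (u t) x := by
    rw [hS, Real.sq_sqrt (sg_nn _ _ _)]
    exact sg_le_lm m (u t) x
  have hl := lm_nn m (u t) x
  have hf := ff_nn hD hm (u t) x
  unfold qf gf
  rw [← hS] at h1 h2 ⊢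
  obtain ⟨L, hL⟩ : ∃ L, L = lm m (u t) x := ⟨_, rfl⟩
  rw [← hL] at h1 hSS hl ⊢
  obtain ⟨F, hF⟩ : ∃ F, F = ff κ m (u t) x := ⟨_, rfl⟩
  rw [← hF] at h2 hf ⊢
  obtain ⟨M, hM⟩ : ∃ M, M = ‖mo (rr m) (u t) x‖ := ⟨_, rfl⟩
  rw [← hM] at h1 h2
  obtain ⟨r, hr'⟩ : ∃ r, r = rr m := ⟨_, rfl⟩
  rw [← hr'] at h1 h2 hE hr ⊢
  have hr1 : r ≤ 1 := by rw [hr']; exact rr_le m
  have hM0 : 0 ≤ M := by rw [hM]; exact norm_nonneg _
  have hsum : 0 ≤ ∑ l, |HH r (u t) x l| := Finset.sum_nonneg fun l _ => abs_nonneg _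
  have h3 : r / κ m * ∑ l, |HH r (u t) x l| ≤ 4 / 3 * (r * ∑ l, |HH r (u t) x l|) := by
    rw [div_mul_eq_mul_div, div_le_iff₀ (by linarith)]
    have : 0 ≤ r * ∑ l, |HH r (u t) x l| := by positivity
    nlinarith
  have h4 : r * (∑ l, |HH r (u t) x l|) ≤ C * (r ^ 2 * L + (r * M) * S + S + r * (1 + E ^ 2)) := by
    have h5 := mul_le_mul_of_nonneg_left h1 hr.le
    have h6 : r * (C * (r * L + M * S + S / r + (1 + energy (u t))))
        = C * (r ^ 2 * L + (r * M) * S + S + r * (1 + energy (u t))) := by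
      field_simp
    rw [h6] at h5
    refine h5.trans ?_
    gcongr
  have h7 : r * M ≤ F + 2 * C * (r ^ 2 * S + r * (1 + E ^ 2)) := by
    refine h2.trans ?_
    gcongr
  have h8 : (r * M) * S ≤ F * S + 2 * C * (r ^ 2 * L + S) := by
    calc (r * M) * S ≤ (F + 2 * C * (r ^ 2 * S + r * (1 + E ^ 2))) * S := by gcongr
      _ = F * S + 2 * C * (r ^ 2 * S ^ 2 + ((1 + E ^ 2) * r) * S) := by ring
      _ ≤ F * S + 2 * C * (r ^ 2 * L + 1 * S) := by gcongr
      _ = _ := by ring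
  have h9 : r * (∑ l, |HH r (u t) x l|) ≤ C * (r ^ 2 * L + (F * S + 2 * C * (r ^ 2 * L + S)) + S
      + r * (1 + E ^ 2)) := by
    refine h4.trans ?_
    gcongr
  calc r / κ m * ∑ l, |HH r (u t) x l|
      ≤ 4 / 3 * (C * (r ^ 2 * L + (F * S + 2 * C * (r ^ 2 * L + S)) + S
      + r * (1 + E ^ 2))) := by
        refine h3.trans ?_
        gcongr
    _ = _ := by ring

/-- The evolution between two regular times. -/
lemma osc_ff (hT : S_TCUT) (hK : S_KER2) (hD : Dat C κ) (h : Turb 1 T E D G u p) {m : ℕ}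
    (hm : 2 ≤ m) (x : V) (hE : (1 + E ^ 2) * rr m ≤ 1) {s t : ℝ} (hs : s ∈ G) (ht : t ∈ G)
    (hst : s ≤ t) :
    |ff κ m (u t) x - ff κ m (u s) x| ≤
      (∫ τ in Ioo s t, qf C E m (u τ) x) + ∫ τ in Ioo s t, gf C m (u τ) x * ff κ m (u τ) x := by
  have hC := hD.one
  have hr := Pool.Agent.Y153.NS.rr_pos m
  have hk := hD.low m hm
  have hkp : 0 < κ m := by linarith
  have hker := hK
  obtain ⟨Ck, hCk, hker⟩ := hker
  obtain ⟨hgs, hes, hen, hall⟩ := hker (rr m) hr (rr_le m)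
  have hg0 : ∀ z, 1 / 2 ≤ ‖z‖ → gg (rr m) z = 0 := fun z hz => ((hall z).1 hz).1
  have hsub : Ioo s t ⊆ Ioo 0 T := fun τ hτ =>
    ⟨(h.subG hs).1.trans hτ.1, hτ.2.trans (h.subG ht).2⟩
  have hae := sub_ae h hsub
  have h1 := fun l => MN_mod hT h hgs hg0 x l hs ht hst
  have h2 : IntegrableOn (fun τ => ∑ l, |HH (rr m) (u τ) x l|) (Ioo s t) :=
    integrable_finsetSum _ fun l _ => (h1 l).1.abs
  have h3 : ‖MV m (u t) x - MV m (u s) x‖ ≤ ∫ τ in Ioo s t, ∑ l, |HH (rr m) (u τ) x l| := by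
    rw [pi_norm_le_iff_of_nonneg (integral_nonneg fun τ =>
      Finset.sum_nonneg fun l _ => abs_nonneg _)]
    intro l
    have h3 : (MV m (u t) x - MV m (u s) x) l = ∫ τ in Ioo s t, HH (rr m) (u τ) x l := by
      rw [← (h1 l).2]
      rfl
    rw [h3]
    refine norm_integral_le_of_norm_le h2 (Filter.Eventually.of_forall fun τ => ?_)
    exact Finset.single_le_sum (f := fun l => |HH (rr m) (u τ) x l|)
      (fun l _ => abs_nonneg _) (Finset.mem_univ l)
  have h4 : |ff κ m (u t) x - ff κ m (u s) x| ≤ rr m / κ m * ‖MV m (u t) x - MV m (u s) x‖ := by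
    have h5 := abs_norm_sub_norm_le (MV m (u t) x) (MV m (u s) x)
    have h6 : ff κ m (u t) x - ff κ m (u s) x
        = rr m / κ m * (‖MV m (u t) x‖ - ‖MV m (u s) x‖) := by
      unfold ff
      ring
    rw [h6, abs_mul, abs_of_pos (by positivity : 0 < rr m / κ m)]
    exact mul_le_mul_of_nonneg_left h5 (by positivity)
  have i1 : IntegrableOn (fun τ => qf C E m (u τ) x) (Ioo s t) := (qf_int h C m x).mono_set_ae hae
  have i2 : IntegrableOn (fun τ => gf C m (u τ) x * ff κ m (u τ) x) (Ioo s t) :=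
    (gff_int hK hD h hm x).mono_set_ae hae
  rw [← integral_add i1 i2]
  refine h4.trans ((mul_le_mul_of_nonneg_left h3 (by positivity)).trans ?_)
  rw [← integral_const_mul]
  refine integral_mono_ae (h2.const_mul _) (i1.add i2) ?_
  filter_upwards [aeT h (h.subG hs).1.le (h.subG ht).2.le] with τ hτ
  exact force hD h hm x hE hτ

/-- The recursion. -/
theorem step (hT : S_TCUT) (hK : S_KER2) (hD : Dat C κ) : ∃ C₁ : ℝ, 1 ≤ C₁ ∧
    ∀ (T E D : ℝ) (G : Set ℝ) (u : ℝ → V → V) (p : ℝ → V → ℝ), Turb 1 T E D G u p →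
    ∀ n, 2 ≤ n → ∀ z : ℝ × V, 0 ≤ z.1 - rr (n + 1) ^ 2 → z.1 + rr (n + 1) ^ 2 ≤ T →
    (1 + E ^ 2) * rr (n + 1) ≤ 1 → ∀ v : ℝ, 0 ≤ v →
    (∀ t ∈ II n z.1 ∩ G, ff κ n (u t) z.2 ≤ v) →
    ∀ t ∈ II (n + 1) z.1 ∩ G, ff κ (n + 1) (u t) z.2 ≤
      Real.exp (C₁ * √(ta G u (n + 1) z)) * (v / 2 + C₁ * (√(ta G u (n + 1) z)
        + ta G u (n + 1) z + (1 + E ^ 2) * rr (n + 1))) := by
  have hC := hD.one
  refine ⟨100 * C * (1 + 2 * C), by nlinarith, ?_⟩
  intro T E D G u p h n hn z hz0 hzT hE v hv hvn t ht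
  obtain ⟨m, hm⟩ : ∃ m, m = n + 1 := ⟨_, rfl⟩
  rw [← hm] at hz0 hzT hE ht ⊢
  have hm2 : 2 ≤ m := by omega
  have hr := Pool.Agent.Y153.NS.rr_pos m
  have hr1 := rr_le m
  obtain ⟨x, hx⟩ : ∃ x, x = z.2 := ⟨_, rfl⟩
  have hIT : II m z.1 ⊆ Ioo 0 T := by
    unfold II
    intro τ hτ
    exact ⟨hz0.trans_lt hτ.1, hτ.2.trans_le hzT⟩
  have hIae := sub_ae h hIT
  have hvol : volume (II m z.1 ∩ G) = ENNReal.ofReal (2 * rr m ^ 2) := by
    rw [← vol_II m z.1]
    apply measure_congr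
    filter_upwards [hIae] with τ hτ
    apply propext
    exact ⟨fun h => h.1, fun h => ⟨h, hτ h⟩⟩
  have hvol' : volume.real (II m z.1 ∩ G) = 2 * rr m ^ 2 := by
    unfold Measure.real
    rw [hvol, ENNReal.toReal_ofReal (by positivity)]
  have hne0 : volume (II m z.1 ∩ G) ≠ 0 := by
    rw [hvol]
    exact (ENNReal.ofReal_pos.2 (by positivity)).ne'
  have hnetop : volume (II m z.1 ∩ G) ≠ ⊤ := by
    rw [hvol]
    exact ENNReal.ofReal_ne_top
  obtain ⟨τ, hτ⟩ : ∃ τ, τ = ta G u m z := ⟨_, rfl⟩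
  have hτ0 : 0 ≤ τ := by rw [hτ]; exact ta_nn _ _ _ _
  -- a good time
  obtain ⟨s, hs, hsle⟩ := exists_le_setAverage hne0 hnetop
    (f := fun t => √(sg m (u t) z.2)) ((sq_int h m z.2).mono_set inter_subset_right)
  have hsq := sqI_le h m z
  have hlm := lm_le h m z
  rw [← hτ] at hsq hlm ⊢
  have hsle' : √(sg m (u s) z.2) ≤ √τ / rr m ^ 2 := by
    refine hsle.trans ?_
    rw [setAverage_eq, smul_eq_mul, hvol', inv_mul_eq_div, div_le_div_iff₀ (by positivity)
      (by positivity)]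
    have : 0 < rr m ^ 2 := by positivity
    nlinarith
  have hen := h.energy_le s hs.2
  have hsn : s ∈ II n z.1 ∩ G := ⟨II_mono (by omega) _ hs.1, hs.2⟩
  have h1 : ff κ m (u s) z.2 ≤ v / 2 + 20 * C * (√τ + rr m * (1 + E ^ 2)) := by
    have h2 := two_scales hD hn (h.spv hs.2) (h.divfree s hs.2) z.2
    rw [← hm] at h2
    have h3 := hvn s hsn
    have h4 : rr m ^ 2 * √(sg m (u s) z.2) ≤ √τ := by
      rw [le_div_iff₀ (by positivity)] at hsle'
      linarith
    calc ff κ m (u s) z.2 ≤ 1 / 2 * ff κ n (u s) z.2 + 20 * C * (rr m ^ 2 * √(sg m (u s) z.2)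
          + rr m * (1 + energy (u s))) := h2
      _ ≤ 1 / 2 * v + 20 * C * (√τ + rr m * (1 + E ^ 2)) := by gcongr
      _ = _ := by ring
  -- the integral of the forcing
  obtain ⟨Q, hQ⟩ : ∃ Q, Q = ∫ t in II m z.1 ∩ G, qf C E m (u t) z.2 := ⟨_, rfl⟩
  have hQle : Q ≤ 4 / 3 * C * ((1 + 2 * C) * τ + (1 + 2 * C) * (2 * √τ)
      + 2 * (rr m * (1 + E ^ 2))) := by
    have j1 : IntegrableOn (fun t => lm m (u t) z.2) (II m z.1 ∩ G) :=
      (lm_int h m z.2).mono_set inter_subset_right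
    have j2 : IntegrableOn (fun t => √(sg m (u t) z.2)) (II m z.1 ∩ G) :=
      (sq_int h m z.2).mono_set inter_subset_right
    have j3 : IntegrableOn (fun _ : ℝ => rr m * (1 + E ^ 2)) (II m z.1 ∩ G) :=
      integrableOn_const hnetop
    have j4 : IntegrableOn (fun t => (1 + 2 * C) * (rr m ^ 2 * lm m (u t) z.2)
        + (1 + 2 * C) * √(sg m (u t) z.2)) (II m z.1 ∩ G) :=
      ((j1.const_mul _).const_mul _).add (j2.const_mul _)
    rw [hQ]
    unfold qf
    rw [integral_const_mul, integral_add j4 j3,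
      integral_add ((j1.const_mul _).const_mul _) (j2.const_mul _), integral_const_mul,
      integral_const_mul, integral_const_mul, setIntegral_const, hvol', smul_eq_mul]
    have h5 : 2 * rr m ^ 2 * (rr m * (1 + E ^ 2)) ≤ 2 * (rr m * (1 + E ^ 2)) := by
      have : rr m ^ 2 ≤ 1 := pow_le_one₀ hr.le hr1
      have h6 : 0 ≤ rr m * (1 + E ^ 2) := by positivity
      nlinarith
    gcongr
  have hgle : ∫ t in II m z.1 ∩ G, gf C m (u t) z.2 ≤ 4 / 3 * C * (2 * √τ) := by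
    unfold gf
    rw [integral_const_mul]
    gcongr
  -- Gronwall
  have hmono : ∀ (f : ℝ → ℝ), (∀ τ, 0 ≤ f τ) → IntegrableOn f G → ∀ a b : ℝ,
      Ioo a b ⊆ II m z.1 → ∫ τ in Ioo a b, f τ ≤ ∫ t in II m z.1 ∩ G, f t := by
    intro f hf hfi a b hab
    refine setIntegral_mono_set (hfi.mono_set inter_subset_right)
      (Eventually.of_forall hf) ?_
    filter_upwards [hIae] with τ hτ hab'
    exact ⟨hab hab', hτ (hab hab')⟩
  obtain ⟨A, hA⟩ : ∃ A, A = v / 2 + 20 * C * (√τ + rr m * (1 + E ^ 2)) + Q := ⟨_, rfl⟩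
  have hQ0 : 0 ≤ Q := by
    rw [hQ]
    exact integral_nonneg fun t => qf_nn (by linarith) _ _ _
  have hA0 : 0 < A := by
    rw [hA]
    positivity
  have hsG := hs.2
  have key : ff κ m (u t) z.2 ≤ A * Real.exp (4 / 3 * C * (2 * √τ)) := by
    rcases le_total s t with hst | hst
    · have hsub : Ioo s t ⊆ II m z.1 := by
        unfold II
        intro τ hτ
        exact ⟨(hs.1).1.trans hτ.1, hτ.2.trans (ht.1).2⟩
      have hae := (sub_ae h (hsub.trans hIT))
      have hF : ∀ τ ∈ G, τ ∈ II m z.1 → s ≤ τ → ff κ m (u τ) z.2 ≤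
          A + ∫ σ in Ioo s τ, gf C m (u σ) z.2 * ff κ m (u σ) z.2 := by
        intro τ hτ hτI hsτ
        have h6 := (abs_le.1 (osc_ff hT hK hD h hm2 z.2 hE hsG hτ hsτ)).2
        have h7 := hmono _ (fun τ => qf_nn (by linarith) _ _ _) (qf_int h C m z.2) s τ (by
          intro σ hσ
          exact ⟨(hs.1).1.trans hσ.1, hσ.2.trans hτI.2⟩)
        rw [← hQ] at h7
        rw [hA]
        linarith
      have h8 := gron_fwd hst (g := fun τ => gf C m (u τ) z.2) (F := fun τ => ff κ m (u τ) z.2)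
        hA0 ((gf_int h C m z.2).mono_set_ae hae) ((gff_int hK hD h hm2 z.2).mono_set_ae hae)
        (fun τ => gf_nn (by linarith) _ _ _) (fun τ => ff_nn hD hm2 _ _) (by
          filter_upwards [hae] with τ h9 hτ
          exact hF τ (h9 hτ) (hsub hτ) hτ.1.le)
      refine (hF t ht.2 ht.1 hst).trans (h8.trans ?_)
      apply mul_le_mul_of_nonneg_left _ hA0.le
      apply Real.exp_le_exp.2
      exact (hmono _ (fun τ => gf_nn (by linarith) _ _ _) (gf_int h C m z.2) s t hsub).trans hgle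
    · have hsub : Ioo t s ⊆ II m z.1 := by
        unfold II
        intro τ hτ
        exact ⟨(ht.1).1.trans hτ.1, hτ.2.trans (hs.1).2⟩
      have hae := (sub_ae h (hsub.trans hIT))
      have hF : ∀ τ ∈ G, τ ∈ II m z.1 → τ ≤ s → ff κ m (u τ) z.2 ≤
          A + ∫ σ in Ioo τ s, gf C m (u σ) z.2 * ff κ m (u σ) z.2 := by
        intro τ hτ hτI hsτ
        have h6 := (abs_le.1 (osc_ff hT hK hD h hm2 z.2 hE hτ hsG hsτ)).1
        have h7 := hmono _ (fun τ => qf_nn (by linarith) _ _ _) (qf_int h C m z.2) τ s (by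
          intro σ hσ
          exact ⟨hτI.1.trans hσ.1, hσ.2.trans (hs.1).2⟩)
        rw [← hQ] at h7
        rw [hA]
        linarith
      have h8 := gron_bwd hst (g := fun τ => gf C m (u τ) z.2) (F := fun τ => ff κ m (u τ) z.2)
        hA0 ((gf_int h C m z.2).mono_set_ae hae) ((gff_int hK hD h hm2 z.2).mono_set_ae hae)
        (fun τ => gf_nn (by linarith) _ _ _) (fun τ => ff_nn hD hm2 _ _) (by
          filter_upwards [hae] with τ h9 hτ
          exact hF τ (h9 hτ) (hsub hτ) hτ.2.le)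
      refine (hF t ht.2 ht.1 hst).trans (h8.trans ?_)
      apply mul_le_mul_of_nonneg_left _ hA0.le
      apply Real.exp_le_exp.2
      exact (hmono _ (fun τ => gf_nn (by linarith) _ _ _) (gf_int h C m z.2) t s hsub).trans hgle
  refine key.trans ?_
  rw [mul_comm]
  have hA' : A ≤ v / 2 + 100 * C * (1 + 2 * C) * (√τ + τ + (1 + E ^ 2) * rr m) := by
    have e0 : 0 ≤ √τ := Real.sqrt_nonneg τ
    have e1 : 0 ≤ rr m * (1 + E ^ 2) := by positivity
    have e2 : 0 ≤ C * √τ := by positivity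
    have e3 : 0 ≤ C * (rr m * (1 + E ^ 2)) := by positivity
    have e4 : 0 ≤ C * τ := by positivity
    have e5 : 0 ≤ C * C * √τ := by positivity
    have e6 : 0 ≤ C * C * (rr m * (1 + E ^ 2)) := by positivity
    have e7 : 0 ≤ C * C * τ := by positivity
    rw [hA]
    nlinarith
  have e8 : 4 / 3 * C * (2 * √τ) ≤ 100 * C * (1 + 2 * C) * √τ := by
    have e2 : 0 ≤ C * √τ := by positivity
    have e5 : 0 ≤ C * C * √τ := by positivity
    nlinarith
  exact mul_le_mul (Real.exp_le_exp.2 e8) hA' hA0.le (Real.exp_pos _).le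

end

end Pool.Agent.V1182
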