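import Pool.Agent.V1182.Cri
import Pool.Agent.Y494.NS.KER2

/-!
The weighted series of the functional of the gradient at a singular point (helper82).
-/

set_option autoImplicit false

open MeasureTheory Set Metric Filter Topology
open scoped ContDiff ENNReal NNReal

namespace Pool.Agent.V1182

open H459R3.NS W221.NS Pool.Agent.Y8 Pool.Agent.Y153.NS Pool.Agent.Y458.NS

/-- One step of the recursion, in logarithmic form. -/
lemma seq_bd {C₁ c₀ ε₀ : ℝ} (hC₁ : 1 ≤ C₁) (hc₀ : 0 < c₀) (hε₀ : 0 < ε₀) :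
    ∃ C' ε₁ : ℝ, 0 < C' ∧ 0 < ε₁ ∧ ∀ v v' τ β : ℝ, 0 ≤ v → 0 ≤ τ → 0 ≤ β → β ≤ ε₁ →
      v' = Real.exp (C₁ * √τ) * (v / 2 + C₁ * (√τ + τ + β)) → (τ ≤ ε₀ → c₀ < v') →
      1 / 4 + Real.log (max (v' / c₀) 1) ≤ Real.log (max (v / c₀) 1) + C' * τ := by
  obtain ⟨ε₁, h1, h2, h3, h4⟩ : ∃ ε₁ : ℝ, 0 < ε₁ ∧ ε₁ ≤ ε₀ ∧ Real.exp (C₁ * √ε₁) ≤ 11 / 10 ∧
      C₁ * (√ε₁ + ε₁ + ε₁) ≤ c₀ / 10 := by
    obtain ⟨δ, hδ⟩ : ∃ δ, δ = min (1 / (20 * C₁)) (c₀ / (40 * C₁)) := ⟨_, rfl⟩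
    have hδ0 : 0 < δ := by rw [hδ]; positivity
    have hδ1 : C₁ * δ ≤ 1 / 20 := by
      calc C₁ * δ ≤ C₁ * (1 / (20 * C₁)) := by
            rw [hδ]
            gcongr
            exact min_le_left _ _
        _ = 1 / 20 := by field_simp
    have hδ2 : C₁ * δ ≤ c₀ / 40 := by
      calc C₁ * δ ≤ C₁ * (c₀ / (40 * C₁)) := by
            rw [hδ]
            gcongr
            exact min_le_right _ _
        _ = c₀ / 40 := by field_simp
    have hδ3 : δ ≤ 1 := by nlinarith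
    have hm : min (δ ^ 2) ε₀ ≤ δ ^ 2 := min_le_left _ _
    have hs : √(min (δ ^ 2) ε₀) ≤ δ := by
      refine (Real.sqrt_le_sqrt hm).trans (le_of_eq ?_)
      exact Real.sqrt_sq hδ0.le
    refine ⟨min (δ ^ 2) ε₀, by positivity, min_le_right _ _, ?_, ?_⟩
    · have h5 : C₁ * √(min (δ ^ 2) ε₀) ≤ 1 / 20 := by
        refine le_trans ?_ hδ1
        gcongr
      have h6 : Real.exp (C₁ * √(min (δ ^ 2) ε₀)) ≤ Real.exp (1 / 20) := Real.exp_le_exp.2 h5
      have h7 : Real.exp (1 / 20) ≤ 11 / 10 := by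
        have h8 := Real.add_one_le_exp (-(1 / 20 : ℝ))
        have h9 : Real.exp (1 / 20) * Real.exp (-(1 / 20 : ℝ)) = 1 := by
          rw [← Real.exp_add]
          norm_num
        have h10 := Real.exp_pos (1 / 20 : ℝ)
        nlinarith
      exact h6.trans h7
    · have h5 : δ ^ 2 ≤ δ := by nlinarith
      have h6 : √(min (δ ^ 2) ε₀) + min (δ ^ 2) ε₀ + min (δ ^ 2) ε₀ ≤ 3 * δ := by linarith
      calc C₁ * (√(min (δ ^ 2) ε₀) + min (δ ^ 2) ε₀ + min (δ ^ 2) ε₀) ≤ C₁ * (3 * δ) := by gcongr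
        _ ≤ c₀ / 10 := by linarith
  refine ⟨(1 / ε₁ + 1) * C₁ + C₁ / c₀ * (1 / ε₁ + 1 + 1 + 1) + 1 / (4 * ε₁), ε₁, by positivity,
    h1, ?_⟩
  intro v v' τ β hv hτ hβ hβ1 hv' hcr
  rcases le_or_gt τ ε₁ with hτ1 | hτ1
  · -- the small case
    have hgt := hcr (hτ1.trans h2)
    have h5 : √τ ≤ √ε₁ := Real.sqrt_le_sqrt hτ1
    have h6 : Real.exp (C₁ * √τ) ≤ 11 / 10 := by
      refine le_trans (Real.exp_le_exp.2 ?_) h3
      gcongr
    have h7 : C₁ * (√τ + τ + β) ≤ c₀ / 10 := by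
      refine le_trans ?_ h4
      gcongr
    have h8 : v' ≤ 11 / 10 * (v / 2 + c₀ / 10) := by
      rw [hv']
      gcongr
    have h9 : c₀ ≤ v := by linarith
    have h10 : v' ≤ 66 / 100 * v := by linarith
    have e1 : max (v' / c₀) 1 = v' / c₀ := by
      apply max_eq_left
      rw [le_div_iff₀ hc₀]
      linarith
    have e2 : max (v / c₀) 1 = v / c₀ := by
      apply max_eq_left
      rw [le_div_iff₀ hc₀]
      linarith
    rw [e1, e2]
    have hvp : 0 < v / c₀ := by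
      have : 0 < v := by linarith
      positivity
    have h11 : Real.log (v' / c₀) ≤ Real.log (66 / 100 * (v / c₀)) := by
      apply Real.log_le_log
      · have : 0 < v' := by linarith
        positivity
      · rw [← mul_div_assoc]
        gcongr
    rw [Real.log_mul (by norm_num) hvp.ne'] at h11
    have h12 := Real.log_le_sub_one_of_pos (show (0 : ℝ) < 66 / 100 by norm_num)
    have h13 : 0 ≤ ((1 / ε₁ + 1) * C₁ + C₁ / c₀ * (1 / ε₁ + 1 + 1 + 1) + 1 / (4 * ε₁)) * τ := by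
      positivity
    linarith
  · -- the large case
    obtain ⟨b, hb⟩ : ∃ b, b = C₁ * (√τ + τ + β) / c₀ := ⟨_, rfl⟩
    have hb0 : 0 ≤ b := by rw [hb]; positivity
    obtain ⟨m, hm⟩ : ∃ m, m = max (v / c₀) 1 := ⟨_, rfl⟩
    have hm1 : 1 ≤ m := by rw [hm]; exact le_max_right _ _
    have hmv : v / c₀ ≤ m := by rw [hm]; exact le_max_left _ _
    have hvc : 0 ≤ v / c₀ := by positivity
    have h5 : max (v' / c₀) 1 ≤ Real.exp (C₁ * √τ) * (m * (1 + b)) := by
      have h6 : 1 ≤ Real.exp (C₁ * √τ) := by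
        rw [← Real.exp_zero]
        apply Real.exp_le_exp.2
        positivity
      apply max_le
      · have h7 : v' / c₀ = Real.exp (C₁ * √τ) * (v / c₀ / 2 + b) := by
          rw [hv', hb]
          field_simp
        rw [h7]
        apply mul_le_mul_of_nonneg_left _ (by positivity)
        nlinarith
      · have h8 : 1 ≤ m * (1 + b) := by nlinarith
        nlinarith
    have h6 : Real.log (max (v' / c₀) 1) ≤ C₁ * √τ + (Real.log m + b) := by
      refine (Real.log_le_log (by positivity) h5).trans ?_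
      rw [Real.log_mul (Real.exp_pos _).ne' (by positivity), Real.log_exp,
        Real.log_mul (by positivity) (by positivity)]
      have := Real.log_le_sub_one_of_pos (show 0 < 1 + b by positivity)
      linarith
    rw [← hm]
    have hτ0 : 0 < τ := h1.trans hτ1
    have h7 : √τ ≤ (1 / ε₁ + 1) * τ := by
      have h8 := sqrt_le1 hτ
      have h9 : 1 ≤ 1 / ε₁ * τ := by
        rw [one_div, ← div_eq_inv_mul, le_div_iff₀ h1]
        linarith
      linarith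
    have h8 : 1 / 4 ≤ 1 / (4 * ε₁) * τ := by
      rw [one_div_mul_eq_div, div_le_div_iff₀ (by norm_num) (by positivity)]
      linarith
    have h9 : C₁ * √τ ≤ (1 / ε₁ + 1) * C₁ * τ := by
      calc C₁ * √τ ≤ C₁ * ((1 / ε₁ + 1) * τ) := by gcongr
        _ = _ := by ring
    have h10 : b ≤ C₁ / c₀ * (1 / ε₁ + 1 + 1 + 1) * τ := by
      calc b = C₁ / c₀ * (√τ + τ + β) := by rw [hb]; ring
        _ ≤ C₁ / c₀ * ((1 / ε₁ + 1) * τ + τ + τ) := by
            gcongr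
            linarith
        _ = _ := by ring
    have h11 : ((1 / ε₁ + 1) * C₁ + C₁ / c₀ * (1 / ε₁ + 1 + 1 + 1) + 1 / (4 * ε₁)) * τ
        = (1 / ε₁ + 1) * C₁ * τ + C₁ / c₀ * (1 / ε₁ + 1 + 1 + 1) * τ + 1 / (4 * ε₁) * τ := by
      ring
    rw [h11]
    linarith

lemma ta_succ (G : Set ℝ) (u : ℝ → V → V) (n : ℕ) (z : ℝ × V) :
    ta G u (n + 1) z = Th G u (n + 1) z + ta G u n z / 2 := by
  unfold ta
  rw [Finset.sum_range_succ']
  simp only [pow_zero, inv_one, one_mul, Nat.sub_zero]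
  rw [add_comm, Finset.sum_div]
  congr 1
  refine Finset.sum_congr rfl fun k _ => ?_
  rw [pow_succ, Nat.succ_sub_succ, mul_inv]
  ring

lemma ta_le (n : ℕ) : ∃ C : ℝ, 0 < C ∧ ∀ (T E D : ℝ) (G : Set ℝ) (u : ℝ → V → V)
    (p : ℝ → V → ℝ), Turb 1 T E D G u p → ∀ z : ℝ × V, ta G u n z ≤ C * D := by
  choose C hC hCb using Th_le
  refine ⟨(∑ k ∈ Finset.range n, (2 ^ k)⁻¹ * C (n - k)) + 1, ?_, ?_⟩
  · have : 0 ≤ ∑ k ∈ Finset.range n, ((2 : ℝ) ^ k)⁻¹ * C (n - k) :=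
      Finset.sum_nonneg fun k _ => mul_nonneg (by positivity) (hC _).le
    linarith
  · intro T E D G u p h z
    have hD : 0 ≤ D := le_trans (integral_nonneg fun t =>
      Pool.Agent.Y8.enst_nn (u t)) h.enst_le
    unfold ta
    rw [add_mul, one_mul, Finset.sum_mul]
    refine le_add_of_le_of_nonneg (Finset.sum_le_sum fun k _ => ?_) hD
    rw [mul_assoc]
    exact mul_le_mul_of_nonneg_left (hCb (n - k) T E D G u p h z) (by positivity)

/-- The weighted series at a singular point. -/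
theorem ser : ∃ C' : ℝ, 0 < C' ∧ ∀ E : ℝ, ∃ n₀ : ℕ, 2 ≤ n₀ ∧ ∀ j, n₀ ≤ j → ∃ B : ℝ, 0 < B ∧
    ∀ (T D : ℝ) (G : Set ℝ) (u : ℝ → V → V) (p : ℝ → V → ℝ), Turb 1 T E D G u p →
    ∀ z : ℝ × V, 0 ≤ z.1 - rr j ^ 2 → z.1 + rr j ^ 2 ≤ T → SingPt G u z.1 z.2 →
    ∀ a : ℕ → ℝ, (∀ n, 0 ≤ a n) → (∀ n, j ≤ n → a (n + 1) ≤ a n) → ∀ J, j ≤ J →
      ∑ n ∈ Finset.Ioc j J, a n ≤ C' * (∑ n ∈ Finset.Ioc j J, a n * Th G u n z)
        + a j * (B * (1 + D)) := by
  obtain ⟨C, κ, hD⟩ := dat_ex Pool.Agent.Y494.NS.Ker.t_KER2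
  obtain ⟨C₁, hC₁, hstep⟩ := step Pool.Agent.Y8.B.p_tcut Pool.Agent.Y494.NS.Ker.t_KER2 hD
  obtain ⟨c₀, ε₀, hc₀, hε₀, hcrit⟩ := crit hD
  obtain ⟨C', ε₁, hC', hε₁, hseq⟩ := seq_bd hC₁ hc₀ hε₀
  have hC := hD.one
  refine ⟨8 * C', by positivity, fun E => ?_⟩
  obtain ⟨n₁, hn₁⟩ := rr_small (show 0 < min (min ε₀ ε₁) 1 by positivity)
    (by positivity : (0 : ℝ) ≤ 1 + E ^ 2)
  refine ⟨max 2 n₁, le_max_left _ _, fun j hj => ?_⟩
  obtain ⟨Ct, hCt, hta⟩ := ta_le j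
  obtain ⟨v₀, hv₀⟩ : ∃ v₀, v₀ = 2 * C * (rr j ^ 2)⁻¹ * (1 + E ^ 2) := ⟨_, rfl⟩
  have hv₀0 : 0 ≤ v₀ := by rw [hv₀]; positivity
  have hlog0 : 0 ≤ Real.log (max (v₀ / c₀) 1) := Real.log_nonneg (le_max_right _ _)
  refine ⟨4 * Real.log (max (v₀ / c₀) 1) + 4 * C' * Ct, by positivity, ?_⟩
  intro T D G u p h z hz0 hzT hsing a ha0 hamono J hJ
  have hj2 : 2 ≤ j := (le_max_left _ _).trans hj
  have hD0 : 0 ≤ D := le_trans (integral_nonneg fun t =>
    Pool.Agent.Y8.enst_nn (u t)) h.enst_le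
  have hsml : ∀ n, j ≤ n → (1 + E ^ 2) * rr n ≤ min (min ε₀ ε₁) 1 := fun n hn =>
    hn₁ n (((le_max_right _ _).trans hj).trans hn)
  have hrmono : ∀ n, j ≤ n → rr n ^ 2 ≤ rr j ^ 2 := fun n hn =>
    pow_le_pow_left₀ (Pool.Agent.Y153.NS.rr_pos n).le
      (pow_le_pow_of_le_one (by norm_num) (by norm_num) hn) 2
  -- the majorant
  obtain ⟨w, hw0, hws⟩ : ∃ w : ℕ → ℝ, w 0 = v₀ ∧ ∀ k, w (k + 1) =
      Real.exp (C₁ * √(ta G u (j + k + 1) z)) * (w k / 2 + C₁ * (√(ta G u (j + k + 1) z)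
        + ta G u (j + k + 1) z + (1 + E ^ 2) * rr (j + k + 1))) :=
    ⟨fun k => Nat.rec v₀ (fun k wk => Real.exp (C₁ * √(ta G u (j + k + 1) z)) * (wk / 2
      + C₁ * (√(ta G u (j + k + 1) z) + ta G u (j + k + 1) z + (1 + E ^ 2) * rr (j + k + 1)))) k,
      rfl, fun k => rfl⟩
  have hwnn : ∀ k, 0 ≤ w k := by
    intro k
    induction k with
    | zero => rw [hw0]; exact hv₀0
    | succ k ih =>
      rw [hws]
      have := ta_nn G u (j + k + 1) z
      have := Pool.Agent.Y153.NS.rr_pos (j + k + 1)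
      positivity
  have hmaj : ∀ k, ∀ t ∈ II (j + k) z.1 ∩ G, ff κ (j + k) (u t) z.2 ≤ w k := by
    intro k
    induction k with
    | zero =>
      intro t ht
      rw [hw0, hv₀]
      exact ff_bd hD h hj2 z.2 ht.2
    | succ k ih =>
      have hle := hrmono (j + k + 1) (by omega)
      have := hstep T E D G u p h (j + k) (by omega) z (by linarith) (by linarith)
        ((hsml (j + k + 1) (by omega)).trans (min_le_right _ _)) (w k) (hwnn k) ih
      rw [← hws] at this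
      exact this
  have hone : ∀ k, 1 / 4 + Real.log (max (w (k + 1) / c₀) 1) ≤ Real.log (max (w k / c₀) 1)
      + C' * ta G u (j + k + 1) z := by
    intro k
    have hle := hrmono (j + k + 1) (by omega)
    have hs := hsml (j + k + 1) (by omega)
    refine hseq (w k) (w (k + 1)) _ ((1 + E ^ 2) * rr (j + k + 1)) (hwnn k) (ta_nn _ _ _ _)
      (by have := Pool.Agent.Y153.NS.rr_pos (j + k + 1); positivity)
      (hs.trans ((min_le_left _ _).trans (min_le_right _ _))) (hws k) fun hτ => ?_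
    by_contra hcon
    rw [not_lt] at hcon
    refine hcrit T E D G u p h (j + k + 1) (by omega) z (by linarith) (by linarith)
      (hs.trans ((min_le_left _ _).trans (min_le_left _ _))) hτ (fun t ht => ?_) hsing
    exact (hmaj (k + 1) t ht).trans hcon
  -- the sums
  have hlognn : ∀ k, 0 ≤ Real.log (max (w k / c₀) 1) := fun k =>
    Real.log_nonneg (le_max_right _ _)
  have hsum1 : ∀ k, (∑ n ∈ Finset.Ioc j (j + k), a n) / 4
      + a (j + k) * Real.log (max (w k / c₀) 1) ≤ a j * Real.log (max (v₀ / c₀) 1)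
      + C' * ∑ n ∈ Finset.Ioc j (j + k), a n * ta G u n z := by
    intro k
    induction k with
    | zero => simp [hw0]
    | succ k ih =>
      rw [← add_assoc, Finset.sum_Ioc_succ_top (by omega), Finset.sum_Ioc_succ_top (by omega)]
      have h1 := mul_le_mul_of_nonneg_left (hone k) (ha0 (j + k + 1))
      have h2 := mul_le_mul_of_nonneg_right (hamono (j + k) (by omega)) (hlognn k)
      nlinarith
  have hsum2 : ∀ k, (∑ n ∈ Finset.Ioc j (j + k), a n * ta G u n z) + a (j + k) * ta G u (j + k) z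
      ≤ 2 * (∑ n ∈ Finset.Ioc j (j + k), a n * Th G u n z) + a j * ta G u j z := by
    intro k
    induction k with
    | zero => simp
    | succ k ih =>
      rw [← add_assoc, Finset.sum_Ioc_succ_top (by omega), Finset.sum_Ioc_succ_top (by omega)]
      have h2 := mul_le_mul_of_nonneg_right (hamono (j + k) (by omega)) (ta_nn G u (j + k) z)
      have h3 : a (j + k + 1) * ta G u (j + k + 1) z = a (j + k + 1) * Th G u (j + k + 1) z
          + a (j + k + 1) * ta G u (j + k) z / 2 := by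
        rw [ta_succ]
        ring
      rw [h3]
      linarith
  obtain ⟨k, rfl⟩ : ∃ k, J = j + k := ⟨J - j, by omega⟩
  have s1 := hsum1 k
  have s2 := hsum2 k
  have s3 : 0 ≤ a (j + k) * Real.log (max (w k / c₀) 1) := mul_nonneg (ha0 _) (hlognn k)
  have s4 : 0 ≤ a (j + k) * ta G u (j + k) z := mul_nonneg (ha0 _) (ta_nn _ _ _ _)
  have s5 : a j * ta G u j z ≤ a j * (Ct * D) :=
    mul_le_mul_of_nonneg_left (hta T E D G u p h z) (ha0 _)
  have s6 : C' * ∑ n ∈ Finset.Ioc j (j + k), a n * ta G u n z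
      ≤ C' * (2 * (∑ n ∈ Finset.Ioc j (j + k), a n * Th G u n z) + a j * (Ct * D)) := by
    apply mul_le_mul_of_nonneg_left _ hC'.le
    linarith
  have s7 : 0 ≤ a j * Real.log (max (v₀ / c₀) 1) * D :=
    mul_nonneg (mul_nonneg (ha0 _) hlog0) hD0
  have s8 : 0 ≤ a j * (C' * Ct) := mul_nonneg (ha0 _) (by positivity)
  nlinarith

end Pool.Agent.V1182
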